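import Pool.Agent.H832.Few.Defs

set_option autoImplicit false

namespace Pool.Agent.H832.Few

open Pointwise in
theorem A_pow_mem (i : Fin 2) (b : Bool) (n : ℕ) (g : D)
    (hg : g ∉ FreeGroup.startsWith (i, !b)) :
    (FreeGroup.mk [(i, b)]) ^ (n + 1) * g ∈ FreeGroup.startsWith (i, b) := by
  induction n with
  | zero =>
    rw [zero_add, pow_one]
    exact FreeGroup.startsWith_mk_mul g hg
  | succ n ih =>
    rw [pow_succ', mul_assoc]
    refine FreeGroup.startsWith_mk_mul _ fun h => ?_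
    have h1 : Disjoint (FreeGroup.startsWith (i, b)) (FreeGroup.startsWith (i, !b)) :=
      FreeGroup.startsWith.disjoint_iff_ne.2 (by cases b <;> simp)
    exact Set.disjoint_left.1 h1 ih h

open Pointwise in
theorem powHom_injective (p q : ℕ) (hp : 0 < p) (hq : 0 < q) :
    Function.Injective (powHom p q) := by
  have hk : ∀ i : Fin 2, ∃ n : ℕ, (if i = 0 then dd ^ p else de ^ q : D) =
      (FreeGroup.mk [(i, true)]) ^ (n + 1) := by
    intro i
    by_cases hi : i = 0
    · subst hi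
      obtain ⟨n, rfl⟩ := Nat.exists_eq_succ_of_ne_zero hp.ne'
      exact ⟨n, by rw [if_pos rfl]; rfl⟩
    · have hi' : i = 1 := by omega
      subst hi'
      obtain ⟨n, rfl⟩ := Nat.exists_eq_succ_of_ne_zero hq.ne'
      exact ⟨n, by rw [if_neg hi]; rfl⟩
  have hne : ∀ (i j : Fin 2) (b c : Bool), (i ≠ j ∨ b ≠ c) →
      Disjoint (FreeGroup.startsWith (i, b)) (FreeGroup.startsWith (j, c)) := by
    intro i j b c h
    refine FreeGroup.startsWith.disjoint_iff_ne.2 fun h' => ?_
    rw [Prod.mk.injEq] at h'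
    rcases h with h | h
    · exact h h'.1
    · exact h h'.2
  refine FreeGroup.injective_lift_of_ping_pong (G := D) (α := D)
    (fun i : Fin 2 => if i = 0 then dd ^ p else de ^ q)
    (fun i => FreeGroup.startsWith (i, true)) (fun i => FreeGroup.startsWith (i, false))
    ?_ ?_ ?_ ?_ ?_ ?_
  · intro i
    exact ⟨FreeGroup.mk [(i, true)], by simp [FreeGroup.startsWith]⟩
  · intro i j hij
    exact hne i j true true (Or.inl hij)
  · intro i j hij
    exact hne i j false false (Or.inl hij)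
  · intro i j
    exact hne i j true false (Or.inr (by simp))
  · rintro i g ⟨w, hw, rfl⟩
    obtain ⟨n, hn⟩ := hk i
    show (if i = 0 then dd ^ p else de ^ q : D) * w ∈ FreeGroup.startsWith (i, true)
    rw [hn]
    exact A_pow_mem i true n w hw
  · rintro i g ⟨w, hw, rfl⟩
    obtain ⟨n, hn⟩ := hk i
    show (if i = 0 then dd ^ p else de ^ q : D)⁻¹ * w ∈ FreeGroup.startsWith (i, false)
    rw [hn, ← inv_pow]
    have h1 : (FreeGroup.mk [(i, true)] : D)⁻¹ = FreeGroup.mk [(i, false)] := rfl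
    rw [h1]
    exact A_pow_mem i false n w hw

/-! ### the wreath product invariants -/

/-- translation -/
def A_pd : Equiv.Perm (ℤ × (ℤ → ℤ)) where
  toFun x := (1 + x.1, fun i => x.2 (i - 1))
  invFun x := (-1 + x.1, fun i => x.2 (i + 1))
  left_inv x := by
    refine Prod.ext (by simp) ?_
    funext i
    show x.2 (i + 1 - 1) = x.2 i
    rw [add_sub_cancel_right]
  right_inv x := by
    refine Prod.ext (by simp) ?_
    funext i
    show x.2 (i - 1 + 1) = x.2 i
    rw [sub_add_cancel]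

/-- lamp -/
def A_pe : Equiv.Perm (ℤ × (ℤ → ℤ)) where
  toFun x := (x.1, fun i => (if i = 0 then 1 else 0) + x.2 i)
  invFun x := (x.1, fun i => - (if i = 0 then 1 else 0) + x.2 i)
  left_inv x := by
    refine Prod.ext rfl ?_
    funext i
    show - (if i = 0 then 1 else 0) + ((if i = 0 then 1 else 0) + x.2 i) = x.2 i
    ring
  right_inv x := by
    refine Prod.ext rfl ?_
    funext i
    show (if i = 0 then 1 else 0) + (- (if i = 0 then 1 else 0) + x.2 i) = x.2 i
    ring

/-- the action -/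
def A_th : D →* Equiv.Perm (ℤ × (ℤ → ℤ)) := FreeGroup.lift fun i => if i = 0 then A_pd else A_pe

/-- exponent sum -/
def A_nu (g : D) : ℤ := (A_th g (0, 0)).1

/-- lamps -/
def A_v (g : D) : ℤ → ℤ := (A_th g (0, 0)).2

theorem A_th_apply (g : D) : ∀ x : ℤ × (ℤ → ℤ),
    A_th g x = (A_nu g + x.1, fun i => A_v g i + x.2 (i - A_nu g)) := by
  -- an abstract form of the claim
  have key : ∀ g : D, ∃ (n : ℤ) (f : ℤ → ℤ), ∀ x : ℤ × (ℤ → ℤ),
      A_th g x = (n + x.1, fun i => f i + x.2 (i - n)) := by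
    intro g
    induction g using FreeGroup.induction_on with
    | C1 =>
      refine ⟨0, 0, fun x => ?_⟩
      rw [map_one]
      refine Prod.ext (by simp) ?_
      funext i
      simp
    | of i =>
      by_cases hi : i = 0
      · refine ⟨1, 0, fun x => ?_⟩
        have h1 : A_th (FreeGroup.of i) = A_pd := by
          unfold A_th
          rw [FreeGroup.lift_apply_of, if_pos hi]
        rw [h1]
        refine Prod.ext rfl ?_
        funext j
        show x.2 (j - 1) = (0 : ℤ → ℤ) j + x.2 (j - 1)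
        simp
      · refine ⟨0, fun j => if j = 0 then 1 else 0, fun x => ?_⟩
        have h1 : A_th (FreeGroup.of i) = A_pe := by
          unfold A_th
          rw [FreeGroup.lift_apply_of, if_neg hi]
        rw [h1]
        refine Prod.ext (zero_add _).symm ?_
        funext j
        show (if j = 0 then 1 else 0) + x.2 j = (if j = 0 then 1 else 0) + x.2 (j - 0)
        rw [sub_zero]
    | inv_of i ih =>
      obtain ⟨n, f, hf⟩ := ih
      refine ⟨-n, fun j => - f (j + n), fun x => ?_⟩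
      rw [map_inv, Equiv.Perm.inv_eq_iff_eq, hf]
      refine Prod.ext (by simp) ?_
      funext j
      show x.2 j = f j + (- f (j - n + n) + x.2 (j - n - -n))
      have e1 : j - n + n = j := by ring
      have e2 : j - n - -n = j := by ring
      rw [e1, e2]
      ring
    | mul g h ihg ihh =>
      obtain ⟨n, f, hf⟩ := ihg
      obtain ⟨n', f', hf'⟩ := ihh
      refine ⟨n + n', fun j => f j + f' (j - n), fun x => ?_⟩
      rw [map_mul, Equiv.Perm.mul_apply, hf', hf]
      refine Prod.ext (by simp [add_assoc]) ?_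
      funext j
      show f j + (f' (j - n) + x.2 (j - n - n')) = f j + f' (j - n) + x.2 (j - (n + n'))
      have e1 : j - n - n' = j - (n + n') := by ring
      rw [e1]
      ring
  obtain ⟨n, f, hf⟩ := key g
  have h1 : A_nu g = n := by
    unfold A_nu
    rw [hf]
    simp
  have h2 : A_v g = f := by
    unfold A_v
    rw [hf]
    funext i
    simp
  rw [h1, h2]
  exact hf

theorem A_nu_mul (g h : D) : A_nu (g * h) = A_nu g + A_nu h := by
  have h1 : A_nu (g * h) = (A_th g (A_th h (0, 0))).1 := by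
    unfold A_nu
    rw [map_mul, Equiv.Perm.mul_apply]
  rw [h1, A_th_apply g]
  rfl

theorem A_v_mul (g h : D) (i : ℤ) : A_v (g * h) i = A_v g i + A_v h (i - A_nu g) := by
  have h1 : A_v (g * h) i = (A_th g (A_th h (0, 0))).2 i := by
    unfold A_v
    rw [map_mul, Equiv.Perm.mul_apply]
  rw [h1, A_th_apply g]
  rfl

theorem A_nu_one : A_nu 1 = 0 := by
  unfold A_nu
  rw [map_one]
  rfl

theorem A_v_one (i : ℤ) : A_v 1 i = 0 := by
  unfold A_v
  rw [map_one]
  rfl

theorem A_nu_inv (g : D) : A_nu g⁻¹ = - A_nu g := by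
  have h := A_nu_mul g g⁻¹
  rw [mul_inv_cancel, A_nu_one] at h
  linarith

theorem A_v_inv (g : D) (i : ℤ) : A_v g⁻¹ i = - A_v g (i + A_nu g) := by
  have h := A_v_mul g g⁻¹ (i + A_nu g)
  rw [mul_inv_cancel, A_v_one] at h
  have e : i + A_nu g - A_nu g = i := by ring
  rw [e] at h
  linarith

theorem A_th_dd : A_th dd = A_pd := by
  unfold A_th
  rw [FreeGroup.lift_apply_of, if_pos rfl]

theorem A_th_de : A_th de = A_pe := by
  unfold A_th
  rw [FreeGroup.lift_apply_of, if_neg (by decide)]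

theorem A_nu_dd : A_nu dd = 1 := by
  unfold A_nu
  rw [A_th_dd]
  rfl

theorem A_nu_de : A_nu de = 0 := by
  unfold A_nu
  rw [A_th_de]
  rfl

theorem A_v_dd (i : ℤ) : A_v dd i = 0 := by
  unfold A_v
  rw [A_th_dd]
  rfl

theorem A_v_de (i : ℤ) : A_v de i = if i = 0 then 1 else 0 := by
  unfold A_v
  rw [A_th_de]
  show (if i = 0 then 1 else 0) + (0 : ℤ) = _
  rw [add_zero]

theorem A_nu_ddz (α : ℤ) : A_nu (dd ^ α) = α := by
  induction α using Int.induction_on with
  | zero => rw [zpow_zero, A_nu_one]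
  | succ n ih => rw [zpow_add_one, A_nu_mul, ih, A_nu_dd]
  | pred n ih => rw [zpow_sub_one, A_nu_mul, ih, A_nu_inv, A_nu_dd]; ring

theorem A_v_ddz (α : ℤ) : ∀ i : ℤ, A_v (dd ^ α) i = 0 := by
  induction α using Int.induction_on with
  | zero => intro i; rw [zpow_zero, A_v_one]
  | succ n ih => intro i; rw [zpow_add_one, A_v_mul, ih, A_v_dd, add_zero]
  | pred n ih => intro i; rw [zpow_sub_one, A_v_mul, ih, A_v_inv, A_v_dd]; ring

theorem A_nu_dez (β : ℤ) : A_nu (de ^ β) = 0 := by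
  induction β using Int.induction_on with
  | zero => rw [zpow_zero, A_nu_one]
  | succ n ih => rw [zpow_add_one, A_nu_mul, ih, A_nu_de]; ring
  | pred n ih => rw [zpow_sub_one, A_nu_mul, ih, A_nu_inv, A_nu_de]; ring

theorem A_v_dez (β : ℤ) : ∀ i : ℤ, A_v (de ^ β) i = if i = 0 then β else 0 := by
  induction β using Int.induction_on with
  | zero => intro i; rw [zpow_zero, A_v_one]; simp
  | succ n ih =>
    intro i
    rw [zpow_add_one, A_v_mul, ih, A_v_de, A_nu_dez, sub_zero]
    split_ifs <;> ring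
  | pred n ih =>
    intro i
    rw [zpow_sub_one, A_v_mul, ih, A_v_inv, A_v_de, A_nu_dez, A_nu_de, sub_zero, add_zero]
    split_ifs <;> ring

theorem A_pow_of (p q : ℕ) (i : Fin 2) :
    powHom p q (FreeGroup.of i) = if i = 0 then dd ^ p else de ^ q := by
  unfold powHom
  rw [FreeGroup.lift_apply_of]

theorem A_fin (i : Fin 2) : i = 0 ∨ i = 1 := by omega

theorem A_h1 (p : ℕ) (w : D) : A_nu (powHom 1 p w) = A_nu w ∧
    ∀ i, A_v (powHom 1 p w) i = p * A_v w i := by
  induction w using FreeGroup.induction_on with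
  | C1 => exact ⟨by rw [map_one], fun i => by rw [map_one, A_v_one, mul_zero]⟩
  | of i =>
    rcases A_fin i with rfl | rfl
    · rw [A_pow_of, if_pos rfl, pow_one]
      exact ⟨rfl, fun i => by rw [A_v_dd, mul_zero]⟩
    · rw [A_pow_of, if_neg (by decide), ← zpow_natCast]
      refine ⟨by rw [A_nu_dez, A_nu_de], fun i => ?_⟩
      rw [A_v_dez, A_v_de]
      split_ifs <;> simp
  | inv_of i ih =>
    obtain ⟨h1, h2⟩ := ih
    refine ⟨by rw [map_inv, A_nu_inv, A_nu_inv, h1], fun j => ?_⟩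
    rw [map_inv, A_v_inv, A_v_inv, h1, h2]
    ring
  | mul g h ihg ihh =>
    obtain ⟨h1, h2⟩ := ihg
    obtain ⟨h3, h4⟩ := ihh
    refine ⟨by rw [map_mul, A_nu_mul, A_nu_mul, h1, h3], fun j => ?_⟩
    rw [map_mul, A_v_mul, A_v_mul, h1, h2, h4]
    ring

theorem A_h2 (p : ℕ) (hp : 0 < p) (w : D) : A_nu (powHom p 1 w) = p * A_nu w ∧
    (∀ i, A_v (powHom p 1 w) (p * i) = A_v w i) ∧
    ∀ i, ¬ (p : ℤ) ∣ i → A_v (powHom p 1 w) i = 0 := by
  have hp' : (p : ℤ) ≠ 0 := by exact_mod_cast hp.ne'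
  induction w using FreeGroup.induction_on with
  | C1 =>
    refine ⟨by rw [map_one, A_nu_one, mul_zero], fun i => ?_, fun i _ => ?_⟩
    · rw [map_one, A_v_one, A_v_one]
    · rw [map_one, A_v_one]
  | of i =>
    rcases A_fin i with rfl | rfl
    · rw [A_pow_of, if_pos rfl, ← zpow_natCast]
      refine ⟨by rw [A_nu_ddz, A_nu_dd, mul_one], fun i => ?_, fun i _ => ?_⟩
      · rw [A_v_ddz, A_v_dd]
      · rw [A_v_ddz]
    · rw [A_pow_of, if_neg (by decide), pow_one]
      refine ⟨by rw [A_nu_de, mul_zero], fun i => ?_, fun i hi => ?_⟩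
      · rw [A_v_de, A_v_de]
        by_cases h : i = 0
        · rw [if_pos h, if_pos (by rw [h, mul_zero])]
        · rw [if_neg h, if_neg (mul_ne_zero hp' h)]
      · rw [A_v_de, if_neg]
        rintro rfl
        exact hi (dvd_zero _)
  | inv_of i ih =>
    obtain ⟨h1, h2, h3⟩ := ih
    refine ⟨by rw [map_inv, A_nu_inv, A_nu_inv, h1]; ring, fun j => ?_, fun j hj => ?_⟩
    · rw [map_inv, A_v_inv, A_v_inv, h1, ← mul_add, h2]
    · rw [map_inv, A_v_inv, h1, h3, neg_zero]
      intro h4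
      apply hj
      have := dvd_sub h4 (dvd_mul_right (p : ℤ) (A_nu (FreeGroup.of i)))
      rwa [add_sub_cancel_right] at this
  | mul g h ihg ihh =>
    obtain ⟨h1, h2, h3⟩ := ihg
    obtain ⟨h4, h5, h6⟩ := ihh
    refine ⟨by rw [map_mul, A_nu_mul, A_nu_mul, h1, h4]; ring, fun j => ?_, fun j hj => ?_⟩
    · rw [map_mul, A_v_mul, A_v_mul, h1, h2, ← mul_sub, h5]
    · rw [map_mul, A_v_mul, h1, h3 j hj, h6, add_zero]
      intro h7
      apply hj
      have := dvd_add h7 (dvd_mul_right (p : ℤ) (A_nu g))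
      rwa [sub_add_cancel] at this

theorem dd_mem (p : ℕ) (α : ℤ) (h : dd ^ α ∈ (powHom p 1).range) : (p : ℤ) ∣ α := by
  obtain ⟨w, hw⟩ := h
  rcases Nat.eq_zero_or_pos p with rfl | hp
  · -- for `p = 0` the range consists of powers of `e`
    have h1 : ∀ w : D, A_nu (powHom 0 1 w) = 0 := by
      intro w
      induction w using FreeGroup.induction_on with
      | C1 => rw [map_one, A_nu_one]
      | of i =>
        rcases A_fin i with rfl | rfl
        · rw [A_pow_of, if_pos rfl, pow_zero, A_nu_one]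
        · rw [A_pow_of, if_neg (by decide), pow_one, A_nu_de]
      | inv_of i ih => rw [map_inv, A_nu_inv, ih, neg_zero]
      | mul g h ihg ihh => rw [map_mul, A_nu_mul, ihg, ihh, add_zero]
    have h2 := h1 w
    rw [hw, A_nu_ddz] at h2
    rw [h2]
    exact dvd_zero _
  · have h1 := (A_h2 p hp w).1
    rw [hw, A_nu_ddz] at h1
    exact ⟨_, h1⟩

theorem de_mem (p : ℕ) (β : ℤ) (h : de ^ β ∈ (powHom 1 p).range) : (p : ℤ) ∣ β := by
  obtain ⟨w, hw⟩ := h
  have h1 := (A_h1 p w).2 0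
  rw [hw, A_v_dez, if_pos rfl] at h1
  exact ⟨_, h1⟩

theorem exists_I (p : ℕ) (hp : 0 < p) : ∃ I : D → Prop,
    (∀ (w : D) (β : ℤ), ¬ (p : ℤ) ∣ β → I (powHom 1 p w * de ^ β)) ∧
    (∀ w : D, I (powHom p 1 w) → I (powHom 1 p w)) ∧
    (∀ (g : D) (α : ℤ), I g → g * dd ^ α ∈ (powHom p 1).range → (p : ℤ) ∣ α) := by
  have hp' : (p : ℤ) ≠ 0 := by exact_mod_cast hp.ne'
  refine ⟨fun g => A_v g (A_nu g) ≠ 0, fun w β hβ => ?_, fun w h => ?_, fun g α h1 h2 => ?_⟩
  · show A_v (powHom 1 p w * de ^ β) (A_nu (powHom 1 p w * de ^ β)) ≠ 0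
    obtain ⟨h1, h2⟩ := A_h1 p w
    rw [A_nu_mul, A_nu_dez, add_zero, A_v_mul, sub_self, A_v_dez, if_pos rfl, h2]
    intro h3
    apply hβ
    exact ⟨- A_v w (A_nu (powHom 1 p w)), by linarith⟩
  · have h' : A_v (powHom p 1 w) (A_nu (powHom p 1 w)) ≠ 0 := h
    show A_v (powHom 1 p w) (A_nu (powHom 1 p w)) ≠ 0
    obtain ⟨h1, h2⟩ := A_h1 p w
    obtain ⟨h3, h4, h5⟩ := A_h2 p hp w
    rw [h3, h4] at h'
    rw [h2, h1]
    exact mul_ne_zero hp' h'
  · have h1' : A_v g (A_nu g) ≠ 0 := h1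
    obtain ⟨w, hw⟩ := h2
    obtain ⟨h3, h4, h5⟩ := A_h2 p hp w
    have h6 : A_v (g * dd ^ α) (A_nu g) = A_v g (A_nu g) := by
      rw [A_v_mul, A_v_ddz, add_zero]
    have h7 : (p : ℤ) ∣ A_nu g := by
      by_contra h8
      apply h1'
      rw [← h6, ← hw]
      exact h5 _ h8
    have h8 : A_nu g + α = p * A_nu w := by
      rw [← h3, hw, A_nu_mul, A_nu_ddz]
    have h9 : α = p * A_nu w - A_nu g := by linarith
    rw [h9]
    exact dvd_sub (dvd_mul_right _ _) h7

end Pool.Agent.H832.Few
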