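import Pool.Agent.H832.Few.Defs

set_option autoImplicit false

namespace Pool.Agent.H832.Few

/-- The reduced word of a positive word. -/
def B_rw {G : Type} [Group G] (A B : Subgroup G) (g0 : G) (l : List G) :
    HNNExtension.NormalWord.ReducedWord G A B where
  head := g0
  toList := l.map fun g => (1, g)
  chain := by
    induction l with
    | nil => exact List.isChain_nil
    | cons g l ih =>
      rw [List.map_cons, List.isChain_cons]
      refine ⟨?_, ih⟩
      intro y hy _
      cases l with
      | nil => simp at hy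
      | cons g' l =>
        simp only [List.map_cons, List.head?_cons, Option.mem_def, Option.some.injEq] at hy
        rw [← hy]

theorem B_rw_prod {G : Type} [Group G] {A B : Subgroup G} (φ : A ≃* B) (g0 : G) (l : List G) :
    (B_rw A B g0 l).prod φ = posw φ g0 l := by
  show HNNExtension.of g0 * ((l.map fun g => ((1 : ℤˣ), g)).map fun x =>
    HNNExtension.t ^ (x.1 : ℤ) * HNNExtension.of x.2).prod = _
  rw [List.map_map, posw]
  have e : ∀ g ∈ l, ((fun x : ℤˣ × G => (HNNExtension.t ^ (x.1 : ℤ) * HNNExtension.of x.2 :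
      HNNExtension G A B φ)) ∘ fun g => ((1 : ℤˣ), g)) g =
      HNNExtension.t * HNNExtension.of g := by
    intro g _
    simp
  rw [List.map_congr_left e]

theorem B_posw_cons {G : Type} [Group G] {A B : Subgroup G} (φ : A ≃* B) (g0 g1 : G)
    (l : List G) : posw φ g0 (g1 :: l) =
      HNNExtension.of g0 * (HNNExtension.t * posw φ g1 l) := by
  rw [posw, posw, List.map_cons, List.prod_cons, mul_assoc]

theorem conn_of_eq {G : Type} [Group G] {A B : Subgroup G} (φ : A ≃* B) (g0 : G) (l : List G)
    (g0' : G) (l' : List G) (h : posw φ g0 l = posw φ g0' l') : Conn φ g0 l g0' l' := by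
  induction l generalizing g0 g0' l' with
  | nil =>
    cases l' with
    | nil =>
      simp only [posw, List.map_nil, List.prod_nil, mul_one] at h
      exact (HNNExtension.of_injective φ h).symm
    | cons g1' l' =>
      have h2 := h
      rw [← B_rw_prod, ← B_rw_prod] at h2
      have h3 := (HNNExtension.ReducedWord.map_fst_eq_and_of_prod_eq φ h2).1
      simp [B_rw] at h3
  | cons g1 l ih =>
    cases l' with
    | nil =>
      have h2 := h
      rw [← B_rw_prod, ← B_rw_prod] at h2
      have h3 := (HNNExtension.ReducedWord.map_fst_eq_and_of_prod_eq φ h2).1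
      simp [B_rw] at h3
    | cons g1' l' =>
      have h2 := h
      rw [← B_rw_prod, ← B_rw_prod] at h2
      have h3 := (HNNExtension.ReducedWord.map_fst_eq_and_of_prod_eq φ h2).2 1 (by simp [B_rw])
      have h4 : g0⁻¹ * g0' ∈ B := h3
      have e1 : g0' = g0 * (φ (φ.symm ⟨g0⁻¹ * g0', h4⟩) : G) := by
        rw [MulEquiv.apply_symm_apply]
        simp
      refine ⟨φ.symm ⟨g0⁻¹ * g0', h4⟩, e1, ih _ _ _ ?_⟩
      generalize φ.symm ⟨g0⁻¹ * g0', h4⟩ = s at e1
      rw [e1, B_posw_cons, B_posw_cons, map_mul, mul_assoc, ← mul_assoc (HNNExtension.of (φ s : G)),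
        ← HNNExtension.t_mul_of, mul_right_inj, mul_assoc, mul_right_inj] at h
      rw [h, posw, posw, map_mul, mul_assoc]

end Pool.Agent.H832.Few
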