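import Pool.Agent.H832.Few.Defs

set_option autoImplicit false

namespace Pool.Agent.H832.Few

/-- The element has a reduced expression. -/
def C1_good {m : ℕ} (w : FreeGroup (Option (Option (Fin m)))) : Prop :=
  ∃ (l0 : ℤ) (L : CW m), CRed L ∧
    w = ev (FreeGroup.of none) (fun o => FreeGroup.of (some o)) l0 L

theorem C1_ev_cons {m : ℕ} {M : Type} [Group M] (h : M) (γ : Option (Fin m) → M) (o : Option (Fin m))
    (ε : ℤˣ) (l l0 : ℤ) (L : CW m) :
    ev h γ l0 ((o, ε, l) :: L) = h ^ l0 * (γ o ^ (ε : ℤ) * ev h γ l L) := by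
  unfold ev
  rw [List.map_cons, List.prod_cons]
  simp only [mul_assoc]

theorem C1_h {m : ℕ} (k : ℤ) {w : FreeGroup (Option (Option (Fin m)))} (hw : C1_good w) :
    C1_good (FreeGroup.of none ^ k * w) := by
  obtain ⟨l0, L, hL, rfl⟩ := hw
  refine ⟨k + l0, L, hL, ?_⟩
  unfold ev
  rw [zpow_add, mul_assoc]

theorem C1_o {m : ℕ} (o : Option (Fin m)) (ε : ℤˣ) {w : FreeGroup (Option (Option (Fin m)))}
    (hw : C1_good w) : C1_good (FreeGroup.of (some o) ^ (ε : ℤ) * w) := by
  obtain ⟨l0, L, hL, rfl⟩ := hw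
  rcases L with _ | ⟨⟨o', ε', l'⟩, L'⟩
  · refine ⟨0, [(o, ε, l0)], List.isChain_singleton _, ?_⟩
    rw [C1_ev_cons, zpow_zero, one_mul]
  · by_cases hc : o = o' ∧ ε' = -ε ∧ l0 = 0
    · obtain ⟨rfl, rfl, rfl⟩ := hc
      refine ⟨l', L', List.IsChain.tail hL, ?_⟩
      rw [C1_ev_cons, zpow_zero, one_mul, ← mul_assoc]
      rw [Units.val_neg, zpow_neg, mul_inv_cancel, one_mul]
    · refine ⟨0, (o, ε, l0) :: (o', ε', l') :: L', ?_, ?_⟩
      · exact List.isChain_cons_cons.2 ⟨hc, hL⟩
      · rw [C1_ev_cons _ _ o, zpow_zero, one_mul]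

theorem C1_all {m : ℕ} (x : FreeGroup (Option (Option (Fin m)))) :
    ∀ w, C1_good w → C1_good (x * w) := by
  induction x using FreeGroup.induction_on with
  | C1 =>
    intro w hw
    rw [one_mul]
    exact hw
  | of x =>
    intro w hw
    rcases x with _ | o
    · have := C1_h 1 hw
      rwa [zpow_one] at this
    · have := C1_o o 1 hw
      rwa [Units.val_one, zpow_one] at this
  | inv_of x _ =>
    intro w hw
    rcases x with _ | o
    · have := C1_h (-1) hw
      rwa [zpow_neg_one] at this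
    · have := C1_o o (-1) hw
      rwa [Units.val_neg, Units.val_one, zpow_neg_one] at this
  | mul x y hx hy =>
    intro w hw
    rw [mul_assoc]
    exact hx _ (hy _ hw)

theorem exists_cred {m : ℕ} (w : FreeGroup (Option (Option (Fin m)))) :
    ∃ (l0 : ℤ) (L : CW m), CRed L ∧
      w = ev (FreeGroup.of none) (fun o => FreeGroup.of (some o)) l0 L := by
  have h1 : C1_good (1 : FreeGroup (Option (Option (Fin m)))) :=
    ⟨0, [], List.isChain_nil, by simp [ev]⟩
  have h2 := C1_all w 1 h1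
  rw [mul_one] at h2
  exact h2

end Pool.Agent.H832.Few
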