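import Pool.Agent.H832.Few.Defs
import Pool.Agent.H832.Few.A

set_option autoImplicit false

namespace Pool.Agent.H832.Few

/-- exponents of `d` -/
def C2_a {m p : ℕ} (F : Fam m p) : Option (Fin m) → ℤ
  | none => 0
  | some i => F.α i

/-- exponents of `e` -/
def C2_b {m p : ℕ} (F : Fam m p) : Option (Fin m) → ℤ
  | none => 0
  | some i => F.β i

/-- interior exponents of `h` -/
def C2_f {m p : ℕ} (F : Fam m p) : Option (Fin m) → List ℤ
  | none => []
  | some i => F.f i

/-- the first element of a letter -/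
def C2_pr {m p : ℕ} (F : Fam m p) (o : Option (Fin m)) (u : ℤˣ) : B0 :=
  if u = 1 then (dd ^ C2_a F o, 1) else (de ^ (-C2_b F o), 1)

/-- the last element of a letter -/
def C2_sf {m p : ℕ} (F : Fam m p) (o : Option (Fin m)) (u : ℤˣ) : B0 :=
  if u = 1 then (de ^ C2_b F o, 1) else (dd ^ (-C2_a F o), 1)

/-- the interior elements of a letter -/
def C2_mid {m p : ℕ} (F : Fam m p) (o : Option (Fin m)) (u : ℤˣ) : List B0 :=
  if u = 1 then (C2_f F o).map (fun k => hk k) else (C2_f F o).reverse.map (fun k => hk (-k))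

/-- the expansion of a word -/
def C2_xp {m p : ℕ} (F : Fam m p) : ℤ → CW m → B0 × List (ℤˣ × B0)
  | l0, [] => (hk l0, [])
  | l0, (o, u, l) :: T => (hk l0 * C2_pr F o u,
      (C2_mid F o u).map (fun g => (u, g)) ++ (u, C2_sf F o u * (C2_xp F l T).1) :: (C2_xp F l T).2)

theorem C2_gam {m p : ℕ} (F : Fam m p) {M : Type} [Group M] (d e a h : M)
    (o : Option (Fin m)) :
    gam F d e a h o = d ^ C2_a F o * pos a h (C2_f F o) * a * e ^ C2_b F o := by
  cases o with
  | none => simp [gam, C2_a, C2_b, C2_f, pos]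
  | some i => rfl

theorem C2_inv {M : Type} [Group M] (a h : M) (ks : List ℤ) :
    a⁻¹ * (pos a h ks)⁻¹ = (ks.reverse.map fun k => a⁻¹ * h ^ (-k)).prod * a⁻¹ := by
  induction ks with
  | nil => simp [pos]
  | cons k ks ih =>
    have e1 : pos a h (k :: ks) = a * h ^ k * pos a h ks := by
      simp only [pos, List.map_cons, List.prod_cons]
    rw [e1, mul_inv_rev, mul_inv_rev, List.reverse_cons, List.map_append, List.prod_append,
      ← mul_assoc, ih]
    simp only [List.map_cons, List.map_nil, List.prod_cons, List.prod_nil, mul_one, zpow_neg]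
    group

theorem C2_unit (u : ℤˣ) : u = 1 ∨ u = -1 := Int.units_eq_one_or u

theorem C2_ne : ¬ ((-1 : ℤˣ) = 1) := by decide

theorem C2_hkpow (k : ℤ) : (hk 1 : B0) ^ k = hk k := by
  ext
  · simp
  · show (Multiplicative.ofAdd (1 : ℤ)) ^ k = Multiplicative.ofAdd k
    rw [← ofAdd_zsmul]
    simp

theorem C2_dpow (x : D) (k : ℤ) : ((x, 1) : B0) ^ k = (x ^ k, 1) := by
  ext
  · rfl
  · show (1 : Multiplicative ℤ) ^ k = 1
    exact one_zpow k

section

variable {m p : ℕ} (h1 : Function.Injective (fA p)) (h2 : Function.Injective (fB p))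

theorem C2_letter (F : Fam m p) (o : Option (Fin m)) (u : ℤˣ) :
    gens h1 h2 F (some o) ^ (u : ℤ) = gof h1 h2 (C2_pr F o u) *
      (((C2_mid F o u).map (fun g => (u, g))).map
        (fun x : ℤˣ × B0 => ga h1 h2 ^ (x.1 : ℤ) * gof h1 h2 x.2)).prod *
      (ga h1 h2 ^ (u : ℤ) * gof h1 h2 (C2_sf F o u)) := by
  have e0 : gens h1 h2 F (some o) = gof h1 h2 (dd, 1) ^ C2_a F o *
      pos (ga h1 h2) (gof h1 h2 (hk 1)) (C2_f F o) * ga h1 h2 *
      gof h1 h2 (de, 1) ^ C2_b F o := C2_gam F _ _ _ _ o
  have hpow : ∀ k : ℤ, gof h1 h2 (hk 1) ^ k = gof h1 h2 (hk k) := by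
    intro k
    rw [← map_zpow, C2_hkpow]
  have dpow : ∀ (x : D) (k : ℤ), gof h1 h2 (x, 1) ^ k = gof h1 h2 (x ^ k, 1) := by
    intro x k
    rw [← map_zpow, C2_dpow]
  rcases C2_unit u with rfl | rfl
  · rw [e0]
    unfold C2_pr C2_mid C2_sf
    rw [if_pos rfl, if_pos rfl, if_pos rfl, List.map_map, List.map_map]
    have e1 : ((fun x : ℤˣ × B0 => ga h1 h2 ^ (x.1 : ℤ) * gof h1 h2 x.2) ∘ (fun g => ((1 : ℤˣ), g))) ∘
        (fun k => hk k) = fun k : ℤ => ga h1 h2 * gof h1 h2 (hk 1) ^ k := by
      funext k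
      simp only [Function.comp_apply, Units.val_one, zpow_one, hpow]
    have e2 : (((C2_f F o).map (((fun x : ℤˣ × B0 => ga h1 h2 ^ (x.1 : ℤ) * gof h1 h2 x.2) ∘
        (fun g => ((1 : ℤˣ), g))) ∘ (fun k => hk k)))).prod =
        pos (ga h1 h2) (gof h1 h2 (hk 1)) (C2_f F o) := by
      rw [e1]
      rfl
    rw [e2, Units.val_one, zpow_one, zpow_one, dpow, dpow]
    simp only [mul_assoc]
  · rw [e0]
    unfold C2_pr C2_mid C2_sf
    rw [if_neg C2_ne, if_neg C2_ne, if_neg C2_ne, List.map_map, List.map_map]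
    have e1 : ((fun x : ℤˣ × B0 => ga h1 h2 ^ (x.1 : ℤ) * gof h1 h2 x.2) ∘ (fun g => ((-1 : ℤˣ), g))) ∘
        (fun k => hk (-k)) = fun k : ℤ => (ga h1 h2)⁻¹ * gof h1 h2 (hk 1) ^ (-k) := by
      funext k
      simp only [Function.comp_apply, Units.val_neg, Units.val_one, zpow_neg, zpow_one]
      rw [← zpow_neg, hpow]
    rw [e1, Units.val_neg, Units.val_one, zpow_neg_one, zpow_neg_one, mul_assoc (gof h1 h2 _),
      ← mul_assoc (List.prod _), ← C2_inv, mul_inv_rev, mul_inv_rev, mul_inv_rev,
      ← zpow_neg, ← zpow_neg, dpow, dpow]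
    simp only [mul_assoc]

/-- the product of the expansion -/
theorem C2_prod (F : Fam m p) (L : CW m) : ∀ l0 : ℤ,
    gof h1 h2 (C2_xp F l0 L).1 * (((C2_xp F l0 L).2).map
      (fun x : ℤˣ × B0 => ga h1 h2 ^ (x.1 : ℤ) * gof h1 h2 x.2)).prod =
    ev (gens h1 h2 F none) (fun o => gens h1 h2 F (some o)) l0 L := by
  have hpow : ∀ k : ℤ, gens h1 h2 F none ^ k = gof h1 h2 (hk k) := by
    intro k
    show gof h1 h2 (hk 1) ^ k = _
    rw [← map_zpow, C2_hkpow]
  induction L with
  | nil =>
    intro l0
    simp only [C2_xp, ev, List.map_nil, List.prod_nil, mul_one]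
    rw [hpow]
  | cons x T ih =>
    intro l0
    obtain ⟨o, u, l⟩ := x
    have e1 : ev (gens h1 h2 F none) (fun o => gens h1 h2 F (some o)) l0 ((o, u, l) :: T) =
        gens h1 h2 F none ^ l0 * (gens h1 h2 F (some o) ^ (u : ℤ) *
          ev (gens h1 h2 F none) (fun o => gens h1 h2 F (some o)) l T) := by
      simp only [ev, List.map_cons, List.prod_cons, mul_assoc]
    rw [e1, ← ih l, C2_letter, hpow]
    simp only [C2_xp, List.map_append, List.prod_append, List.map_cons, List.prod_cons, map_mul,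
      mul_assoc]

theorem C2_chain_pre {R : ℤˣ × B0 → ℤˣ × B0 → Prop} (u : ℤˣ)
    (hR : ∀ g g' : B0, R (u, g) (u, g')) (g0 : B0) (l : List (ℤˣ × B0))
    (h : ((u, g0) :: l).IsChain R) (M : List B0) :
    (M.map (fun g => (u, g)) ++ (u, g0) :: l).IsChain R := by
  induction M with
  | nil => exact h
  | cons a M ih =>
    rw [List.map_cons, List.cons_append, List.isChain_cons]
    refine ⟨?_, ih⟩
    intro y hy
    cases M with
    | nil =>
      simp only [List.map_nil, List.nil_append, List.head?_cons, Option.mem_def,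
        Option.some.injEq] at hy
      rw [← hy]
      exact hR _ _
    | cons b M =>
      simp only [List.map_cons, List.cons_append, List.head?_cons, Option.mem_def,
        Option.some.injEq] at hy
      rw [← hy]
      exact hR _ _

/-- the sign of the first entry -/
theorem C2_head (F : Fam m p) (o : Option (Fin m)) (u : ℤˣ) (l l0 : ℤ) (T : CW m) :
    ∀ y ∈ (C2_xp F l0 ((o, u, l) :: T)).2.head?, y.1 = u := by
  intro y hy
  simp only [C2_xp] at hy
  generalize C2_mid F o u = M at hy
  cases M with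
  | nil =>
    simp only [List.map_nil, List.nil_append, List.head?_cons, Option.mem_def,
      Option.some.injEq] at hy
    rw [← hy]
  | cons b M =>
    simp only [List.map_cons, List.cons_append, List.head?_cons, Option.mem_def,
      Option.some.injEq] at hy
    rw [← hy]

theorem C2_a_ne (F : Fam m p) {o o' : Option (Fin m)} (h : o ≠ o') :
    ¬ (p : ℤ) ∣ C2_a F o' - C2_a F o := by
  cases o with
  | none =>
    cases o' with
    | none => exact absurd rfl h
    | some j =>
      simp only [C2_a, sub_zero]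
      exact F.hα j
  | some i =>
    cases o' with
    | none =>
      simp only [C2_a, zero_sub, dvd_neg]
      exact F.hα i
    | some j =>
      simp only [C2_a]
      exact F.hαα j i (fun e => h (by rw [e]))

theorem C2_b_ne (F : Fam m p) {o o' : Option (Fin m)} (h : o ≠ o') :
    ¬ (p : ℤ) ∣ C2_b F o - C2_b F o' := by
  cases o with
  | none =>
    cases o' with
    | none => exact absurd rfl h
    | some j =>
      simp only [C2_b, zero_sub, dvd_neg]
      exact F.hβ j
  | some i =>
    cases o' with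
    | none =>
      simp only [C2_b, sub_zero]
      exact F.hβ i
    | some j =>
      simp only [C2_b]
      exact F.hββ i j (fun e => h (by rw [e]))

/-- no cancellation at a change of sign -/
theorem C2_junction (F : Fam m p) (o o' : Option (Fin m)) (u : ℤˣ) (l : ℤ)
    (h : C2_sf F o u * (hk l * C2_pr F o' (-u)) ∈
      HNNExtension.toSubgroup (fA p).range (fB p).range u) : o = o' ∧ l = 0 := by
  rcases C2_unit u with rfl | rfl
  · rw [HNNExtension.toSubgroup_one] at h
    obtain ⟨w, hw⟩ := h
    have e1 : (fA p) w = (powHom 1 p w, 1) := rfl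
    unfold C2_sf C2_pr at hw
    rw [if_pos rfl, if_neg C2_ne, e1] at hw
    have e2 : powHom 1 p w = de ^ (C2_b F o - C2_b F o') := by
      have := congrArg Prod.fst hw
      simp only [Prod.fst_mul, one_mul] at this
      rw [this, ← zpow_add]
      congr 1
    have e3 : l = 0 := by
      have := congrArg Prod.snd hw
      simp only [Prod.snd_mul, one_mul, mul_one] at this
      exact (Multiplicative.ofAdd.injective this).symm
    refine ⟨?_, e3⟩
    by_contra hne
    exact C2_b_ne F hne (de_mem p _ ⟨w, e2⟩)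
  · rw [HNNExtension.toSubgroup_neg_one] at h
    obtain ⟨w, hw⟩ := h
    have e1 : (fB p) w = (powHom p 1 w, 1) := rfl
    unfold C2_sf C2_pr at hw
    rw [if_neg C2_ne, neg_neg, if_pos rfl, e1] at hw
    have e2 : powHom p 1 w = dd ^ (C2_a F o' - C2_a F o) := by
      have := congrArg Prod.fst hw
      simp only [Prod.fst_mul, one_mul] at this
      rw [this, ← zpow_add]
      congr 1
      ring
    have e3 : l = 0 := by
      have := congrArg Prod.snd hw
      simp only [Prod.snd_mul, one_mul, mul_one] at this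
      exact (Multiplicative.ofAdd.injective this).symm
    refine ⟨?_, e3⟩
    by_contra hne
    exact C2_a_ne F hne (dd_mem p _ ⟨w, e2⟩)

theorem C2_chain (F : Fam m p) (L : CW m) : CRed L → ∀ l0 : ℤ, (C2_xp F l0 L).2.IsChain
    (fun a b => a.2 ∈ HNNExtension.toSubgroup (fA p).range (fB p).range a.1 → a.1 = b.1) := by
  induction L with
  | nil =>
    intro _ l0
    exact List.isChain_nil
  | cons x T ih =>
    intro hL l0
    obtain ⟨o, u, l⟩ := x
    have hL' := hL
    unfold CRed at hL'
    rw [List.isChain_cons] at hL'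
    have hT := ih hL'.2 l
    simp only [C2_xp]
    refine C2_chain_pre u (fun g g' _ => rfl) _ _ ?_ _
    rw [List.isChain_cons]
    refine ⟨?_, hT⟩
    intro y hy hmem
    cases T with
    | nil =>
      simp [C2_xp] at hy
    | cons x' T' =>
      obtain ⟨o', u', l'⟩ := x'
      have hy1 := C2_head F o' u' l' l T' y hy
      have hred := hL'.1 (o', u', l') (by simp)
      rw [hy1]
      by_contra hne
      have hu : u' = -u := by
        rcases C2_unit u with rfl | rfl <;> rcases C2_unit u' with rfl | rfl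
        · exact absurd rfl hne
        · rfl
        · rfl
        · exact absurd rfl hne
      have hmem2 : C2_sf F o u * (hk l * C2_pr F o' (-u)) ∈
          HNNExtension.toSubgroup (fA p).range (fB p).range u := by
        rw [← hu]
        exact hmem
      obtain ⟨k1, k2⟩ := C2_junction F o o' u l hmem2
      exact hred ⟨k1, hu, k2⟩

theorem C2_sign (F : Fam m p) (L : CW m) : ∀ l0 : ℤ, (∀ x ∈ (C2_xp F l0 L).2, x.1 = 1) →
    ∀ x ∈ L, x.2.1 = 1 := by
  induction L with
  | nil =>
    intro l0 _ x hx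
    simp at hx
  | cons x T ih =>
    intro l0 h y hy
    obtain ⟨o, u, l⟩ := x
    simp only [C2_xp] at h
    rcases List.mem_cons.1 hy with e | e
    · rw [e]
      exact h (u, C2_sf F o u * (C2_xp F l T).1)
        (List.mem_append_right _ List.mem_cons_self)
    · exact ih l (fun z hz => h z (List.mem_append_right _ (List.mem_cons_of_mem _ hz))) y e

theorem reduced_of_cred (F : Fam m p) (l0 : ℤ) (L : CW m) (hL : CRed L) :
    ∃ w : HNNExtension.NormalWord.ReducedWord B0 (fA p).range (fB p).range,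
      w.prod (rangeEquiv (fA p) (fB p) h1 h2) = ev (gens h1 h2 F none)
        (fun o => gens h1 h2 F (some o)) l0 L ∧
      (w.toList = [] → L = []) ∧
      ((∀ x ∈ w.toList, x.1 = 1) → ∀ x ∈ L, x.2.1 = 1) := by
  refine ⟨⟨(C2_xp F l0 L).1, (C2_xp F l0 L).2, C2_chain F L hL l0⟩, C2_prod h1 h2 F L l0, ?_,
    C2_sign F L l0⟩
  intro h
  cases L with
  | nil => rfl
  | cons x T =>
    obtain ⟨o, u, l⟩ := x
    simp [C2_xp] at h

end

end Pool.Agent.H832.Few
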