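import Pool.Agent.H832.Few.Defs

set_option autoImplicit false

namespace Pool.Agent.H832.Few

section

variable {m p : ℕ} (h1 : Function.Injective (fA p)) (h2 : Function.Injective (fB p))

theorem C3_posw_cons {G : Type} [Group G] {A B : Subgroup G} (φ : A ≃* B) (g0 g : G) (l : List G) :
    posw φ g0 (g :: l) = HNNExtension.of g0 * HNNExtension.t * posw φ g l := by
  unfold posw
  rw [List.map_cons, List.prod_cons]
  group

theorem C3_posw_mul {G : Type} [Group G] {A B : Subgroup G} (φ : A ≃* B) (g g0 : G) (l : List G) :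
    posw φ (g * g0) l = HNNExtension.of g * posw φ g0 l := by
  unfold posw
  rw [map_mul, mul_assoc]

theorem C3_hk (k : ℤ) : (hk 1) ^ k = hk k := by
  unfold hk
  rw [Prod.pow_mk, one_zpow, ← ofAdd_zsmul, smul_eq_mul, mul_one]

theorem C3_h (k : ℤ) : (gof h1 h2 (hk 1)) ^ k = gof h1 h2 (hk k) := by
  rw [← map_zpow, C3_hk]

theorem C3_z (z : D) (k : ℤ) : (gof h1 h2 (z, 1)) ^ k = gof h1 h2 (z ^ k, 1) := by
  rw [← map_zpow, Prod.pow_mk, one_zpow]

theorem C3_pos (ks : List ℤ) : pos (ga h1 h2) (gof h1 h2 (hk 1)) ks =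
    ((ks.map hk).map fun g => HNNExtension.t * HNNExtension.of g).prod := by
  unfold pos
  rw [List.map_map]
  congr 1
  apply List.map_congr_left
  intro k _
  rw [C3_h]
  rfl

theorem C3_posw_append (g0 g : B0) (ks : List ℤ) (l : List B0) :
    posw (rangeEquiv (fA p) (fB p) h1 h2) g0 (ks.map hk ++ (g :: l)) =
      gof h1 h2 g0 * pos (ga h1 h2) (gof h1 h2 (hk 1)) ks * ga h1 h2 *
        posw (rangeEquiv (fA p) (fB p) h1 h2) g l := by
  rw [C3_pos]
  unfold posw
  rw [List.map_append, List.prod_append, List.map_cons, List.prod_cons]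
  group

theorem ev_expd (F : Fam m p) (l0 : ℤ) (L : List (Option (Fin m) × ℤ)) :
    ev (gens h1 h2 F none) (fun o => gens h1 h2 F (some o)) l0
      (L.map fun x => (x.1, (1 : ℤˣ), x.2)) =
      posw (rangeEquiv (fA p) (fB p) h1 h2) (expd F l0 L).1 (expd F l0 L).2 := by
  induction L generalizing l0 with
  | nil =>
    show (gof h1 h2 (hk 1)) ^ l0 * 1 = gof h1 h2 (hk l0) * 1
    rw [C3_h]
  | cons x L ih =>
    obtain ⟨o, l⟩ := x
    have key : ev (gens h1 h2 F none) (fun o => gens h1 h2 F (some o)) l0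
        (((o, l) :: L).map fun x => (x.1, (1 : ℤˣ), x.2)) =
        (gof h1 h2 (hk 1)) ^ l0 * gens h1 h2 F (some o) *
          ev (gens h1 h2 F none) (fun o => gens h1 h2 F (some o)) l
            (L.map fun x => (x.1, (1 : ℤˣ), x.2)) := by
      unfold ev
      rw [List.map_cons, List.map_cons, List.prod_cons]
      show (gof h1 h2 (hk 1)) ^ l0 * (gens h1 h2 F (some o) ^ ((1 : ℤˣ) : ℤ) *
        (gof h1 h2 (hk 1)) ^ l * _) = (gof h1 h2 (hk 1)) ^ l0 * gens h1 h2 F (some o) *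
        ((gof h1 h2 (hk 1)) ^ l * _)
      rw [Units.val_one, zpow_one, mul_assoc, mul_assoc]
    rw [key, ih, C3_h]
    cases o with
    | none =>
      show gof h1 h2 (hk l0) * ga h1 h2 * _ =
        posw (rangeEquiv (fA p) (fB p) h1 h2) (hk l0) ((expd F l L).1 :: (expd F l L).2)
      rw [C3_posw_cons]
    | some i =>
      show gof h1 h2 (hk l0) * ((gof h1 h2 (dd, 1)) ^ F.α i *
        pos (ga h1 h2) (gof h1 h2 (hk 1)) (F.f i) * ga h1 h2 * (gof h1 h2 (de, 1)) ^ F.β i) * _ =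
        posw (rangeEquiv (fA p) (fB p) h1 h2) (hk l0 * (dd ^ F.α i, 1))
          ((F.f i).map hk ++ (((de ^ F.β i, 1) * (expd F l L).1) :: (expd F l L).2))
      rw [C3_posw_append, C3_posw_mul, C3_z, C3_z, map_mul]
      group

theorem zexp_eq (z z' : D) (k0 : ℤ) (ks : List ℤ) :
    gof h1 h2 (z, 1) * (gof h1 h2 (hk 1)) ^ k0 * pos (ga h1 h2) (gof h1 h2 (hk 1)) ks *
      gof h1 h2 (z', 1) =
      posw (rangeEquiv (fA p) (fB p) h1 h2) ((z, 1) * (zexp z' k0 ks).1) (zexp z' k0 ks).2 := by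
  induction ks generalizing z k0 with
  | nil =>
    show gof h1 h2 (z, 1) * (gof h1 h2 (hk 1)) ^ k0 * 1 * gof h1 h2 (z', 1) =
      gof h1 h2 ((z, 1) * (hk k0 * (z', 1))) * 1
    rw [C3_h, map_mul, map_mul, mul_one, mul_one, mul_assoc]
  | cons k1 ks ih =>
    have h3 := ih 1 k1
    rw [Prod.mk_one_one, map_one, one_mul, one_mul] at h3
    show gof h1 h2 (z, 1) * (gof h1 h2 (hk 1)) ^ k0 * (ga h1 h2 * (gof h1 h2 (hk 1)) ^ k1 *
      pos (ga h1 h2) (gof h1 h2 (hk 1)) ks) * gof h1 h2 (z', 1) =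
      posw (rangeEquiv (fA p) (fB p) h1 h2) ((z, 1) * hk k0)
        ((zexp z' k1 ks).1 :: (zexp z' k1 ks).2)
    rw [C3_posw_cons, ← h3, C3_h h1 h2 k0, map_mul]
    simp only [mul_assoc]

end

end Pool.Agent.H832.Few
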