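import Pool.Agent.H832.Few.Defs
import Pool.Agent.H832.Few.A

set_option autoImplicit false

namespace Pool.Agent.H832.Few

section

variable {m p : ℕ} (h1 : Function.Injective (fA p)) (h2 : Function.Injective (fB p))

theorem C4_nil {G : Type} [Group G] {A B : Subgroup G} (φ : A ≃* B) (g0 : G) (l : List G)
    (g0' : G) (h : Conn φ g0 l g0' []) : l = [] ∧ g0' = g0 := by
  cases l with
  | nil => exact ⟨rfl, by simpa only [Conn] using h⟩
  | cons a l => exact absurd h (by simp only [Conn, not_false_eq_true])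

theorem C4_cons {G : Type} [Group G] {A B : Subgroup G} (φ : A ≃* B) (g0 : G) (l : List G)
    (g0' g1' : G) (l' : List G) (h : Conn φ g0 l g0' (g1' :: l')) :
    ∃ (g1 : G) (l1 : List G), l = g1 :: l1 ∧ ∃ s : A, g0' = g0 * φ s ∧
      Conn φ g1 l1 (s * g1') l' := by
  cases l with
  | nil => exact absurd h (by simp only [Conn, not_false_eq_true])
  | cons a l => exact ⟨a, l, rfl, by simpa only [Conn] using h⟩

theorem C4_s (s : (fA p).range) : ∃ w : D, (s : B0) = (powHom 1 p w, 1) ∧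
    (rangeEquiv (fA p) (fB p) h1 h2 s : B0) = (powHom p 1 w, 1) := by
  obtain ⟨s, w, rfl⟩ := s
  exact ⟨w, rfl, rangeEquiv_apply (fA p) (fB p) h1 h2 w⟩

/-- One step on the side of `zexp`. -/
theorem C4_z (z z' : D) (k : ℤ) (ks : List ℤ) (g0' g1' : B0) (l' : List B0)
    (h : Conn (rangeEquiv (fA p) (fB p) h1 h2) ((z, 1) * (zexp z' k ks).1) (zexp z' k ks).2
      g0' (g1' :: l')) :
    ∃ (k1 : ℤ) (ks1 : List ℤ) (w : D), ks = k1 :: ks1 ∧
      g0' = (z * powHom p 1 w, Multiplicative.ofAdd k) ∧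
      Conn (rangeEquiv (fA p) (fB p) h1 h2) ((1, 1) * (zexp z' k1 ks1).1) (zexp z' k1 ks1).2
        ((powHom 1 p w, 1) * g1') l' := by
  obtain ⟨g1, l1, hl, s, hs, hc⟩ := C4_cons _ _ _ _ _ _ h
  obtain ⟨w, hw1, hw2⟩ := C4_s h1 h2 s
  cases ks with
  | nil => exact absurd hl (by simp only [zexp, reduceCtorEq, not_false_eq_true])
  | cons k1 ks1 =>
    refine ⟨k1, ks1, w, rfl, ?_, ?_⟩
    · rw [hs, hw2]
      change ((z, 1) * hk k) * (powHom p 1 w, 1) = _
      ext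
      · simp
      · simp
    · have h3 : (zexp z' k1 ks1).1 :: (zexp z' k1 ks1).2 = g1 :: l1 := hl
      rw [List.cons.injEq] at h3
      rw [← h3.1, ← h3.2, hw1] at hc
      have h4 : ((1, 1) : B0) * (zexp z' k1 ks1).1 = (zexp z' k1 ks1).1 := one_mul _
      rw [h4]
      exact hc

/-- The end of the word. -/
theorem C4_e (x z z' : D) (k : ℤ) (ks : List ℤ) (l0 : ℤ)
    (h : Conn (rangeEquiv (fA p) (fB p) h1 h2) ((z, 1) * (zexp z' k ks).1) (zexp z' k ks).2
      ((x, 1) * hk l0) []) : l0 = k ∧ ks = [] := by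
  obtain ⟨h3, h4⟩ := C4_nil _ _ _ _ h
  cases ks with
  | nil =>
    refine ⟨?_, rfl⟩
    have h5 := congrArg Prod.snd h4
    simp only [zexp, Prod.snd_mul, one_mul, mul_one] at h5
    exact Multiplicative.ofAdd.injective h5
  | cons k1 ks1 => exact absurd h3 (by simp only [zexp, reduceCtorEq, not_false_eq_true])

theorem C4_fst (x : D) (l0 : ℤ) (y : D) (k : ℤ)
    (h : ((x, 1) : B0) * hk l0 = (y, Multiplicative.ofAdd k)) : x = y ∧ l0 = k := by
  have h5 := congrArg Prod.fst h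
  have h6 := congrArg Prod.snd h
  simp only [Prod.fst_mul, Prod.snd_mul, one_mul, mul_one] at h5 h6
  exact ⟨h5, Multiplicative.ofAdd.injective h6⟩

/-- The interior of `g_i`. -/
theorem C4_mid (z' : D) (Y : B0) (Ys : List B0) (fs : List ℤ) :
    ∀ (k : ℤ) (ks : List ℤ) (w : D) (g1' : B0) (l' : List B0), fs.map hk ++ Y :: Ys = g1' :: l' →
      Conn (rangeEquiv (fA p) (fB p) h1 h2) ((1, 1) * (zexp z' k ks).1) (zexp z' k ks).2
        ((powHom 1 p w, 1) * g1') l' →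
      ∃ (k' : ℤ) (ks' : List ℤ) (w' : D), k :: ks = fs ++ k' :: ks' ∧
        Conn (rangeEquiv (fA p) (fB p) h1 h2) ((1, 1) * (zexp z' k' ks').1) (zexp z' k' ks').2
        ((powHom 1 p w', 1) * Y) Ys := by
  induction fs with
  | nil =>
    intro k ks w g1' l' hl h
    rw [List.map_nil, List.nil_append, List.cons.injEq] at hl
    rw [← hl.1, ← hl.2] at h
    exact ⟨k, ks, w, rfl, h⟩
  | cons f fs ih =>
    intro k ks w g1' l' hl h
    rw [List.map_cons, List.cons_append, List.cons.injEq] at hl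
    obtain ⟨a, b, hab⟩ : ∃ a b, fs.map hk ++ Y :: Ys = a :: b := by
      cases fs with
      | nil => exact ⟨Y, Ys, rfl⟩
      | cons f' fs' => exact ⟨hk f', fs'.map hk ++ Y :: Ys, rfl⟩
    rw [← hl.2, ← hl.1, hab] at h
    obtain ⟨k1, ks1, w1, hks, hg, hc⟩ := C4_z h1 h2 _ _ _ _ _ _ _ h
    obtain ⟨k', ks', w', hk', hc'⟩ := ih k1 ks1 w1 a b hab hc
    refine ⟨k', ks', w', ?_, hc'⟩
    rw [hks, hk', (C4_fst _ _ _ _ hg).2]
    rfl

/-- After the first `g_i`. -/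
theorem C4_P2 (F : Fam m p) (z' : D) (I : D → Prop)
    (I2 : ∀ w : D, I (powHom p 1 w) → I (powHom 1 p w))
    (I3 : ∀ (g : D) (α : ℤ), I g → g * dd ^ α ∈ (powHom p 1).range → (p : ℤ) ∣ α)
    (L : List (Option (Fin m) × ℤ)) :
    ∀ (x : D) (k : ℤ) (ks : List ℤ) (l0 : ℤ), I x →
      Conn (rangeEquiv (fA p) (fB p) h1 h2) ((1, 1) * (zexp z' k ks).1) (zexp z' k ks).2
        ((x, 1) * (expd F l0 L).1) (expd F l0 L).2 →
      l0 = k ∧ L = ks.map fun k => (none, k) := by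
  induction L with
  | nil =>
    intro x k ks l0 hx h
    obtain ⟨h3, h4⟩ := C4_e h1 h2 _ _ _ _ _ _ h
    exact ⟨h3, by rw [h4]; rfl⟩
  | cons a L ih =>
    intro x k ks l0 hx h
    obtain ⟨o, l⟩ := a
    cases o with
    | none =>
      obtain ⟨k1, ks1, w, hks, hg, hc⟩ := C4_z h1 h2 _ _ _ _ _ _ _ h
      obtain ⟨h3, h4⟩ := C4_fst _ _ _ _ hg
      rw [one_mul] at h3
      rw [h3] at hx
      obtain ⟨h5, h6⟩ := ih _ _ _ _ (I2 w hx) hc
      refine ⟨h4, ?_⟩
      rw [hks, List.map_cons, h5, ← h6]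
    | some i =>
      exfalso
      obtain ⟨a, b, hab⟩ : ∃ a b, (F.f i).map hk ++
          (((de ^ F.β i, 1) * (expd F l L).1) :: (expd F l L).2) = a :: b := by
        cases F.f i with
        | nil => exact ⟨_, _, rfl⟩
        | cons f' fs' => exact ⟨_, _, rfl⟩
      change Conn _ _ _ ((x, 1) * (hk l0 * (dd ^ F.α i, 1))) ((F.f i).map hk ++
          (((de ^ F.β i, 1) * (expd F l L).1) :: (expd F l L).2)) at h
      rw [hab] at h
      obtain ⟨k1, ks1, w, hks, hg, hc⟩ := C4_z h1 h2 _ _ _ _ _ _ _ h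
      have h5 := congrArg Prod.fst hg
      simp only [Prod.fst_mul, one_mul] at h5
      exact F.hα i (I3 x (F.α i) hx ⟨w, h5.symm⟩)

/-- Before the first `g_i`. -/
theorem C4_P1 (F : Fam m p) (z' : D) (I : D → Prop)
    (I1 : ∀ (w : D) (β : ℤ), ¬ (p : ℤ) ∣ β → I (powHom 1 p w * de ^ β))
    (I2 : ∀ w : D, I (powHom p 1 w) → I (powHom 1 p w))
    (I3 : ∀ (g : D) (α : ℤ), I g → g * dd ^ α ∈ (powHom p 1).range → (p : ℤ) ∣ α)
    (L : List (Option (Fin m) × ℤ)) :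
    ∀ (x z : D) (k : ℤ) (ks : List ℤ) (l0 : ℤ),
      Conn (rangeEquiv (fA p) (fB p) h1 h2) ((z, 1) * (zexp z' k ks).1) (zexp z' k ks).2
        ((x, 1) * (expd F l0 L).1) (expd F l0 L).2 →
      l0 = k ∧ ((L = ks.map fun k => (none, k)) ∨ ∃ (L1 : List ℤ) (i : Fin m) (l : ℤ)
      (L2 : List ℤ),
      L = (L1.map fun k => (none, k)) ++ (some i, l) :: (L2.map fun k => (none, k)) ∧
      ks = L1 ++ F.f i ++ l :: L2) := by
  induction L with
  | nil =>
    intro x z k ks l0 h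
    obtain ⟨h3, h4⟩ := C4_e h1 h2 _ _ _ _ _ _ h
    exact ⟨h3, Or.inl (by rw [h4]; rfl)⟩
  | cons a L ih =>
    intro x z k ks l0 h
    obtain ⟨o, l⟩ := a
    cases o with
    | none =>
      obtain ⟨k1, ks1, w, hks, hg, hc⟩ := C4_z h1 h2 _ _ _ _ _ _ _ h
      obtain ⟨h3, h4⟩ := C4_fst _ _ _ _ hg
      obtain ⟨h5, h6⟩ := ih _ _ _ _ _ hc
      refine ⟨h4, ?_⟩
      rcases h6 with h6 | ⟨L1, i, l', L2, h6, h7⟩
      · left
        rw [hks, List.map_cons, h5, ← h6]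
      · right
        refine ⟨k1 :: L1, i, l', L2, ?_, ?_⟩
        · rw [h5, h6]
          rfl
        · rw [hks, h7]
          rfl
    | some i =>
      obtain ⟨a, b, hab⟩ : ∃ a b, (F.f i).map hk ++
          (((de ^ F.β i, 1) * (expd F l L).1) :: (expd F l L).2) = a :: b := by
        cases F.f i with
        | nil => exact ⟨_, _, rfl⟩
        | cons f' fs' => exact ⟨_, _, rfl⟩
      change Conn _ _ _ ((x, 1) * (hk l0 * (dd ^ F.α i, 1))) ((F.f i).map hk ++
          (((de ^ F.β i, 1) * (expd F l L).1) :: (expd F l L).2)) at h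
      rw [hab] at h
      obtain ⟨k1, ks1, w, hks, hg, hc⟩ := C4_z h1 h2 _ _ _ _ _ _ _ h
      have h5 := congrArg Prod.snd hg
      simp only [Prod.snd_mul, one_mul, mul_one] at h5
      obtain ⟨k', ks', w', hk', hc'⟩ := C4_mid h1 h2 z' _ _ (F.f i) k1 ks1 w a b hab hc
      have h6 : ((powHom 1 p w', 1) : B0) * ((de ^ F.β i, 1) * (expd F l L).1) =
          (powHom 1 p w' * de ^ F.β i, 1) * (expd F l L).1 := by
        have h7 : ((powHom 1 p w', 1) : B0) * (de ^ F.β i, 1) =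
            (powHom 1 p w' * de ^ F.β i, 1) := Prod.ext rfl (one_mul _)
        rw [← mul_assoc, h7]
      rw [h6] at hc'
      obtain ⟨h7, h8⟩ := C4_P2 h1 h2 F z' I I2 I3 L _ _ _ _ (I1 w' _ (F.hβ i)) hc'
      refine ⟨Multiplicative.ofAdd.injective h5, Or.inr ⟨[], i, l, ks', ?_, ?_⟩⟩
      · rw [h8]
        rfl
      · rw [hks, hk', h7]
        rfl

theorem comb (hp : 2 ≤ p) (F : Fam m p) (z z' : D) (k0 : ℤ) (ks : List ℤ) (l0 : ℤ)
    (L : List (Option (Fin m) × ℤ))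
    (h : Conn (rangeEquiv (fA p) (fB p) h1 h2) ((z, 1) * (zexp z' k0 ks).1) (zexp z' k0 ks).2
      (expd F l0 L).1 (expd F l0 L).2) :
    l0 = k0 ∧ ((L = ks.map fun k => (none, k)) ∨ ∃ (L1 : List ℤ) (i : Fin m) (l : ℤ) (L2 : List ℤ),
      L = (L1.map fun k => (none, k)) ++ (some i, l) :: (L2.map fun k => (none, k)) ∧
      ks = L1 ++ F.f i ++ l :: L2) := by
  obtain ⟨I, I1, I2, I3⟩ := exists_I p (by omega)
  have h3 : ((1, 1) : B0) * (expd F l0 L).1 = (expd F l0 L).1 := one_mul _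
  rw [← h3] at h
  exact C4_P1 h1 h2 F z' I I1 I2 I3 L 1 z k0 ks l0 h

end

end Pool.Agent.H832.Few
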