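import Pool.Agent.H832.Few.Defs
import Pool.Agent.H832.Few.A
import Pool.Agent.H832.Few.B
import Pool.Agent.H832.Few.C1
import Pool.Agent.H832.Few.C2
import Pool.Agent.H832.Few.C3
import Pool.Agent.H832.Few.C4

set_option autoImplicit false

namespace Pool.Agent.H832.Few

section

variable {m p : ℕ} (h1 : Function.Injective (fA p)) (h2 : Function.Injective (fB p))

/-- Homomorphisms and values of words. -/
theorem C5_map_ev {M N : Type} [Group M] [Group N] (φ : M →* N) (h : M)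
    (γ : Option (Fin m) → M) (l0 : ℤ) (L : CW m) :
    φ (ev h γ l0 L) = ev (φ h) (fun o => φ (γ o)) l0 L := by
  unfold ev
  rw [map_mul, map_zpow, map_list_prod, List.map_map]
  have e : (⇑φ ∘ fun x : Option (Fin m) × ℤˣ × ℤ => γ x.1 ^ (x.2.1 : ℤ) * h ^ x.2.2) =
      fun x : Option (Fin m) × ℤˣ × ℤ => φ (γ x.1) ^ (x.2.1 : ℤ) * φ h ^ x.2.2 := by
    funext x
    rw [Function.comp_apply, map_mul, map_zpow, map_zpow]
  rw [e]

/-- The value of `iota` on a word. -/
theorem C5_iota_ev (F : Fam m p) (l0 : ℤ) (L : CW m) :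
    iota h1 h2 F (ev (FreeGroup.of none) (fun o => FreeGroup.of (some o)) l0 L) =
      ev (gens h1 h2 F none) (fun o => gens h1 h2 F (some o)) l0 L := by
  rw [C5_map_ev]
  have e1 : ∀ o, iota h1 h2 F (FreeGroup.of o) = gens h1 h2 F o := by
    intro o
    unfold iota
    rw [FreeGroup.lift_apply_of]
  rw [e1]
  have e2 : (fun o => iota h1 h2 F (FreeGroup.of (some o))) =
      fun o => gens h1 h2 F (some o) := funext fun o => e1 (some o)
  rw [e2]

theorem C5_hk_zpow (l0 : ℤ) : (hk 1) ^ l0 = hk l0 := by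
  refine Prod.ext ?_ ?_
  · show (1 : D) ^ l0 = 1
    exact one_zpow l0
  · show (Multiplicative.ofAdd (1 : ℤ)) ^ l0 = Multiplicative.ofAdd l0
    rw [← ofAdd_zsmul, smul_eq_mul, mul_one]

theorem iota_injective (F : Fam m p) : Function.Injective (iota h1 h2 F) := by
  rw [injective_iff_map_eq_one]
  intro w hw
  obtain ⟨l0, L, hL, hwL⟩ := exists_cred w
  rw [hwL, C5_iota_ev] at hw
  obtain ⟨w', hw1, hw2, _⟩ := reduced_of_cred h1 h2 F l0 L hL
  rw [hw] at hw1
  have h3 : w'.toList = [] := by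
    refine HNNExtension.ReducedWord.toList_eq_nil_of_mem_of_range
      (rangeEquiv (fA p) (fB p) h1 h2) w' ?_
    rw [hw1]
    exact one_mem _
  have h4 := hw2 h3
  subst h4
  have h5 : ∀ {M : Type} [Group M] (h : M) (γ : Option (Fin m) → M),
      ev h γ l0 ([] : CW m) = h ^ l0 := by
    intro M _ h γ
    unfold ev
    rw [List.map_nil, List.prod_nil, mul_one]
  rw [h5] at hw hwL
  have h6 : gof h1 h2 (hk l0) = gof h1 h2 1 := by
    rw [map_one, ← C5_hk_zpow, map_zpow]
    exact hw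
  have h7 : hk l0 = 1 := HNNExtension.of_injective _ h6
  have h8 : Multiplicative.ofAdd l0 = 1 := congrArg Prod.snd h7
  have h9 : l0 = 0 := ofAdd_eq_one.mp h8
  rw [hwL, h9, zpow_zero]

theorem mem_range_iota (hp : 2 ≤ p) (F : Fam m p) (z z' : D) (k0 : ℤ) (ks : List ℤ)
    (w : FreeGroup (Option (Option (Fin m))))
    (h : gof h1 h2 (z, 1) * (gof h1 h2 (hk 1)) ^ k0 * pos (ga h1 h2) (gof h1 h2 (hk 1)) ks *
      gof h1 h2 (z', 1) = iota h1 h2 F w) :
    ∃ L : List (Option (Fin m) × ℤ),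
      w = ev (FreeGroup.of none) (fun o => FreeGroup.of (some o)) k0
        (L.map fun x => (x.1, (1 : ℤˣ), x.2)) ∧
      ((L = ks.map fun k => (none, k)) ∨ ∃ (L1 : List ℤ) (i : Fin m) (l : ℤ) (L2 : List ℤ),
      L = (L1.map fun k => (none, k)) ++ (some i, l) :: (L2.map fun k => (none, k)) ∧
      ks = L1 ++ F.f i ++ l :: L2) := by
  obtain ⟨l0, L0, hL0, hwL⟩ := exists_cred w
  obtain ⟨w', hw1, _, hw3⟩ := reduced_of_cred h1 h2 F l0 L0 hL0
  rw [hwL, C5_iota_ev, zexp_eq] at h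
  obtain ⟨w'', hh1, hh2⟩ : ∃ w'' : HNNExtension.NormalWord.ReducedWord B0 (fA p).range
      (fB p).range, w''.prod (rangeEquiv (fA p) (fB p) h1 h2) =
        posw (rangeEquiv (fA p) (fB p) h1 h2) ((z, 1) * (zexp z' k0 ks).1) (zexp z' k0 ks).2 ∧
        ∀ x ∈ w''.toList, x.1 = 1 := by
    refine ⟨⟨(z, 1) * (zexp z' k0 ks).1, (zexp z' k0 ks).2.map fun g => ((1 : ℤˣ), g), ?_⟩,
      ?_, ?_⟩
    · rw [List.isChain_map]
      generalize (zexp z' k0 ks).2 = l
      induction l with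
      | nil => exact List.isChain_nil
      | cons a l ih =>
        rw [List.isChain_cons]
        exact ⟨fun _ _ _ => rfl, ih⟩
    · unfold HNNExtension.NormalWord.ReducedWord.prod posw
      rw [List.map_map]
      have e : ((fun x : ℤˣ × B0 => (HNNExtension.t ^ (x.1 : ℤ) * HNNExtension.of x.2 :
          HNNExtension B0 (fA p).range (fB p).range (rangeEquiv (fA p) (fB p) h1 h2))) ∘
          fun g => ((1 : ℤˣ), g)) = fun g => HNNExtension.t * HNNExtension.of g := by
        funext g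
        show HNNExtension.t ^ (((1 : ℤˣ) : ℤ)) * HNNExtension.of g = _
        rw [Units.val_one, zpow_one]
      rw [e]
    · intro x hx
      obtain ⟨g, _, hg⟩ := List.mem_map.mp hx
      rw [← hg]
  have h3 := (HNNExtension.ReducedWord.map_fst_eq_and_of_prod_eq
    (rangeEquiv (fA p) (fB p) h1 h2) (hh1.trans (h.trans hw1.symm))).1
  have h4 : ∀ x ∈ w'.toList, x.1 = 1 := by
    intro x hx
    have h5 : x.1 ∈ w'.toList.map Prod.fst := List.mem_map.mpr ⟨x, hx, rfl⟩
    rw [← h3] at h5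
    obtain ⟨y, hy, hyx⟩ := List.mem_map.mp h5
    rw [← hyx]
    exact hh2 y hy
  have h5 := hw3 h4
  have h6 : L0 = (L0.map fun x => (x.1, x.2.2)).map fun x => (x.1, (1 : ℤˣ), x.2) := by
    rw [List.map_map]
    refine Eq.trans (List.map_id L0).symm (List.map_congr_left fun x hx => ?_)
    show x = (x.1, (1 : ℤˣ), x.2.2)
    rw [← h5 x hx]
  generalize (L0.map fun x => (x.1, x.2.2)) = L at h6
  subst h6
  rw [ev_expd] at h
  have h7 := comb h1 h2 hp F z z' k0 ks l0 L (conn_of_eq _ _ _ _ _ h)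
  obtain ⟨h8, h9⟩ := h7
  subst h8
  exact ⟨L, hwL, h9⟩

end

end Pool.Agent.H832.Few
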