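import Pool.Agent.H832.Few.Defs
import Pool.Agent.H832.Few.B
import Pool.Agent.H832.Few.C5

set_option autoImplicit false

namespace Pool.Agent.H832.Few

/-!
Reusable lemmas (also for D2): `D1_nf` (normal form in the free group on `c, d, e`), `D1_mem`
(`D` meets the range of `iota` trivially), `D1_comm` (`h` commutes with `c, d, e`), `D1_word` and
`D1_word_prod` (the reduced word of `cdeHom w * gh ^ k`), `D1_base` (elements of `⟨c, d, e, h⟩` in
the base group), `D1_cnt` (the number of letters `a`).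
-/

/-! ### Normal forms in the free group on `c, d, e` -/

/-- The inclusion of the free group on `d, e` into the free group on `c, d, e`. -/
def D1_emb : D →* FreeGroup (Option (Fin 2)) := FreeGroup.map some

/-- The value `z0 * c ^ s_1 * z_1 * ... * c ^ s_n * z_n`. -/
def D1_val (z0 : D) (l : List (ℤˣ × D)) : FreeGroup (Option (Fin 2)) :=
  D1_emb z0 * (l.map fun x => FreeGroup.of none ^ (x.1 : ℤ) * D1_emb x.2).prod

/-- No cancellations. -/
def D1_Red (l : List (ℤˣ × D)) : Prop := l.IsChain fun a b => a.2 = 1 → a.1 = b.1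

theorem D1_emb_mul (z z0 : D) (l : List (ℤˣ × D)) :
    D1_emb z * D1_val z0 l = D1_val (z * z0) l := by
  rw [D1_val, D1_val, map_mul, mul_assoc]

theorem D1_pow_mul (s : ℤˣ) (z0 : D) (l : List (ℤˣ × D)) (hl : D1_Red l) :
    ∃ (z1 : D) (l1 : List (ℤˣ × D)), D1_Red l1 ∧
      FreeGroup.of none ^ (s : ℤ) * D1_val z0 l = D1_val z1 l1 := by
  by_cases hc : ∃ (z : D) (l' : List (ℤˣ × D)), l = (-s, z) :: l' ∧ z0 = 1
  · obtain ⟨z, l', rfl, rfl⟩ := hc
    refine ⟨z, l', ?_, ?_⟩
    · cases l' with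
      | nil => exact List.isChain_nil
      | cons b l'' => exact (List.isChain_cons_cons.1 hl).2
    · simp only [D1_val, map_one, one_mul, List.map_cons, List.prod_cons, Units.val_neg, zpow_neg,
        mul_assoc, mul_inv_cancel_left]
  · refine ⟨1, (s, z0) :: l, ?_, ?_⟩
    · cases l with
      | nil => exact List.isChain_singleton _
      | cons b l' =>
        refine List.isChain_cons_cons.2 ⟨?_, hl⟩
        intro hz
        by_contra hne
        apply hc
        refine ⟨b.2, l', ?_, hz⟩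
        have hb : b.1 = -s := by
          rcases Int.units_eq_one_or b.1 with h | h <;> rcases Int.units_eq_one_or s with h' | h'
          · exact absurd (h'.trans h.symm) hne
          · rw [h, h', neg_neg]
          · rw [h, h']
          · exact absurd (h'.trans h.symm) hne
        rw [← hb]
    · simp only [D1_val, map_one, one_mul, List.map_cons, List.prod_cons, mul_assoc]

/-- **Normal form**: every `w` is `z_0 c^{s_1} z_1 ⋯ c^{s_n} z_n` with `z_i` in the free group on
`d, e` and with `z_i ≠ 1` if `s_i ≠ s_{i+1}`. -/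
theorem D1_nf (w : FreeGroup (Option (Fin 2))) :
    ∃ (z0 : D) (l : List (ℤˣ × D)), D1_Red l ∧ w = D1_val z0 l := by
  have key : ∀ w : FreeGroup (Option (Fin 2)), ∀ (z0 : D) (l : List (ℤˣ × D)), D1_Red l →
      ∃ (z1 : D) (l1 : List (ℤˣ × D)), D1_Red l1 ∧ w * D1_val z0 l = D1_val z1 l1 := by
    intro w
    induction w using FreeGroup.induction_on with
    | C1 => exact fun z0 l hl => ⟨z0, l, hl, one_mul _⟩
    | of i =>
      intro z0 l hl
      cases i with
      | none =>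
        obtain ⟨z1, l1, h1, h2⟩ := D1_pow_mul 1 z0 l hl
        exact ⟨z1, l1, h1, by rw [← h2, Units.val_one, zpow_one]⟩
      | some i =>
        refine ⟨FreeGroup.of i * z0, l, hl, ?_⟩
        rw [← D1_emb_mul]
        rfl
    | inv_of i _ =>
      intro z0 l hl
      cases i with
      | none =>
        obtain ⟨z1, l1, h1, h2⟩ := D1_pow_mul (-1) z0 l hl
        exact ⟨z1, l1, h1, by rw [← h2, Units.val_neg, Units.val_one, zpow_neg, zpow_one]⟩
      | some i =>
        refine ⟨(FreeGroup.of i)⁻¹ * z0, l, hl, ?_⟩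
        rw [← D1_emb_mul, map_inv]
        rfl
    | mul x y hx hy =>
      intro z0 l hl
      obtain ⟨z1, l1, h1, e1⟩ := hy z0 l hl
      obtain ⟨z2, l2, h2, e2⟩ := hx z1 l1 h1
      exact ⟨z2, l2, h2, by rw [mul_assoc, e1, e2]⟩
  obtain ⟨z1, l1, h1, e1⟩ := key w 1 [] List.isChain_nil
  refine ⟨z1, l1, h1, ?_⟩
  rw [← e1, D1_val, map_one, List.map_nil, List.prod_nil, mul_one, mul_one]

section

variable {m p : ℕ} (h1 : Function.Injective (fA p)) (h2 : Function.Injective (fB p))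

/-- The free group on `d, e` meets the group of `h, a, g_i` trivially. -/
theorem D1_mem (hp : 2 ≤ p) (F : Fam m p) (z : D)
    (h : gof h1 h2 (z, 1) ∈ (iota h1 h2 F).range) : z = 1 := by
  obtain ⟨w, hw⟩ := h
  obtain ⟨L, hL, hL'⟩ := mem_range_iota h1 h2 hp F z 1 0 [] w (by
    rw [hw]
    have e : ((1 : D), (1 : Multiplicative ℤ)) = 1 := rfl
    rw [e, map_one, zpow_zero, pos, List.map_nil, List.prod_nil, mul_one, mul_one, mul_one])
  rcases hL' with rfl | ⟨L1, i, l, L2, -, h4⟩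
  · rw [List.map_nil, List.map_nil, ev, zpow_zero, List.map_nil, List.prod_nil, mul_one] at hL
    rw [hL, map_one] at hw
    have h3 : ((z, 1) : B0) = 1 := by
      refine HNNExtension.of_injective (φ := rangeEquiv (fA p) (fB p) h1 h2) ?_
      rw [map_one]
      exact hw.symm
    exact congrArg Prod.fst h3
  · simp at h4

variable (F F' : Fam m p) (h3 : Function.Injective (iota h1 h2 F'))
  (h4 : Function.Injective (iota h1 h2 F))

/-- The reduced word of `h ^ k * z_0 c^{s_1} z_1 ⋯ c^{s_n} z_n` in the second HNN extension. -/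
noncomputable def D1_word (hp : 2 ≤ p) (z0 : D) (k : ℤ) (l : List (ℤˣ × D)) (hl : D1_Red l) :
    HNNExtension.NormalWord.ReducedWord (G1 h1 h2) (iota h1 h2 F').range (iota h1 h2 F).range where
  head := gof h1 h2 (z0, Multiplicative.ofAdd k)
  toList := l.map fun x => (x.1, gof h1 h2 (x.2, 1))
  chain := by
    rw [List.isChain_map]
    refine List.IsChain.imp ?_ hl
    rintro ⟨s, z⟩ ⟨s', z'⟩ hab hz
    apply hab
    change gof h1 h2 (z, 1) ∈ HNNExtension.toSubgroup _ _ s at hz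
    rcases Int.units_eq_one_or s with h | h
    · rw [h] at hz
      exact D1_mem h1 h2 hp F' z hz
    · rw [h] at hz
      exact D1_mem h1 h2 hp F z hz

theorem D1_cde_emb (z : D) : cdeHom h1 h2 F F' h3 h4 (D1_emb z) =
    g2of h1 h2 F F' h3 h4 (gof h1 h2 (z, 1)) := by
  have e : (cdeHom h1 h2 F F' h3 h4).comp D1_emb =
      ((g2of h1 h2 F F' h3 h4).comp (gof h1 h2)).comp (MonoidHom.inl D (Multiplicative ℤ)) := by
    ext i
    rfl
  exact DFunLike.congr_fun e z

theorem D1_cde_none : cdeHom h1 h2 F F' h3 h4 (FreeGroup.of none) = gc h1 h2 F F' h3 h4 := by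
  rw [cdeHom, FreeGroup.lift_apply_of]
  rfl

/-- `h` commutes with `c`, `d`, `e`. -/
theorem D1_comm (w : FreeGroup (Option (Fin 2))) :
    Commute (gh h1 h2 F F' h3 h4) (cdeHom h1 h2 F F' h3 h4 w) := by
  have hc : Commute (gh h1 h2 F F' h3 h4) (gc h1 h2 F F' h3 h4) := by
    have := HNNExtension.t_mul_of (φ := rangeEquiv (iota h1 h2 F') (iota h1 h2 F) h3 h4)
      ⟨iota h1 h2 F' (FreeGroup.of none), _, rfl⟩
    rw [rangeEquiv_apply] at this
    have e1 : iota h1 h2 F' (FreeGroup.of none) = gof h1 h2 (hk 1) := by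
      rw [iota, FreeGroup.lift_apply_of]; rfl
    have e2 : iota h1 h2 F (FreeGroup.of none) = gof h1 h2 (hk 1) := by
      rw [iota, FreeGroup.lift_apply_of]; rfl
    rw [e2] at this
    change gh h1 h2 F F' h3 h4 * gc h1 h2 F F' h3 h4 = gc h1 h2 F F' h3 h4 * gh h1 h2 F F' h3 h4
    rw [gh, gc, ← this]
    change _ * g2of h1 h2 F F' h3 h4 _ = _
    simp only [e1]
  have hd : ∀ i : Option (Fin 2), Commute (gh h1 h2 F F' h3 h4)
      (cdeHom h1 h2 F F' h3 h4 (FreeGroup.of i)) := by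
    intro i
    cases i with
    | none => rw [D1_cde_none]; exact hc
    | some i =>
      rw [cdeHom, FreeGroup.lift_apply_of]
      change Commute (g2of h1 h2 F F' h3 h4 (gof h1 h2 (hk 1)))
        (g2of h1 h2 F F' h3 h4 (gof h1 h2 (FreeGroup.of i, 1)))
      refine Commute.map (Commute.map ?_ _) _
      change ((1 : D), Multiplicative.ofAdd (1 : ℤ)) * (FreeGroup.of i, 1) =
        (FreeGroup.of i, 1) * ((1 : D), Multiplicative.ofAdd (1 : ℤ))
      rw [Prod.mk_mul_mk, Prod.mk_mul_mk, one_mul, mul_one, one_mul, mul_one]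
  induction w using FreeGroup.induction_on with
  | C1 => rw [map_one]; exact Commute.one_right _
  | of i => exact hd i
  | inv_of i _ => rw [map_inv]; exact (hd i).inv_right
  | mul x y hx hy => rw [map_mul]; exact hx.mul_right hy

theorem D1_word_prod (hp : 2 ≤ p) (z0 : D) (k : ℤ) (l : List (ℤˣ × D)) (hl : D1_Red l) :
    (D1_word h1 h2 F F' hp z0 k l hl).prod (rangeEquiv (iota h1 h2 F') (iota h1 h2 F) h3 h4) =
      cdeHom h1 h2 F F' h3 h4 (D1_val z0 l) * gh h1 h2 F F' h3 h4 ^ k := by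
  have e1 : gof h1 h2 (z0, Multiplicative.ofAdd k) = gof h1 h2 (hk 1) ^ k * gof h1 h2 (z0, 1) := by
    rw [← map_zpow, ← map_mul]
    congr 1
    ext
    · simp
    · simp [← ofAdd_zsmul]
  rw [← ((D1_comm h1 h2 F F' h3 h4 (D1_val z0 l)).zpow_left k).eq]
  rw [D1_val, map_mul, D1_cde_emb, map_list_prod, List.map_map, ← mul_assoc]
  change g2of h1 h2 F F' h3 h4 (gof h1 h2 (z0, Multiplicative.ofAdd k)) *
    (List.map _ (List.map _ l)).prod = _
  rw [e1, map_mul, map_zpow, List.map_map]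
  congr 2
  apply List.map_congr_left
  rintro ⟨s, z⟩ -
  change gc h1 h2 F F' h3 h4 ^ (s : ℤ) * g2of h1 h2 F F' h3 h4 (gof h1 h2 (z, 1)) =
    cdeHom h1 h2 F F' h3 h4 (FreeGroup.of none ^ (s : ℤ) * D1_emb z)
  rw [map_mul, map_zpow, D1_cde_emb, D1_cde_none]

/-- An element of `⟨c, d, e, h⟩` which lies in the base group lies in `⟨d, e, h⟩`. -/
theorem D1_base (hp : 2 ≤ p) (w : FreeGroup (Option (Fin 2))) (k : ℤ) (g : G1 h1 h2)
    (h : cdeHom h1 h2 F F' h3 h4 w * gh h1 h2 F F' h3 h4 ^ k = g2of h1 h2 F F' h3 h4 g) :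
    ∃ z0 : D, w = D1_emb z0 ∧ g = gof h1 h2 (z0, Multiplicative.ofAdd k) := by
  obtain ⟨z0, l, hl, rfl⟩ := D1_nf w
  rw [← D1_word_prod h1 h2 F F' h3 h4 hp z0 k l hl] at h
  have hnil := HNNExtension.ReducedWord.toList_eq_nil_of_mem_of_range _ _ ⟨g, h.symm⟩
  have hl0 : l = [] := List.map_eq_nil_iff.1 hnil
  subst hl0
  refine ⟨z0, ?_, ?_⟩
  · rw [D1_val, List.map_nil, List.prod_nil, mul_one]
  · apply HNNExtension.of_injective (φ := rangeEquiv (iota h1 h2 F') (iota h1 h2 F) h3 h4)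
    rw [← h]
    change g2of h1 h2 F F' h3 h4 (gof h1 h2 (z0, Multiplicative.ofAdd k)) * _ = _
    exact mul_one _

theorem cdeHom_injective (hp : 2 ≤ p) (w : FreeGroup (Option (Fin 2))) (k : ℤ)
    (h : cdeHom h1 h2 F F' h3 h4 w * gh h1 h2 F F' h3 h4 ^ k = 1) : w = 1 ∧ k = 0 := by
  obtain ⟨z0, hw, hg⟩ := D1_base h1 h2 F F' h3 h4 hp w k 1 (by rw [h, map_one])
  have h5 : ((z0, Multiplicative.ofAdd k) : B0) = 1 := by
    apply HNNExtension.of_injective (φ := rangeEquiv (fA p) (fB p) h1 h2)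
    rw [map_one]
    exact hg.symm
  have h6 : z0 = 1 := congrArg Prod.fst h5
  have h7 : Multiplicative.ofAdd k = 1 := congrArg Prod.snd h5
  refine ⟨by rw [hw, h6, map_one], ?_⟩
  exact ofAdd_eq_one.1 h7

/-- The homomorphism which counts the letters `a`. -/
noncomputable def D1_cnt : G1 h1 h2 →* Multiplicative ℤ :=
  HNNExtension.lift 1 (Multiplicative.ofAdd 1) (fun a => by simp)

theorem D1_cnt_pos (ks : List ℤ) :
    D1_cnt h1 h2 (pos (ga h1 h2) (gof h1 h2 (hk 1)) ks) = Multiplicative.ofAdd (ks.length : ℤ) := by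
  induction ks with
  | nil =>
    rw [pos, List.map_nil, List.prod_nil, map_one]
    rfl
  | cons k ks ih =>
    have e : pos (ga h1 h2) (gof h1 h2 (hk 1)) (k :: ks) =
        ga h1 h2 * gof h1 h2 (hk 1) ^ k * pos (ga h1 h2) (gof h1 h2 (hk 1)) ks := rfl
    rw [e, map_mul, ih, map_mul, map_zpow]
    have e1 : D1_cnt h1 h2 (ga h1 h2) = Multiplicative.ofAdd 1 := HNNExtension.lift_t _ _ _
    have e2 : D1_cnt h1 h2 (gof h1 h2 (hk 1)) = 1 := HNNExtension.lift_of _ _ _ _
    rw [e1, e2, one_zpow, mul_one, ← ofAdd_add]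
    congr 1
    rw [List.length_cons, Nat.cast_add, Nat.cast_one, add_comm]

theorem pw_not_mem (hp : 2 ≤ p) (k0 : ℤ) (ks : List ℤ) (hks : ks ≠ [])
    (w : FreeGroup (Option (Fin 2))) (k : ℤ)
    (h : pw h1 h2 F F' h3 h4 k0 ks = cdeHom h1 h2 F F' h3 h4 w * gh h1 h2 F F' h3 h4 ^ k) :
    False := by
  obtain ⟨z0, -, hg⟩ := D1_base h1 h2 F F' h3 h4 hp w k _ h.symm
  have h5 := congrArg (D1_cnt h1 h2) hg
  have e2 : ∀ b, D1_cnt h1 h2 (gof h1 h2 b) = 1 := fun b => HNNExtension.lift_of _ _ _ _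
  rw [map_mul, map_zpow, e2, e2, one_zpow, one_mul, D1_cnt_pos] at h5
  have h6 : (ks.length : ℤ) = 0 := ofAdd_eq_one.1 h5
  exact hks (List.length_eq_zero_iff.1 (by exact_mod_cast h6))

end

end Pool.Agent.H832.Few
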