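import Pool.Agent.H832.Few.Defs
import Pool.Agent.H832.Few.B
import Pool.Agent.H832.Few.C5
import Pool.Agent.H832.Few.D1

set_option autoImplicit false

namespace Pool.Agent.H832.Few

section abs

open HNNExtension

variable {G D' : Type} [Group G] [Group D'] {A B : Subgroup G} (φ : A ≃* B) (δ : D' →* G)

def D2_X (z : D') (l : List (ℤˣ × D')) : HNNExtension G A B φ :=
  HNNExtension.of (δ z) *
    (l.map fun x => HNNExtension.t ^ (x.1 : ℤ) * HNNExtension.of (δ x.2)).prod

def D2_Ch (l : List (ℤˣ × D')) : Prop := l.IsChain fun a b => a.2 = 1 → a.1 = b.1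

theorem D2_X_left (u z : D') (l : List (ℤˣ × D')) :
    HNNExtension.of (δ u) * D2_X φ δ z l = D2_X φ δ (u * z) l := by
  simp only [D2_X, map_mul, mul_assoc]

theorem D2_X_cons (z : D') (x : ℤˣ × D') (l : List (ℤˣ × D')) :
    D2_X φ δ z (x :: l) =
      HNNExtension.of (δ z) * HNNExtension.t ^ (x.1 : ℤ) * D2_X φ δ x.2 l := by
  simp only [D2_X, List.map_cons, List.prod_cons, mul_assoc]

theorem D2_X_concat (z : D') (x : ℤˣ × D') (l : List (ℤˣ × D')) :
    D2_X φ δ z (l ++ [x]) =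
      D2_X φ δ z l * HNNExtension.t ^ (x.1 : ℤ) * HNNExtension.of (δ x.2) := by
  simp [D2_X, mul_assoc]

theorem D2_step (ε : ℤˣ) (z : D') (l : List (ℤˣ × D')) (hl : D2_Ch l) :
    ∃ z' l', D2_Ch l' ∧ HNNExtension.t ^ (ε : ℤ) * D2_X φ δ z l = D2_X φ δ z' l' := by
  by_cases h : ∃ z1 l1, z = 1 ∧ l = (-ε, z1) :: l1
  · obtain ⟨z1, l1, rfl, rfl⟩ := h
    refine ⟨z1, l1, ?_, ?_⟩
    · exact hl.tail
    · rw [D2_X_cons]
      simp only [map_one, one_mul, Units.val_neg, zpow_neg, mul_inv_cancel_left]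
  · refine ⟨1, (ε, z) :: l, ?_, ?_⟩
    · unfold D2_Ch
      rw [List.isChain_cons]
      refine ⟨?_, hl⟩
      intro y hy hz
      simp only at hz
      by_contra hne
      apply h
      cases l with
      | nil => simp at hy
      | cons b l1 =>
        simp only [List.head?_cons, Option.mem_def, Option.some.injEq] at hy
        subst hy
        refine ⟨b.2, l1, hz, ?_⟩
        have : b.1 = -ε := by
          simp only at hne
          rcases Int.units_eq_one_or b.1 with h1 | h1 <;> rcases Int.units_eq_one_or ε with h2 | h2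
          · exact absurd (h2.trans h1.symm) hne
          · rw [h1, h2]; decide
          · rw [h1, h2]
          · exact absurd (h2.trans h1.symm) hne
        rw [← this]
    · rw [D2_X_cons]
      simp only [map_one, one_mul]

theorem D2_nf {ι : Type} (f : FreeGroup (Option ι) →* HNNExtension G A B φ)
    (hf0 : f (FreeGroup.of none) = HNNExtension.t)
    (hf1 : ∀ i, ∃ u, f (FreeGroup.of (some i)) = HNNExtension.of (δ u)) (w : FreeGroup (Option ι)) :
    ∀ z l, D2_Ch l → ∃ z' l', D2_Ch l' ∧ f w * D2_X φ δ z l = D2_X φ δ z' l' := by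
  induction w using FreeGroup.induction_on with
  | C1 =>
    intro z l hl
    exact ⟨z, l, hl, by rw [map_one, one_mul]⟩
  | of o =>
    intro z l hl
    cases o with
    | none =>
      obtain ⟨z', l', h1, h2⟩ := D2_step φ δ 1 z l hl
      refine ⟨z', l', h1, ?_⟩
      rw [← h2]
      rw [hf0]
      simp
    | some i =>
      obtain ⟨u, hu⟩ := hf1 i
      refine ⟨u * z, l, hl, ?_⟩
      rw [hu, D2_X_left]
  | inv_of o _ =>
    intro z l hl
    cases o with
    | none =>
      obtain ⟨z', l', h1, h2⟩ := D2_step φ δ (-1) z l hl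
      refine ⟨z', l', h1, ?_⟩
      rw [← h2]
      rw [map_inv, hf0]
      simp
    | some i =>
      obtain ⟨u, hu⟩ := hf1 i
      refine ⟨u⁻¹ * z, l, hl, ?_⟩
      rw [map_inv, hu, ← map_inv, ← map_inv, D2_X_left]
  | mul x y hx hy =>
    intro z l hl
    obtain ⟨z1, l1, h1, h2⟩ := hy z l hl
    obtain ⟨z2, l2, h3, h4⟩ := hx z1 l1 h1
    exact ⟨z2, l2, h3, by rw [map_mul, mul_assoc, h2, h4]⟩

theorem D2_nf1 {ι : Type} (f : FreeGroup (Option ι) →* HNNExtension G A B φ)
    (hf0 : f (FreeGroup.of none) = HNNExtension.t)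
    (hf1 : ∀ i, ∃ u, f (FreeGroup.of (some i)) = HNNExtension.of (δ u)) (w : FreeGroup (Option ι)) :
    ∃ z l, D2_Ch l ∧ f w = D2_X φ δ z l := by
  obtain ⟨z, l, h1, h2⟩ := D2_nf φ δ f hf0 hf1 w 1 [] List.isChain_nil
  refine ⟨z, l, h1, ?_⟩
  rw [← h2]
  simp [D2_X]

/-- multiplication by an element of `D'` on the right -/
theorem D2_X_right (z : D') (l : List (ℤˣ × D')) (hl : D2_Ch l) (u : D') :
    ∃ z' l', D2_Ch l' ∧ l'.length = l.length ∧
      D2_X φ δ z l * HNNExtension.of (δ u) = D2_X φ δ z' l' := by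
  rcases List.eq_nil_or_concat l with rfl | ⟨L, b, rfl⟩
  · exact ⟨z * u, [], hl, rfl, by simp [D2_X]⟩
  · rw [List.concat_eq_append] at hl ⊢
    refine ⟨z, L ++ [(b.1, b.2 * u)], ?_, by simp, ?_⟩
    · unfold D2_Ch at hl ⊢
      rw [List.isChain_append] at hl ⊢
      refine ⟨hl.1, List.isChain_singleton _, ?_⟩
      intro x hx y hy
      simp only [List.head?_cons, Option.mem_def, Option.some.injEq] at hy
      subst hy
      exact hl.2.2 x hx b (by simp)
    · rw [D2_X_concat, D2_X_concat]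
      simp only [map_mul, mul_assoc]

/-- the inclusion of the letters -/
def D2_inc (x : ℤˣ × D') : ℤˣ × G := (x.1, δ x.2)

theorem D2_ch_inc (hA : ∀ z, δ z ∈ A → z = 1) (hB : ∀ z, δ z ∈ B → z = 1)
    (l : List (ℤˣ × D')) (hl : D2_Ch l) :
    (l.map (D2_inc δ)).IsChain (fun a b => a.2 ∈ toSubgroup A B a.1 → a.1 = b.1) := by
  rw [List.isChain_map]
  refine List.IsChain.imp ?_ hl
  intro a b hab hm
  apply hab
  simp only [D2_inc] at hm
  rcases Int.units_eq_one_or a.1 with h | h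
  · rw [h] at hm
    exact hA _ hm
  · rw [h] at hm
    exact hB _ hm

theorem D2_britton (g0 : G) (T : List (ℤˣ × G))
    (hT : T.IsChain (fun a b => a.2 ∈ toSubgroup A B a.1 → a.1 = b.1)) (g : G)
    (h : HNNExtension.of g0 * (T.map fun x => HNNExtension.t ^ (x.1 : ℤ) * HNNExtension.of x.2).prod
      = (HNNExtension.of g : HNNExtension G A B φ)) : T = [] := by
  have := HNNExtension.ReducedWord.toList_eq_nil_of_mem_of_range φ
    (⟨g0, T, hT⟩ : HNNExtension.NormalWord.ReducedWord G A B) ⟨g, h.symm⟩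
  exact this

theorem D2_map_inc (l : List (ℤˣ × D')) :
    ((l.map (D2_inc δ)).map fun x => (HNNExtension.t : HNNExtension G A B φ) ^ (x.1 : ℤ) * HNNExtension.of x.2) =
      l.map fun x => HNNExtension.t ^ (x.1 : ℤ) * HNNExtension.of (δ x.2) := by
  rw [List.map_map]
  rfl

theorem D2_main {M : Type} (μ : M → G) (R : M → M → Prop) (hrefl : ∀ m, R m m)
    (htrans : ∀ a b c, R a b → R b c → R a c)
    (hA : ∀ z, δ z ∈ A → z = 1) (hB : ∀ z, δ z ∈ B → z = 1)
    (pA : ∀ z z' m (a : A), δ z * μ m * δ z' = a →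
      ∃ m' u v, R m m' ∧ (φ a : G) = δ u * μ m' * δ v)
    (pB : ∀ z z' m (b : B), δ z * μ m * δ z' = b →
      ∃ m' u v, R m m' ∧ (φ.symm b : G) = δ u * μ m' * δ v) (g : G) :
    ∀ (n : ℕ) (zx : D') (lx : List (ℤˣ × D')) (zy : D') (ly : List (ℤˣ × D')) (m : M),
      lx.length = n → D2_Ch lx → D2_Ch ly →
      D2_X φ δ zx lx * HNNExtension.of (μ m) * D2_X φ δ zy ly = HNNExtension.of g →
      ∃ m' u v, R m m' ∧ g = δ u * μ m' * δ v := by
  intro n
  induction n with
  | zero =>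
    intro zx lx zy ly m hn hx hy h
    obtain rfl := List.length_eq_zero_iff.1 hn
    have hT := D2_britton φ (δ zx * μ m * δ zy) (ly.map (D2_inc δ)) (D2_ch_inc δ hA hB ly hy) g (by
      rw [D2_map_inc, ← h]
      simp only [D2_X, List.map_nil, List.prod_nil, mul_one, map_mul, mul_assoc])
    have : ly = [] := by simpa using hT
    subst this
    refine ⟨m, zx, zy, hrefl m, ?_⟩
    apply HNNExtension.of_injective φ
    rw [← h]
    simp only [D2_X, List.map_nil, List.prod_nil, mul_one, map_mul]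
  | succ n ih =>
    intro zx lx zy ly m hn hx hy h
    rcases List.eq_nil_or_concat lx with rfl | ⟨L, b, rfl⟩
    · simp at hn
    rw [List.concat_eq_append] at *
    obtain ⟨ε, z⟩ := b
    have hLn : L.length = n := by simpa using hn
    have hL : D2_Ch L := by
      unfold D2_Ch at hx ⊢
      rw [List.isChain_append] at hx
      exact hx.1
    have hlast : ∀ g1 : G, ((L.map (D2_inc δ)) ++ [(ε, g1)]).IsChain
        (fun a b => a.2 ∈ toSubgroup A B a.1 → a.1 = b.1) := by
      intro g1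
      have h1 := D2_ch_inc δ hA hB _ hx
      rw [List.map_append, List.isChain_append] at h1
      rw [List.isChain_append]
      refine ⟨h1.1, List.isChain_singleton _, ?_⟩
      intro x hx y hy
      simp only [List.head?_cons, Option.mem_def, Option.some.injEq] at hy
      subst hy
      exact h1.2.2 x hx (D2_inc δ (ε, z)) (by simp)
    by_cases hpin : ∃ z' l', ly = (-ε, z') :: l' ∧ δ z * μ m * δ zy ∈ toSubgroup A B ε
    · obtain ⟨z', l', rfl, hmem⟩ := hpin
      have hl' : D2_Ch l' := hy.tail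
      have key : ∀ m' u v, R m m' →
          (HNNExtension.t ^ (ε : ℤ) * HNNExtension.of (δ z * μ m * δ zy) * HNNExtension.t ^ (-(ε : ℤ))
            : HNNExtension G A B φ) = HNNExtension.of (δ u * μ m' * δ v) →
          ∃ m' u v, R m m' ∧ g = δ u * μ m' * δ v := by
        intro m' u v hR he
        obtain ⟨z2, l2, hl2, hlen, hX⟩ := D2_X_right φ δ zx L hL u
        obtain ⟨m'', u', v', hR', hg⟩ := ih z2 l2 (v * z') l' m' (hlen.trans hLn) hl2 hl' (by
          rw [← h, D2_X_concat, D2_X_cons, ← hX, ← D2_X_left]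
          have : (HNNExtension.of (δ u) * HNNExtension.of (μ m') * HNNExtension.of (δ v) : HNNExtension G A B φ) =
              HNNExtension.t ^ (ε : ℤ) * HNNExtension.of (δ z) * HNNExtension.of (μ m) *
                HNNExtension.of (δ zy) * HNNExtension.t ^ (-(ε : ℤ)) := by
            rw [← map_mul, ← map_mul, ← he]
            simp only [map_mul, mul_assoc]
          calc _ = D2_X φ δ zx L * (HNNExtension.of (δ u) * HNNExtension.of (μ m') *
                HNNExtension.of (δ v)) * D2_X φ δ z' l' := by simp only [mul_assoc]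
            _ = _ := by
              rw [this]
              simp only [mul_assoc, Units.val_neg])
        exact ⟨m'', u', v', htrans _ _ _ hR hR', hg⟩
      rcases Int.units_eq_one_or ε with hε | hε
      · subst hε
        obtain ⟨m', u, v, hR, he⟩ := pA z zy m ⟨_, hmem⟩ rfl
        refine key m' u v hR ?_
        rw [← he, HNNExtension.equiv_eq_conj]
        simp
      · subst hε
        obtain ⟨m', u, v, hR, he⟩ := pB z zy m ⟨_, hmem⟩ rfl
        refine key m' u v hR ?_
        rw [← he, HNNExtension.equiv_symm_eq_conj]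
        simp
    · exfalso
      have hch : ((L.map (D2_inc δ)) ++ (ε, δ z * μ m * δ zy) :: (ly.map (D2_inc δ))).IsChain
          (fun a b => a.2 ∈ toSubgroup A B a.1 → a.1 = b.1) := by
        rw [List.isChain_split]
        refine ⟨hlast _, ?_⟩
        rw [List.isChain_cons]
        refine ⟨?_, D2_ch_inc δ hA hB ly hy⟩
        intro y hy' hm
        simp only at hm ⊢
        by_contra hne
        apply hpin
        cases ly with
        | nil => simp at hy'
        | cons b l1 =>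
          simp only [List.map_cons, List.head?_cons, Option.mem_def, Option.some.injEq] at hy'
          subst hy'
          refine ⟨b.2, l1, ?_, hm⟩
          have : b.1 = -ε := by
            simp only [D2_inc] at hne
            rcases Int.units_eq_one_or b.1 with h1 | h1 <;>
              rcases Int.units_eq_one_or ε with h2 | h2
            · exact absurd (h2.trans h1.symm) hne
            · rw [h1, h2]; decide
            · rw [h1, h2]
            · exact absurd (h2.trans h1.symm) hne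
          rw [← this]
      have := D2_britton φ (δ zx) _ hch g (by
        rw [List.map_append, List.map_cons, D2_map_inc, D2_map_inc, ← h, D2_X_concat]
        simp only [D2_X, List.prod_append, List.prod_cons, map_mul, mul_assoc])
      simp at this

end abs


section

variable {m p : ℕ} (h1 : Function.Injective (fA p)) (h2 : Function.Injective (fB p))

variable (F F' : Fam m p) (h3 : Function.Injective (iota h1 h2 F'))
  (h4 : Function.Injective (iota h1 h2 F))

theorem D2_map_ev {M M' : Type} [Group M] [Group M'] (f : M →* M') (h : M)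
    (γ : Option (Fin m) → M) (l0 : ℤ) (L : CW m) :
    f (ev h γ l0 L) = ev (f h) (fun o => f (γ o)) l0 L := by
  unfold ev
  rw [map_mul, map_zpow, map_list_prod, List.map_map]
  congr 2
  apply List.map_congr_left
  intro x _
  simp

theorem D2_pos_append {M : Type} [Group M] (a h : M) (x y : List ℤ) :
    pos a h (x ++ y) = pos a h x * pos a h y := by
  simp [pos]

theorem D2_pos_cons {M : Type} [Group M] (a h : M) (k : ℤ) (y : List ℤ) :
    pos a h (k :: y) = a * h ^ k * pos a h y := by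
  simp [pos]

theorem D2_ev_none {M : Type} [Group M] (h : M) (γ : Option (Fin m) → M) (l0 : ℤ) (ks : List ℤ) :
    ev h γ l0 ((ks.map fun k => ((none : Option (Fin m)), k)).map fun x => (x.1, (1 : ℤˣ), x.2)) =
      h ^ l0 * pos (γ none) h ks := by
  unfold ev pos
  rw [List.map_map, List.map_map]
  congr 2
  apply List.map_congr_left
  intro x _
  simp

theorem D2_ev_some {M : Type} [Group M] (h : M) (γ : Option (Fin m) → M) (l0 : ℤ)
    (L1 : List ℤ) (i : Fin m) (l : ℤ) (L2 : List ℤ) :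
    ev h γ l0 (((L1.map fun k => ((none : Option (Fin m)), k)) ++
      (some i, l) :: (L2.map fun k => (none, k))).map fun x => (x.1, (1 : ℤˣ), x.2)) =
      h ^ l0 * pos (γ none) h L1 * (γ (some i) * h ^ l) * pos (γ none) h L2 := by
  have h1 := D2_ev_none h γ 0 L1
  have h2 := D2_ev_none h γ 0 L2
  unfold ev at h1 h2 ⊢
  simp only [zpow_zero, one_mul] at h1 h2
  rw [List.map_append, List.map_append, List.prod_append, h1, List.map_cons, List.map_cons,
    List.prod_cons, h2]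
  simp [mul_assoc]

theorem D2_hd (u : D) (k : ℤ) : gof h1 h2 (u, 1) * gof h1 h2 (hk 1) ^ k =
    gof h1 h2 (hk 1) ^ k * gof h1 h2 (u, 1) := by
  rw [← map_zpow, ← map_mul, ← map_mul]
  congr 1
  ext <;> simp

theorem D2_ad : ga h1 h2 * gof h1 h2 (dd, 1) = gof h1 h2 (dd, 1) ^ p * ga h1 h2 := by
  have h := HNNExtension.t_mul_of (φ := rangeEquiv (fA p) (fB p) h1 h2) ⟨fA p dd, dd, rfl⟩
  rw [rangeEquiv_apply] at h
  have e1 : fA p dd = (dd, 1) := by simp [fA, powHom]
  have e2 : fB p dd = (dd ^ p, 1) := by simp [fB, powHom]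
  rw [e2] at h
  simp only [e1] at h
  rw [← map_pow]
  exact h

theorem D2_ea : gof h1 h2 (de, 1) * ga h1 h2 = ga h1 h2 * gof h1 h2 (de, 1) ^ p := by
  have h := HNNExtension.t_mul_of (φ := rangeEquiv (fA p) (fB p) h1 h2) ⟨fA p de, de, rfl⟩
  rw [rangeEquiv_apply] at h
  have e1 : fA p de = (de ^ p, 1) := by simp [fA, powHom]
  have e2 : fB p de = (de, 1) := by simp [fB, powHom]
  rw [e2] at h
  simp only [e1] at h
  rw [← map_pow]
  exact h.symm

theorem D2_pos_d (L : List ℤ) : ∀ α : ℤ, ∃ α' : ℤ,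
    pos (ga h1 h2) (gof h1 h2 (hk 1)) L * gof h1 h2 (dd, 1) ^ α =
      gof h1 h2 (dd, 1) ^ α' * pos (ga h1 h2) (gof h1 h2 (hk 1)) L := by
  induction L with
  | nil => intro α; exact ⟨α, by simp [pos]⟩
  | cons k L ih =>
    intro α
    obtain ⟨α', h'⟩ := ih α
    refine ⟨p * α', ?_⟩
    have hs : SemiconjBy (ga h1 h2) (gof h1 h2 (dd, 1) ^ α') ((gof h1 h2 (dd, 1) ^ p) ^ α') :=
      SemiconjBy.zpow_right (D2_ad h1 h2) α'
    have hc : gof h1 h2 (hk 1) ^ k * gof h1 h2 (dd, 1) ^ α' =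
        gof h1 h2 (dd, 1) ^ α' * gof h1 h2 (hk 1) ^ k := by
      have := D2_hd h1 h2 (dd ^ α') k
      rw [show ((dd ^ α' : D), (1 : Multiplicative ℤ)) = ((dd, 1) : B0) ^ α' by ext <;> simp,
        map_zpow] at this
      exact this.symm
    rw [D2_pos_cons, mul_assoc, h', ← mul_assoc, mul_assoc (ga h1 h2), hc, ← mul_assoc (ga h1 h2),
      hs.eq, ← zpow_natCast (gof h1 h2 (dd, 1)) p, ← zpow_mul]
    simp only [mul_assoc]

theorem D2_pos_e (L : List ℤ) : ∀ β : ℤ, ∃ β' : ℤ,
    gof h1 h2 (de, 1) ^ β * pos (ga h1 h2) (gof h1 h2 (hk 1)) L =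
      pos (ga h1 h2) (gof h1 h2 (hk 1)) L * gof h1 h2 (de, 1) ^ β' := by
  induction L with
  | nil => intro α; exact ⟨α, by simp [pos]⟩
  | cons k L ih =>
    intro β
    obtain ⟨β', h'⟩ := ih (p * β)
    refine ⟨β', ?_⟩
    have hs : SemiconjBy (ga h1 h2) ((gof h1 h2 (de, 1) ^ p) ^ β) (gof h1 h2 (de, 1) ^ β) :=
      SemiconjBy.zpow_right (D2_ea h1 h2).symm β
    have hc : gof h1 h2 (hk 1) ^ k * gof h1 h2 (de, 1) ^ (p * β) =
        gof h1 h2 (de, 1) ^ (p * β) * gof h1 h2 (hk 1) ^ k := by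
      have := D2_hd h1 h2 (de ^ (p * β)) k
      rw [show ((de ^ (p * β) : D), (1 : Multiplicative ℤ)) = ((de, 1) : B0) ^ (p * β) by
        ext <;> simp, map_zpow] at this
      exact this.symm
    rw [D2_pos_cons, ← mul_assoc, ← mul_assoc, ← hs.eq, ← zpow_natCast (gof h1 h2 (de, 1)) p,
      ← zpow_mul, mul_assoc (ga h1 h2), ← hc, mul_assoc, mul_assoc, mul_assoc, h']
    simp only [mul_assoc]

/-- the inclusion of `D` -/
noncomputable def D2_del : D →* G1 h1 h2 := (gof h1 h2).comp (MonoidHom.inl D (Multiplicative ℤ))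

theorem D2_del_apply (z : D) : D2_del h1 h2 z = gof h1 h2 (z, 1) := rfl

/-- the middle part -/
noncomputable def D2_mu (x : ℤ × List ℤ) : G1 h1 h2 :=
  gof h1 h2 (hk 1) ^ x.1 * pos (ga h1 h2) (gof h1 h2 (hk 1)) x.2

theorem D2_conv (hp : 2 ≤ p) (z z' : D) (x : ℤ × List ℤ)
    (w : FreeGroup (Option (Option (Fin m))))
    (h : D2_del h1 h2 z * D2_mu h1 h2 x * D2_del h1 h2 z' = iota h1 h2 F' w) :
    ∃ (x' : ℤ × List ℤ) (u v : D), (x.1 = x'.1 ∧ (x.2 = x'.2 ∨ Rw F F' x'.2 x.2)) ∧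
      iota h1 h2 F w = D2_del h1 h2 u * D2_mu h1 h2 x' * D2_del h1 h2 v := by
  obtain ⟨k0, ks⟩ := x
  rw [D2_mu, ← mul_assoc, D2_del_apply, D2_del_apply] at h
  obtain ⟨L, hw, hL⟩ := mem_range_iota h1 h2 hp F' z z' k0 ks w h
  have hi : iota h1 h2 F w = ev (gof h1 h2 (hk 1)) (gam F (gof h1 h2 (dd, 1))
      (gof h1 h2 (de, 1)) (ga h1 h2) (gof h1 h2 (hk 1))) k0 (L.map fun x => (x.1, (1 : ℤˣ), x.2)) := by
    rw [hw, D2_map_ev]
    simp only [iota, FreeGroup.lift_apply_of]
    rfl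
  rcases hL with hL | ⟨L1, i, l, L2, hL, hks⟩
  · refine ⟨(k0, ks), 1, 1, ⟨rfl, Or.inl rfl⟩, ?_⟩
    rw [hi, hL, D2_ev_none, map_one, one_mul, mul_one]
    rfl
  · obtain ⟨α', hα'⟩ := D2_pos_d h1 h2 L1 (F.α i)
    obtain ⟨β', hβ'⟩ := D2_pos_e h1 h2 L2 (F.β i)
    have hc1 : gof h1 h2 (hk 1) ^ k0 * gof h1 h2 (dd, 1) ^ α' =
        gof h1 h2 (dd, 1) ^ α' * gof h1 h2 (hk 1) ^ k0 := by
      have := D2_hd h1 h2 (dd ^ α') k0
      rw [show ((dd ^ α' : D), (1 : Multiplicative ℤ)) = ((dd, 1) : B0) ^ α' by ext <;> simp,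
        map_zpow] at this
      exact this.symm
    have hc2 : gof h1 h2 (hk 1) ^ l * gof h1 h2 (de, 1) ^ (F.β i) =
        gof h1 h2 (de, 1) ^ (F.β i) * gof h1 h2 (hk 1) ^ l := by
      have := D2_hd h1 h2 (de ^ (F.β i)) l
      rw [show ((de ^ (F.β i) : D), (1 : Multiplicative ℤ)) = ((de, 1) : B0) ^ (F.β i) by
        ext <;> simp, map_zpow] at this
      exact this.symm
    refine ⟨(k0, L1 ++ F.f i ++ l :: L2), dd ^ α', de ^ β', ⟨rfl, Or.inr ⟨i, L1, l, L2, rfl, hks⟩⟩,
      ?_⟩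
    have e1 : D2_del h1 h2 (dd ^ α') = gof h1 h2 (dd, 1) ^ α' := by rw [map_zpow]; rfl
    have e2 : D2_del h1 h2 (de ^ β') = gof h1 h2 (de, 1) ^ β' := by rw [map_zpow]; rfl
    rw [hi, hL, D2_ev_some, e1, e2, D2_mu, D2_pos_append, D2_pos_append, D2_pos_cons]
    simp only [gam]
    generalize gof h1 h2 (hk 1) = H at *
    generalize gof h1 h2 (dd, 1) = dG at *
    generalize gof h1 h2 (de, 1) = eG at *
    generalize ga h1 h2 = a at *
    calc H ^ k0 * pos a H L1 * (dG ^ F.α i * pos a H (F.f i) * a * eG ^ F.β i * H ^ l) * pos a H L2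
        = H ^ k0 * (pos a H L1 * dG ^ F.α i) * pos a H (F.f i) * a * (eG ^ F.β i * H ^ l) *
            pos a H L2 := by simp only [mul_assoc]
      _ = (H ^ k0 * dG ^ α') * pos a H L1 * pos a H (F.f i) * a * H ^ l * (eG ^ F.β i *
            pos a H L2) := by rw [hα', ← hc2]; simp only [mul_assoc]
      _ = dG ^ α' * (H ^ k0 * (pos a H L1 * pos a H (F.f i) * (a * H ^ l * pos a H L2))) *
            eG ^ β' := by rw [hβ', hc1]; simp only [mul_assoc]

theorem D2_one (hp : 2 ≤ p) (z : D) (h : D2_del h1 h2 z ∈ (iota h1 h2 F).range) : z = 1 := by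
  obtain ⟨w, hw⟩ := h
  obtain ⟨L, hw', hL⟩ := mem_range_iota h1 h2 hp F z 1 0 [] w (by
    have e0 : gof h1 h2 ((1 : D), (1 : Multiplicative ℤ)) = 1 := map_one _
    rw [hw, D2_del_apply, e0]
    simp [pos])
  have hL0 : L = [] := by
    rcases hL with hL | ⟨L1, i, l, L2, hL, hks⟩
    · simpa using hL
    · simp at hks
  subst hL0
  have hw1 : w = 1 := by
    rw [hw']
    simp [ev]
  rw [hw1, map_one] at hw
  have h5 : ((z, 1) : B0) = 1 := HNNExtension.of_injective _ (by
    rw [map_one]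
    exact hw.symm)
  exact congrArg Prod.fst h5

theorem D2_conn_snd (g0 : B0) (l : List B0) : ∀ (g0' : B0) (l' : List B0),
    Conn (rangeEquiv (fA p) (fB p) h1 h2) g0 l g0' l' →
      (g0 :: l).map Prod.snd = (g0' :: l').map Prod.snd := by
  induction l generalizing g0 with
  | nil =>
    intro g0' l' h
    cases l' with
    | nil => simp only [Conn] at h; rw [h]
    | cons b l' => exact h.elim
  | cons b l ih =>
    intro g0' l' h
    cases l' with
    | nil => exact h.elim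
    | cons b' l' =>
      obtain ⟨s, hs, hc⟩ := h
      have h5 := ih _ _ _ hc
      obtain ⟨w, hw⟩ := s.2
      obtain ⟨w', hw'⟩ := (rangeEquiv (fA p) (fB p) h1 h2 s).2
      have e1 : (s : B0).2 = 1 := by rw [← hw]; rfl
      have e2 : (rangeEquiv (fA p) (fB p) h1 h2 s : B0).2 = 1 := by rw [← hw']; rfl
      simp only [List.map_cons, Prod.snd_mul, e1, one_mul] at h5 ⊢
      rw [h5, hs, Prod.snd_mul, e2, mul_one]

theorem D2_zexp_snd (z z' : D) (k : ℤ) (ks : List ℤ) :
    (((z, 1) * (zexp z' k ks).1) :: (zexp z' k ks).2).map Prod.snd =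
      (k :: ks).map Multiplicative.ofAdd := by
  induction ks generalizing k z with
  | nil => simp [zexp]
  | cons k1 ks ih =>
    have := ih 1 k1
    simp only [List.map_cons, Prod.snd_mul, one_mul] at this
    simp only [zexp, List.map_cons, Prod.snd_mul, one_mul, this]

theorem D2_base (x y : ℤ × List ℤ) (u v : D)
    (h : D2_mu h1 h2 x = D2_del h1 h2 u * D2_mu h1 h2 y * D2_del h1 h2 v) : x = y := by
  obtain ⟨k0, ks⟩ := x
  obtain ⟨l0, ls⟩ := y
  have e1 := zexp_eq h1 h2 1 1 k0 ks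
  have e2 := zexp_eq h1 h2 u v l0 ls
  have e3 : posw (rangeEquiv (fA p) (fB p) h1 h2) ((1, 1) * (zexp 1 k0 ks).1) (zexp 1 k0 ks).2 =
      posw (rangeEquiv (fA p) (fB p) h1 h2) ((u, 1) * (zexp v l0 ls).1) (zexp v l0 ls).2 := by
    rw [← e1, ← e2]
    have : gof h1 h2 ((1 : D), (1 : Multiplicative ℤ)) = 1 := map_one _
    rw [this, one_mul, mul_one]
    rw [D2_mu, D2_mu, D2_del_apply, D2_del_apply] at h
    rw [h]
    simp only [mul_assoc]
  have e4 := D2_conn_snd h1 h2 _ _ _ _ (conn_of_eq _ _ _ _ _ e3)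
  rw [D2_zexp_snd, D2_zexp_snd] at e4
  have e5 := List.map_injective_iff.2 Multiplicative.ofAdd.injective e4
  simp only [List.cons.injEq] at e5
  rw [Prod.mk.injEq]
  exact e5

theorem sound (hp : 2 ≤ p) (x y : FreeGroup (Option (Fin 2))) (k0 : ℤ) (ks : List ℤ) (l0 : ℤ)
    (ls : List ℤ)
    (h : pw h1 h2 F F' h3 h4 k0 ks =
      cdeHom h1 h2 F F' h3 h4 x * pw h1 h2 F F' h3 h4 l0 ls * cdeHom h1 h2 F F' h3 h4 y) :
    k0 = l0 ∧ Relation.EqvGen (Rw F F') ks ls := by
  have hf0 : cdeHom h1 h2 F F' h3 h4 (FreeGroup.of none) = HNNExtension.t := by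
    simp only [cdeHom, FreeGroup.lift_apply_of]
    rfl
  have hf1 : ∀ i, ∃ u, cdeHom h1 h2 F F' h3 h4 (FreeGroup.of (some i)) =
      HNNExtension.of (D2_del h1 h2 u) := by
    intro i
    refine ⟨FreeGroup.of i, ?_⟩
    simp only [cdeHom, FreeGroup.lift_apply_of]
    rfl
  obtain ⟨zx, lx, hlx, hx⟩ := D2_nf1 _ (D2_del h1 h2) (cdeHom h1 h2 F F' h3 h4) hf0 hf1 x
  obtain ⟨zy, ly, hly, hy⟩ := D2_nf1 _ (D2_del h1 h2) (cdeHom h1 h2 F F' h3 h4) hf0 hf1 y
  obtain ⟨m', u, v, hR, hg⟩ := D2_main (rangeEquiv (iota h1 h2 F') (iota h1 h2 F) h3 h4)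
    (D2_del h1 h2) (D2_mu h1 h2)
    (fun a b => a.1 = b.1 ∧ Relation.EqvGen (Rw F F') a.2 b.2)
    (fun a => ⟨rfl, Relation.EqvGen.refl _⟩)
    (fun a b c hab hbc => ⟨hab.1.trans hbc.1, Relation.EqvGen.trans _ _ _ hab.2 hbc.2⟩)
    (D2_one h1 h2 F' hp) (D2_one h1 h2 F hp)
    (by
      rintro z z' a ⟨_, w, rfl⟩ he
      rw [rangeEquiv_apply]
      obtain ⟨x', u, v, ⟨h5, h6⟩, h7⟩ := D2_conv h1 h2 F F' hp z z' a w he
      refine ⟨x', u, v, ⟨h5, ?_⟩, h7⟩
      rcases h6 with h6 | h6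
      · rw [h6]; exact Relation.EqvGen.refl _
      · exact Relation.EqvGen.symm _ _ (Relation.EqvGen.rel _ _ h6))
    (by
      rintro z z' a ⟨_, w, rfl⟩ he
      have e5 : ((rangeEquiv (iota h1 h2 F') (iota h1 h2 F) h3 h4).symm
          ⟨iota h1 h2 F w, w, rfl⟩ : G1 h1 h2) = iota h1 h2 F' w := by
        have e6 : (⟨iota h1 h2 F w, w, rfl⟩ : (iota h1 h2 F).range) =
            rangeEquiv (iota h1 h2 F') (iota h1 h2 F) h3 h4 ⟨iota h1 h2 F' w, w, rfl⟩ := by
          apply Subtype.ext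
          rw [rangeEquiv_apply]
        rw [e6, MulEquiv.symm_apply_apply]
      rw [e5]
      obtain ⟨x', u, v, ⟨h5, h6⟩, h7⟩ := D2_conv h1 h2 F' F hp z z' a w he
      refine ⟨x', u, v, ⟨h5, ?_⟩, h7⟩
      rcases h6 with h6 | ⟨i, xs, y, ys, h8, h9⟩
      · rw [h6]; exact Relation.EqvGen.refl _
      · exact Relation.EqvGen.rel _ _ ⟨i, xs, y, ys, h9, h8⟩)
    (D2_mu h1 h2 (k0, ks)) lx.length zx lx zy ly (l0, ls) rfl hlx hly (by
      rw [← hx, ← hy]
      exact h.symm)
  have hb := D2_base h1 h2 _ _ _ _ hg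
  subst hb
  exact ⟨hR.1.symm, Relation.EqvGen.symm _ _ hR.2⟩

end

end Pool.Agent.H832.Few
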