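import Pool.Agent.H832.Few.Thue

set_option autoImplicit false

/-!
# Definitions for: Thue systems with `m` relations and group presentations with few relators
-/

noncomputable section

namespace Pool.Agent.H832.Few

/-! ### The coding of words -/

/-- The exponents of `h` which follow the four letters `a` in the code of a letter. -/
def blk (b : Bool) : List ℤ := if b then [2, 0, -2, 0] else [1, 0, -1, 0]

/-- The exponents of `h` which follow the letters `a` in the code of a word. -/
def fl (w : List Bool) : List ℤ := w.flatMap blk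

/-- The product of the `a * h ^ k`. -/
def pos {M : Type} [Group M] (a h : M) (ks : List ℤ) : M := (ks.map fun k => a * h ^ k).prod

/-- The word `W` used in the test relation. -/
def W {M : Type} [Group M] (x y : M) : M :=
  x * x * y * x⁻¹ * y * x⁻¹ * x⁻¹ * y * y * y * x⁻¹ * x⁻¹ * y * x⁻¹ * y⁻¹

/-! ### The relations, in an arbitrary group -/

/-- The central element `h`. -/
def hh {M : Type} [Group M] (x y : M) : M := (x * y) ^ 3

/-- The element `c`. -/
def cc {M : Type} [Group M] (m : ℕ) (x y : M) : M := y ^ 4 * x ^ m * (y ^ 4)⁻¹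

/-- The element `e`. -/
def ee {M : Type} [Group M] (x y : M) : M := (y ^ 4) ^ 2 * x * ((y ^ 4) ^ 2)⁻¹

/-- The word `P' = code(w) a`. -/
def pp {M : Type} [Group M] (w : List Bool) (a x y : M) : M := pos a (hh x y) (fl w) * a

/-- The relations between `a, x, y, t`; there are `m + 7` of them. -/
structure Rel {m : ℕ} (T : Fin m → List Bool × List Bool) (w0 : List Bool) {M : Type} [Group M]
    (a x y t : M) : Prop where
  braid : x * y * x = y * x * y
  ac : a * cc m x y = cc m x y * a
  ad : a * x = x ^ (m + 1) * a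
  ea : ee x y * a = a * ee x y ^ (m + 1)
  rule : ∀ i : Fin m, (cc m x y)⁻¹ *
    (x ^ ((i : ℕ) + 1) * pos a (hh x y) (fl (T i).1) * ee x y ^ ((i : ℕ) + 1)) * cc m x y =
      x ^ ((i : ℕ) + 1 + (m + 1)) * pos a (hh x y) (fl (T i).2) * ee x y ^ ((i : ℕ) + 1)
  tx : t * x = x * t
  ty : t * y = y * t
  test : W t ((pp w0 a x y)⁻¹ * t * pp w0 a x y) = 1

/-! ### The tower of HNN extensions -/

/-- An isomorphism between the ranges of two injective homomorphisms. -/
def rangeEquiv {H G : Type} [Group H] [Group G] (f g : H →* G)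
    (hf : Function.Injective f) (hg : Function.Injective g) : f.range ≃* g.range :=
  (MonoidHom.ofInjective hf).symm.trans (MonoidHom.ofInjective hg)

theorem rangeEquiv_apply {H G : Type} [Group H] [Group G] (f g : H →* G)
    (hf : Function.Injective f) (hg : Function.Injective g) (w : H) :
    (rangeEquiv f g hf hg ⟨f w, w, rfl⟩ : G) = g w := by
  have : (⟨f w, w, rfl⟩ : f.range) = MonoidHom.ofInjective hf w := rfl
  rw [rangeEquiv, MulEquiv.trans_apply, this, MulEquiv.symm_apply_apply]
  rfl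

/-- The free group with the basis `d, e`. -/
abbrev D : Type := FreeGroup (Fin 2)

/-- `d`. -/
abbrev dd : D := FreeGroup.of 0

/-- `e`. -/
abbrev de : D := FreeGroup.of 1

/-- The endomorphism `d ↦ d ^ p`, `e ↦ e ^ q`. -/
def powHom (p q : ℕ) : D →* D := FreeGroup.lift fun i => if i = 0 then dd ^ p else de ^ q

/-- The base group, the product of `D` and of the infinite cyclic group of `h`. -/
abbrev B0 : Type := D × Multiplicative ℤ

/-- The element `h ^ k`. -/
abbrev hk (k : ℤ) : B0 := (1, Multiplicative.ofAdd k)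

/-- `d ↦ d`, `e ↦ e ^ p`. -/
def fA (p : ℕ) : D →* B0 := (MonoidHom.inl D (Multiplicative ℤ)).comp (powHom 1 p)

/-- `d ↦ d ^ p`, `e ↦ e`. -/
def fB (p : ℕ) : D →* B0 := (MonoidHom.inl D (Multiplicative ℤ)).comp (powHom p 1)

/-- Positive words in an HNN extension. -/
def posw {G : Type} [Group G] {A B : Subgroup G} (φ : A ≃* B) (g0 : G) (l : List G) :
    HNNExtension G A B φ :=
  HNNExtension.of g0 * (l.map fun g => HNNExtension.t * HNNExtension.of g).prod

/-- The relation between two positive words with the same value. -/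
def Conn {G : Type} [Group G] {A B : Subgroup G} (φ : A ≃* B) : G → List G → G → List G → Prop
  | g0, [], g0', [] => g0' = g0
  | g0, g1 :: l, g0', g1' :: l' => ∃ s : A, g0' = g0 * φ s ∧ Conn φ g1 l (s * g1') l'
  | _, [], _, _ :: _ => False
  | _, _ :: _, _, [] => False

/-- Words in `h`, `a` and `g_i`: the list entry `(none, s, l)` stands for `a ^ s * h ^ l` and
`(some i, s, l)` for `g_i ^ s * h ^ l`. -/
abbrev CW (m : ℕ) : Type := List (Option (Fin m) × ℤˣ × ℤ)

/-- No cancellations. -/
def CRed {m : ℕ} (L : CW m) : Prop :=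
  L.IsChain fun x y => ¬ (x.1 = y.1 ∧ y.2.1 = - x.2.1 ∧ x.2.2 = 0)

/-- The value of a word. -/
def ev {m : ℕ} {M : Type} [Group M] (h : M) (γ : Option (Fin m) → M) (l0 : ℤ) (L : CW m) : M :=
  h ^ l0 * (L.map fun x => γ x.1 ^ (x.2.1 : ℤ) * h ^ x.2.2).prod

/-- The data of a family `g_i = d ^ α_i * (∏_{k ∈ f_i} a h ^ k) * a * e ^ β_i`. -/
structure Fam (m p : ℕ) where
  /-- exponents of `d` -/
  α : Fin m → ℤ
  /-- exponents of `e` -/
  β : Fin m → ℤ
  /-- interior exponents of `h` -/
  f : Fin m → List ℤ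
  hα : ∀ i, ¬ (p : ℤ) ∣ α i
  hβ : ∀ i, ¬ (p : ℤ) ∣ β i
  hαα : ∀ i j, i ≠ j → ¬ (p : ℤ) ∣ α i - α j
  hββ : ∀ i j, i ≠ j → ¬ (p : ℤ) ∣ β i - β j

/-- The element `g_i` (for `some i`) or `a` (for `none`), in a group which contains `d, e, a, h`. -/
def gam {m p : ℕ} (F : Fam m p) {M : Type} [Group M] (d e a h : M) : Option (Fin m) → M
  | none => a
  | some i => d ^ F.α i * pos a h (F.f i) * a * e ^ F.β i

/-- The expansion of a positive word in `h, a, g_i` as a positive word of the HNN extension. -/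
def expd {m p : ℕ} (F : Fam m p) : ℤ → List (Option (Fin m) × ℤ) → B0 × List B0
  | l0, [] => (hk l0, [])
  | l0, (none, l) :: L => (hk l0, (expd F l L).1 :: (expd F l L).2)
  | l0, (some i, l) :: L => (hk l0 * (dd ^ F.α i, 1),
      (F.f i).map hk ++ (((de ^ F.β i, 1) * (expd F l L).1) :: (expd F l L).2))

/-- The expansion of `h ^ k0 * pos ks * z'`. -/
def zexp (z' : D) : ℤ → List ℤ → B0 × List B0
  | k, [] => (hk k * (z', 1), [])
  | k, k1 :: ks => (hk k, (zexp z' k1 ks).1 :: (zexp z' k1 ks).2)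

section

variable {m p : ℕ} (h1 : Function.Injective (fA p)) (h2 : Function.Injective (fB p))

/-- The first HNN extension. -/
abbrev G1 : Type := HNNExtension B0 (fA p).range (fB p).range (rangeEquiv (fA p) (fB p) h1 h2)

/-- The element `a`. -/
abbrev ga : G1 h1 h2 := HNNExtension.t

/-- The inclusion of the base group. -/
abbrev gof : B0 →* G1 h1 h2 := HNNExtension.of

/-- The generators `h`, `a`, `g_i`. -/
def gens (F : Fam m p) : Option (Option (Fin m)) → G1 h1 h2
  | none => gof h1 h2 (hk 1)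
  | some o => gam F (gof h1 h2 (dd, 1)) (gof h1 h2 (de, 1)) (ga h1 h2) (gof h1 h2 (hk 1)) o

/-- The homomorphism from the free group. -/
def iota (F : Fam m p) : FreeGroup (Option (Option (Fin m))) →* G1 h1 h2 :=
  FreeGroup.lift (gens h1 h2 F)

variable (F F' : Fam m p) (h3 : Function.Injective (iota h1 h2 F'))
  (h4 : Function.Injective (iota h1 h2 F))

/-- The second HNN extension, with `c * g_i' * c⁻¹ = g_i`, where `g_i` belongs to `F` and `g_i'`
to `F'`. -/
abbrev G2 : Type := HNNExtension (G1 h1 h2) (iota h1 h2 F').range (iota h1 h2 F).range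
  (rangeEquiv (iota h1 h2 F') (iota h1 h2 F) h3 h4)

/-- The inclusion of `G1`. -/
abbrev g2of : G1 h1 h2 →* G2 h1 h2 F F' h3 h4 := HNNExtension.of

/-- The element `c`. -/
abbrev gc : G2 h1 h2 F F' h3 h4 := HNNExtension.t

/-- The element `h`. -/
abbrev gh : G2 h1 h2 F F' h3 h4 := g2of h1 h2 F F' h3 h4 (gof h1 h2 (hk 1))

/-- The generators `c, d, e`. -/
def cde : Option (Fin 2) → G2 h1 h2 F F' h3 h4
  | none => gc h1 h2 F F' h3 h4
  | some i => g2of h1 h2 F F' h3 h4 (gof h1 h2 (FreeGroup.of i, 1))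

/-- The homomorphism from the free group of rank three. -/
def cdeHom : FreeGroup (Option (Fin 2)) →* G2 h1 h2 F F' h3 h4 :=
  FreeGroup.lift (cde h1 h2 F F' h3 h4)

/-- The rewriting of lists of exponents. -/
def Rw (F F' : Fam m p) (u v : List ℤ) : Prop :=
  ∃ (i : Fin m) (xs : List ℤ) (y : ℤ) (ys : List ℤ),
    u = xs ++ F.f i ++ y :: ys ∧ v = xs ++ F'.f i ++ y :: ys

/-- Positive words in `a, h`, in the group `G2`. -/
def pw (k0 : ℤ) (ks : List ℤ) : G2 h1 h2 F F' h3 h4 :=
  g2of h1 h2 F F' h3 h4 ((gof h1 h2 (hk 1)) ^ k0 * pos (ga h1 h2) (gof h1 h2 (hk 1)) ks)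

end

/-- The generators `c, d, e` in a group with the elements `x, y`. -/
def kgen {K : Type} [Group K] (m : ℕ) (x y : K) : Option (Fin 2) → K
  | none => cc m x y
  | some i => if i = 0 then x else ee x y

end Pool.Agent.H832.Few
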