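import Pool.Agent.H832.Few.Defs

set_option autoImplicit false

namespace Pool.Agent.H832.Few

/-- the set on which the group acts -/
abbrev E_Om : Type := {w : ℝ // Irrational w}

theorem E_sub {w : ℝ} (h : Irrational w) : Irrational (w - 1) := by
  simpa using h.sub_intCast 1

theorem E_add {w : ℝ} (h : Irrational w) : Irrational (w + 1) := by
  simpa using h.add_intCast 1

theorem E_ne {w : ℝ} (h : Irrational w) (n : ℤ) : w ≠ n := h.ne_int n

theorem E_ne0 {w : ℝ} (h : Irrational w) : w ≠ 0 := by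
  simpa using h.ne_int 0

theorem E_ne1 {w : ℝ} (h : Irrational w) : 1 - w ≠ 0 := by
  intro h'
  exact h.ne_int 1 (by push_cast; linarith)

theorem E_ne2 {w : ℝ} (h : Irrational w) : 1 + w ≠ 0 := by
  intro h'
  exact h.ne_int (-1) (by push_cast; linarith)

theorem E_X1 {w : ℝ} (h : Irrational w) : Irrational (w / (1 + w)) := by
  have h1 : w / (1 + w) = 1 - (w + 1)⁻¹ := by
    have := E_ne2 h
    have h2 : w + 1 ≠ 0 := by rwa [add_comm]
    field_simp
    ring
  rw [h1]
  simpa using (E_add h).inv.intCast_sub 1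

theorem E_X2 {w : ℝ} (h : Irrational w) : Irrational (w / (1 - w)) := by
  have h0 : Irrational (-w) := h.neg
  have h1 := (E_X1 h0).neg
  have h2 : -(-w / (1 + -w)) = w / (1 - w) := by
    rw [neg_div, neg_neg, ← sub_eq_add_neg]
  rwa [h2] at h1

/-- the first permutation -/
noncomputable def E_X : Equiv.Perm E_Om where
  toFun w := ⟨w.1 / (1 + w.1), E_X1 w.2⟩
  invFun w := ⟨w.1 / (1 - w.1), E_X2 w.2⟩
  left_inv w := by
    apply Subtype.ext
    show w.1 / (1 + w.1) / (1 - w.1 / (1 + w.1)) = w.1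
    have h1 := E_ne2 w.2
    have h2 : 1 - w.1 / (1 + w.1) = (1 + w.1)⁻¹ := by
      field_simp
      ring
    rw [h2]
    field_simp
  right_inv w := by
    apply Subtype.ext
    show w.1 / (1 - w.1) / (1 + w.1 / (1 - w.1)) = w.1
    have h1 := E_ne1 w.2
    have h2 : 1 + w.1 / (1 - w.1) = (1 - w.1)⁻¹ := by
      field_simp
      ring
    rw [h2]
    field_simp

/-- the second permutation -/
noncomputable def E_Y : Equiv.Perm E_Om where
  toFun w := ⟨w.1 - 1, E_sub w.2⟩
  invFun w := ⟨w.1 + 1, E_add w.2⟩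
  left_inv w := by
    apply Subtype.ext
    show w.1 - 1 + 1 = w.1
    ring
  right_inv w := by
    apply Subtype.ext
    show w.1 + 1 - 1 = w.1
    ring

theorem E_X_apply (w : E_Om) : (E_X w).1 = w.1 / (1 + w.1) := rfl

theorem E_Y_apply (w : E_Om) : (E_Y w).1 = w.1 - 1 := rfl

theorem E_XYX (w : E_Om) : (E_X (E_Y (E_X w))).1 = - w.1⁻¹ := by
  rw [E_X_apply, E_Y_apply, E_X_apply]
  have h1 := E_ne2 w.2
  have h2 := E_ne0 w.2
  have h3 : w.1 / (1 + w.1) - 1 = - (1 + w.1)⁻¹ := by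
    field_simp
    ring
  have h4 : 1 + (w.1 / (1 + w.1) - 1) = w.1 / (1 + w.1) := by ring
  rw [h4, h3]
  field_simp

theorem E_YXY (w : E_Om) : (E_Y (E_X (E_Y w))).1 = - w.1⁻¹ := by
  rw [E_Y_apply, E_X_apply, E_Y_apply]
  have h2 := E_ne0 w.2
  have h3 : 1 + (w.1 - 1) = w.1 := by ring
  rw [h3]
  field_simp
  ring

theorem E_braid : E_X * E_Y * E_X = E_Y * E_X * E_Y := by
  ext w
  show (E_X (E_Y (E_X w))).1 = (E_Y (E_X (E_Y w))).1
  rw [E_XYX, E_YXY]

theorem E_hh : (E_X * E_Y) ^ 3 = 1 := by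
  have h : (E_X * E_Y) ^ 3 = (E_X * E_Y * E_X) * (E_Y * E_X * E_Y) := by
    rw [pow_succ, pow_two]
    simp only [mul_assoc]
  rw [h]
  ext w
  show (E_X (E_Y (E_X (E_Y (E_X (E_Y w)))))).1 = w.1
  rw [E_XYX, E_YXY, inv_neg, inv_inv, neg_neg]

theorem E_Xpow (n : ℕ) (w : E_Om) : ((E_X ^ n) w).1 = w.1 / (1 + n * w.1) := by
  induction n generalizing w with
  | zero => simp
  | succ n ih =>
    rw [pow_succ, Equiv.Perm.mul_apply, ih, E_X_apply]
    have h1 := E_ne2 w.2
    have h2 : 1 + (n : ℝ) * (w.1 / (1 + w.1)) = (1 + ((n + 1 : ℕ) : ℝ) * w.1) / (1 + w.1) := by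
      push_cast
      field_simp
      ring
    rw [h2, div_div_div_cancel_right₀ h1]

theorem E_Ypow (n : ℕ) (w : E_Om) : ((E_Y ^ n) w).1 = w.1 - n := by
  induction n generalizing w with
  | zero => simp
  | succ n ih =>
    rw [pow_succ, Equiv.Perm.mul_apply, ih, E_Y_apply]
    push_cast
    ring

theorem E_Ypow_inv (n : ℕ) (w : E_Om) : (((E_Y ^ n)⁻¹ : Equiv.Perm E_Om) w).1 = w.1 + n := by
  have h : ((E_Y ^ n) ((E_Y ^ n)⁻¹ w)).1 = w.1 := by
    rw [← Equiv.Perm.mul_apply, mul_inv_cancel, Equiv.Perm.one_apply]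
  rw [E_Ypow] at h
  linarith

/-- the shift -/
def E_s : Option (Fin 2) → ℕ
  | none => 1
  | some i => if i = 0 then 0 else 2

/-- the exponent -/
def E_n (m : ℕ) : Option (Fin 2) → ℕ
  | none => m
  | some _ => 1

theorem E_gen (m : ℕ) (i : Option (Fin 2)) : kgen m E_X E_Y i =
    E_Y ^ (4 * E_s i) * E_X ^ (E_n m i) * (E_Y ^ (4 * E_s i))⁻¹ := by
  rcases i with _ | i
  · rfl
  · fin_cases i
    · show E_X = E_Y ^ (4 * 0) * E_X ^ 1 * (E_Y ^ (4 * 0))⁻¹
      simp
    · show (E_Y ^ 4) ^ 2 * E_X * ((E_Y ^ 4) ^ 2)⁻¹ = E_Y ^ (4 * 2) * E_X ^ 1 * (E_Y ^ (4 * 2))⁻¹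
      rw [← pow_mul, pow_one]

theorem E_gen_apply (m : ℕ) (i : Option (Fin 2)) (w : E_Om) : (kgen m E_X E_Y i w).1 =
    (w.1 + 4 * E_s i) / (1 + E_n m i * (w.1 + 4 * E_s i)) - 4 * E_s i := by
  rw [E_gen, Equiv.Perm.mul_apply, Equiv.Perm.mul_apply, E_Ypow, E_Xpow, E_Ypow_inv]
  push_cast
  rfl

theorem E_s_inj (i j : Option (Fin 2)) (h : E_s i = E_s j) : i = j := by
  revert i j
  decide

/-- the attracting set -/
def E_A (i : Option (Fin 2)) : Set E_Om := {w | 0 < w.1 + 4 * E_s i ∧ w.1 + 4 * E_s i < 2}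

/-- the repelling set -/
def E_B (i : Option (Fin 2)) : Set E_Om := {w | -2 < w.1 + 4 * E_s i ∧ w.1 + 4 * E_s i < 0}

theorem E_ineq (u : ℝ) (n : ℝ) (hn : 1 ≤ n) (h : 0 < u ∨ u < -2) :
    0 < u / (1 + n * u) ∧ u / (1 + n * u) < 2 := by
  rcases h with h | h
  · have h1 : 0 < 1 + n * u := by positivity
    refine ⟨by positivity, ?_⟩
    rw [div_lt_iff₀ h1]
    nlinarith
  · have h1 : 1 + n * u < 0 := by nlinarith
    refine ⟨div_pos_of_neg_of_neg (by linarith) h1, ?_⟩
    rw [div_lt_iff_of_neg h1]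
    nlinarith

open scoped Pointwise in
theorem E_pp (m : ℕ) (hm : 1 ≤ m) : Function.Injective (FreeGroup.lift (kgen m E_X E_Y)) := by
  have hX : ∀ i, kgen m E_X E_Y i • (E_B i)ᶜ ⊆ E_A i := by
    intro i z hz
    obtain ⟨w, hw, rfl⟩ := hz
    have hn : (1 : ℝ) ≤ E_n m i := by
      have : 1 ≤ E_n m i := by
        rcases i with _ | i
        · exact hm
        · exact le_refl _
      exact_mod_cast this
    have hirr : Irrational (w.1 + 4 * E_s i) := by
      have := w.2.add_natCast (4 * E_s i)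
      push_cast at this
      exact this
    have hu : 0 < w.1 + 4 * E_s i ∨ w.1 + 4 * E_s i < -2 := by
      by_contra hcon
      push Not at hcon
      apply hw
      refine ⟨lt_of_le_of_ne hcon.2 ?_, lt_of_le_of_ne hcon.1 (E_ne0 hirr)⟩
      intro h
      exact hirr.ne_int (-2) (by push_cast; exact h.symm)
    have h := E_ineq _ _ hn hu
    show 0 < (kgen m E_X E_Y i w).1 + 4 * E_s i ∧ (kgen m E_X E_Y i w).1 + 4 * E_s i < 2
    rw [E_gen_apply, sub_add_cancel]
    exact h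
  refine FreeGroup.injective_lift_of_ping_pong (kgen m E_X E_Y) E_A E_B ?_ ?_ ?_ ?_ hX ?_
  · intro i
    refine ⟨⟨√2 - 4 * E_s i, ?_⟩, ?_⟩
    · have := irrational_sqrt_two.sub_natCast (4 * E_s i)
      push_cast at this
      exact this
    · show 0 < √2 - 4 * E_s i + 4 * E_s i ∧ √2 - 4 * E_s i + 4 * E_s i < 2
      rw [sub_add_cancel]
      refine ⟨by positivity, ?_⟩
      rw [Real.sqrt_lt' (by norm_num)]
      norm_num
  · intro i j hij
    rw [Function.onFun, Set.disjoint_left]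
    intro w h1 h2
    apply hij
    apply E_s_inj
    have h3 : (E_s i : ℝ) < E_s j + 1 := by linarith [h1.1, h1.2, h2.1, h2.2]
    have h4 : (E_s j : ℝ) < E_s i + 1 := by linarith [h1.1, h1.2, h2.1, h2.2]
    have h5 : E_s i < E_s j + 1 := by exact_mod_cast h3
    have h6 : E_s j < E_s i + 1 := by exact_mod_cast h4
    omega
  · intro i j hij
    rw [Function.onFun, Set.disjoint_left]
    intro w h1 h2
    apply hij
    apply E_s_inj
    have h3 : (E_s i : ℝ) < E_s j + 1 := by linarith [h1.1, h1.2, h2.1, h2.2]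
    have h4 : (E_s j : ℝ) < E_s i + 1 := by linarith [h1.1, h1.2, h2.1, h2.2]
    have h5 : E_s i < E_s j + 1 := by exact_mod_cast h3
    have h6 : E_s j < E_s i + 1 := by exact_mod_cast h4
    omega
  · intro i j
    rw [Set.disjoint_left]
    intro w h1 h2
    have h3 : (E_s i : ℝ) < E_s j + 1 := by linarith [h1.1, h1.2, h2.1, h2.2]
    have h4 : (E_s j : ℝ) < E_s i := by linarith [h1.1, h1.2, h2.1, h2.2]
    have h5 : E_s i < E_s j + 1 := by exact_mod_cast h3
    have h6 : E_s j < E_s i := by exact_mod_cast h4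
    omega
  · intro i z hz
    obtain ⟨w, hw, rfl⟩ := hz
    by_contra hcon
    apply hw
    have h := hX i ⟨_, hcon, rfl⟩
    have h2 : (kgen m E_X E_Y i) • ((kgen m E_X E_Y i)⁻¹ • w) = w := smul_inv_smul _ _
    simp only [Pi.inv_apply] at h
    rwa [h2] at h

theorem exists_K (m : ℕ) (hm : 1 ≤ m) : ∃ (K : Type) (_ : Group K) (x y : K),
    x * y * x = y * x * y ∧ ∀ (w : FreeGroup (Option (Fin 2))) (k : ℤ),
      FreeGroup.lift (kgen m x y) w * hh x y ^ k = 1 → w = 1 ∧ k = 0 := by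
  refine ⟨Equiv.Perm E_Om × Multiplicative ℤ, inferInstance, (E_X, Multiplicative.ofAdd 1),
    (E_Y, Multiplicative.ofAdd 1), ?_, ?_⟩
  · refine Prod.ext E_braid rfl
  · intro w k h
    have h1 : ∀ w : FreeGroup (Option (Fin 2)),
        (FreeGroup.lift (kgen m ((E_X, Multiplicative.ofAdd 1) : Equiv.Perm E_Om × Multiplicative ℤ)
          (E_Y, Multiplicative.ofAdd 1)) w).1 = FreeGroup.lift (kgen m E_X E_Y) w := by
      intro w
      have h2 : (MonoidHom.fst (Equiv.Perm E_Om) (Multiplicative ℤ)).comp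
          (FreeGroup.lift (kgen m ((E_X, Multiplicative.ofAdd 1) :
            Equiv.Perm E_Om × Multiplicative ℤ) (E_Y, Multiplicative.ofAdd 1))) =
          FreeGroup.lift (kgen m E_X E_Y) := by
        apply FreeGroup.ext_hom
        intro i
        rw [MonoidHom.comp_apply, FreeGroup.lift_apply_of, FreeGroup.lift_apply_of]
        rcases i with _ | i
        · rfl
        · fin_cases i <;> rfl
      exact DFunLike.congr_fun h2 w
    have h3 := congrArg Prod.fst h
    have h4 : (hh ((E_X, Multiplicative.ofAdd 1) : Equiv.Perm E_Om × Multiplicative ℤ)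
        (E_Y, Multiplicative.ofAdd 1)) = (1, Multiplicative.ofAdd 6) := Prod.ext E_hh rfl
    rw [h4] at h3
    have h5 : w = 1 := by
      apply E_pp m hm
      rw [map_one, ← h1]
      have h6 : ((1, Multiplicative.ofAdd 6) ^ k : Equiv.Perm E_Om × Multiplicative ℤ).1 = 1 := by
        rw [Prod.pow_fst, one_zpow]
      rw [Prod.fst_mul, h6, mul_one] at h3
      exact h3
    refine ⟨h5, ?_⟩
    rw [h5, map_one, one_mul, h4] at h
    have h6 := congrArg Prod.snd h
    rw [Prod.pow_snd] at h6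
    have h7 : k • (6 : ℤ) = 0 := h6
    rw [smul_eq_mul] at h7
    omega

end Pool.Agent.H832.Few
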