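import Pool.Agent.H832.Few.Defs

set_option autoImplicit false

namespace Pool.Agent.H832.Few

/-- The family of the two groups. -/
def G_fam (G K : Type) : Bool → Type
  | true => G
  | false => K

instance G_group (G K : Type) [Group G] [Group K] : ∀ b, Group (G_fam G K b)
  | true => inferInstanceAs (Group G)
  | false => inferInstanceAs (Group K)

/-- The two homomorphisms. -/
def G_phi {G K E : Type} [Group G] [Group K] [Group E] (j : E →* G) (jK : E →* K) :
    ∀ b, E →* G_fam G K b
  | true => j
  | false => jK

theorem G_phi_inj {G K E : Type} [Group G] [Group K] [Group E] (j : E →* G) (jK : E →* K)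
    (hj : Function.Injective j) (hjK : Function.Injective jK) :
    ∀ b, Function.Injective (G_phi j jK b)
  | true => hj
  | false => hjK

theorem G_word {ι : Type} {M : ι → Type} [∀ i, Group (M i)] {E : Type} [Group E] (φ : ∀ i, E →* M i)
    (hφ : ∀ i, Function.Injective (φ i)) (L : List (Σ i, M i))
    (h1 : ∀ g ∈ L, g.2 ∉ (φ g.1).range) (h2 : L.IsChain fun l l' => l.1 ≠ l'.1)
    (h3 : (L.map fun g => Monoid.PushoutI.of (φ := φ) g.1 g.2).prod = 1) : L = [] := by
  have hne : ∀ l ∈ L, l.2 ≠ 1 := by
    intro l hl h
    exact h1 l hl (h ▸ one_mem _)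
  have h4 : Monoid.PushoutI.Reduced φ (⟨L, hne, h2⟩ : Monoid.CoprodI.Word M) := h1
  have h5 := h4.eq_empty_of_mem_range hφ (by
    have h6 : Monoid.PushoutI.ofCoprodI (φ := φ) (Monoid.CoprodI.Word.prod ⟨L, hne, h2⟩) =
        (L.map fun g => Monoid.PushoutI.of (φ := φ) g.1 g.2).prod := by
      unfold Monoid.CoprodI.Word.prod
      rw [map_list_prod, List.map_map]
      congr 1
    rw [h6, h3]
    exact one_mem _)
  exact congrArg Monoid.CoprodI.Word.toList h5

theorem exists_amalgam {G K E : Type} [Group G] [Group K] [Group E] (j : E →* G) (jK : E →* K)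
    (hj : Function.Injective j) (hjK : Function.Injective jK) :
    ∃ (M : Type) (_ : Group M) (i2 : G →* M) (iK : K →* M),
      i2.comp j = iK.comp jK ∧
      (∀ (g g' : G) (x y : K), g ∉ j.range → g' ∉ j.range → i2 g' = iK x * i2 g * iK y →
        ∃ u v : E, x = jK u ∧ y = jK v ∧ g' = j u * g * j v) ∧
      (∀ (N : Type) [Group N] (f2 : G →* N) (fK : K →* N), f2.comp j = fK.comp jK →
        ∃ f : M →* N, f.comp i2 = f2 ∧ f.comp iK = fK) := by
  have hφ := G_phi_inj j jK hj hjK
  let φ := G_phi j jK
  let i2 : G →* Monoid.PushoutI φ := Monoid.PushoutI.of (φ := φ) (i := true)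
  let iK : K →* Monoid.PushoutI φ := Monoid.PushoutI.of (φ := φ) (i := false)
  have hi2 : Function.Injective i2 := Monoid.PushoutI.of_injective hφ true
  have hiK : Function.Injective iK := Monoid.PushoutI.of_injective hφ false
  have hb2 : ∀ e, i2 (j e) = Monoid.PushoutI.base φ e := Monoid.PushoutI.of_apply_eq_base φ true
  have hbK : ∀ e, iK (jK e) = Monoid.PushoutI.base φ e := Monoid.PushoutI.of_apply_eq_base φ false
  have hb : ∀ e, i2 (j e) = iK (jK e) := fun e => (hb2 e).trans (hbK e).symm
  refine ⟨Monoid.PushoutI φ, inferInstance, i2, iK, MonoidHom.ext hb, ?_, ?_⟩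
  · intro g g' x y hg hg' h
    have hg1 : g'⁻¹ ∉ j.range := fun h => hg' (inv_mem_iff.1 h)
    have h0 : iK x * i2 g * iK y * i2 g'⁻¹ = 1 := by
      rw [← h, map_inv, mul_inv_cancel]
    by_cases hx : x ∈ jK.range
    · obtain ⟨u, rfl⟩ := hx
      by_cases hy : y ∈ jK.range
      · obtain ⟨v, rfl⟩ := hy
        refine ⟨u, v, rfl, rfl, hi2 ?_⟩
        rw [h, map_mul, map_mul, hb, hb]
      · exfalso
        have hug : j u * g ∉ j.range := fun h =>
          hg ((Subgroup.mul_mem_cancel_left j.range (MonoidHom.mem_range.2 ⟨u, rfl⟩)).1 h)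
        have := G_word φ hφ [⟨true, j u * g⟩, ⟨false, y⟩, ⟨true, g'⁻¹⟩]
          (by
            intro l hl
            simp only [List.mem_cons, List.not_mem_nil, or_false] at hl
            rcases hl with rfl | rfl | rfl
            exacts [hug, hy, hg1])
          (by simp)
          (by
            change i2 (j u * g) * (iK y * (i2 g'⁻¹ * 1)) = 1
            rw [map_mul, hb, mul_one, ← mul_assoc]
            exact h0)
        simp at this
    · exfalso
      by_cases hy : y ∈ jK.range
      · obtain ⟨v, rfl⟩ := hy
        have h1 : iK x * i2 (g * j v * g'⁻¹) = 1 := by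
          rw [map_mul, map_mul, hb, ← mul_assoc, ← mul_assoc]
          exact h0
        by_cases hz : g * j v * g'⁻¹ ∈ j.range
        · obtain ⟨e, he⟩ := hz
          rw [← he, hb, ← map_mul] at h1
          have h2 : x * jK e = 1 := hiK (by rw [h1, map_one])
          exact hx ((Subgroup.mul_mem_cancel_right jK.range (MonoidHom.mem_range.2 ⟨e, rfl⟩)).1
            (h2 ▸ one_mem _))
        · have := G_word φ hφ [⟨false, x⟩, ⟨true, g * j v * g'⁻¹⟩]
            (by
              intro l hl
              simp only [List.mem_cons, List.not_mem_nil, or_false] at hl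
              rcases hl with rfl | rfl
              exacts [hx, hz])
            (by simp)
            (by
              change iK x * (i2 (g * j v * g'⁻¹) * 1) = 1
              rw [mul_one]
              exact h1)
          simp at this
      · have := G_word φ hφ [⟨false, x⟩, ⟨true, g⟩, ⟨false, y⟩, ⟨true, g'⁻¹⟩]
          (by
            intro l hl
            simp only [List.mem_cons, List.not_mem_nil, or_false] at hl
            rcases hl with rfl | rfl | rfl | rfl
            exacts [hx, hg, hy, hg1])
          (by simp)
          (by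
            change iK x * (i2 g * (iK y * (i2 g'⁻¹ * 1))) = 1
            rw [mul_one, ← mul_assoc, ← mul_assoc]
            exact h0)
        simp at this
  · intro N _ f2 fK hf
    have hc : ∀ b, ((match b with
        | true => f2
        | false => fK : G_fam G K b →* N)).comp (φ b) = f2.comp j := by
      rintro (_ | _)
      · exact hf.symm
      · rfl
    refine ⟨Monoid.PushoutI.lift (fun b => match b with
        | true => f2
        | false => fK) (f2.comp j) hc, ?_, ?_⟩
    · ext g
      exact Monoid.PushoutI.lift_of (φ := φ) _ _ hc (i := true) g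
    · ext g
      exact Monoid.PushoutI.lift_of (φ := φ) _ _ hc (i := false) g

end Pool.Agent.H832.Few
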