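import Pool.Agent.H832.Few.Defs

set_option autoImplicit false

namespace Pool.Agent.H832.Few

/-- the permutation `y0` -/
def H_y0 : Equiv.Perm (Fin 5) where
  toFun := ![4, 2, 3, 0, 1]
  invFun := ![3, 4, 1, 2, 0]
  left_inv := by decide
  right_inv := by decide

/-- the permutation `y1` -/
def H_y1 : Equiv.Perm (Fin 5) where
  toFun := ![3, 2, 1, 0, 4]
  invFun := ![3, 2, 1, 0, 4]
  left_inv := by decide
  right_inv := by decide

/-- the permutation `z0` -/
def H_z0 : Equiv.Perm (Fin 5) where
  toFun := ![3, 0, 1, 4, 2]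
  invFun := ![1, 2, 4, 0, 3]
  left_inv := by decide
  right_inv := by decide

/-- the permutation `z1` -/
def H_z1 : Equiv.Perm (Fin 5) where
  toFun := ![4, 2, 1, 3, 0]
  invFun := ![4, 2, 1, 3, 0]
  left_inv := by decide
  right_inv := by decide

theorem H_w1 : W H_z0 H_y1 = 1 := by unfold W; decide
theorem H_w2 : W H_z1 H_y0 = 1 := by unfold W; decide
theorem H_w3 : W H_z1 H_z0 = 1 := by unfold W; decide
theorem H_w4 : W H_y0 H_y1 = 1 := by unfold W; decide
theorem H_w5 : W H_y0 H_z1 = 1 := by unfold W; decide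
theorem H_w6 : W H_y1 H_y0 = 1 := by unfold W; decide
theorem H_w7 : W H_y1 H_z0 = 1 := by unfold W; decide
theorem H_w8 : W H_z0 H_z1 ≠ 1 := by unfold W; decide

/-- the word is preserved by homomorphisms -/
theorem H_map {A B : Type} [Group A] [Group B] (φ : A →* B) (x y : A) :
    φ (W x y) = W (φ x) (φ y) := by
  unfold W
  simp only [map_mul, map_inv]

/-- the homomorphism from the functions to the permutations -/
def H_shear (G : Type) : (G → Equiv.Perm (Fin 5)) →* Equiv.Perm (G × Fin 5) where
  toFun f := Equiv.prodShear (Equiv.refl G) f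
  map_one' := by
    ext x <;> rfl
  map_mul' f g := by
    ext x <;> rfl

theorem H_shear_apply {G : Type} (f : G → Equiv.Perm (Fin 5)) (x : G × Fin 5) :
    H_shear G f x = (x.1, f x.1 x.2) := rfl

/-- left multiplication -/
def H_left (G : Type) [Group G] : G →* Equiv.Perm (G × Fin 5) where
  toFun g := (Equiv.mulLeft g).prodCongr (Equiv.refl (Fin 5))
  map_one' := by
    ext x
    · exact one_mul x.1
    · rfl
  map_mul' g h := by
    ext x
    · exact mul_assoc g h x.1
    · rfl

theorem H_left_apply {G : Type} [Group G] (g : G) (x : G × Fin 5) :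
    H_left G g x = (g * x.1, x.2) := rfl

theorem H_conj {G : Type} [Group G] (f : G → Equiv.Perm (Fin 5)) (g : G) :
    (H_left G g)⁻¹ * H_shear G f * H_left G g = H_shear G (fun v => f (g * v)) := by
  rw [mul_assoc, inv_mul_eq_iff_eq_mul]
  ext x <;> rfl

theorem H_two {a b : Multiplicative (ZMod 2)} (ha : a ≠ 1) (hb : b ≠ 1) : a * b = 1 := by
  revert a b
  decide

open Classical in
/-- the function -/
noncomputable def H_f {G : Type} [Group G] (K : Subgroup G) (χ : G →* Multiplicative (ZMod 2))
    (R : G) (v : G) : Equiv.Perm (Fin 5) :=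
  if v ∈ K then H_z0 else if ∃ k ∈ K, v = k * R then H_z1 else if χ v = 1 then H_y0 else H_y1

theorem exists_wreath {G : Type} [Group G] (K : Subgroup G) (χ : G →* Multiplicative (ZMod 2))
    (hK : ∀ k ∈ K, χ k = 1) (P R : G) (hP : χ P ≠ 1) (hR : χ R ≠ 1)
    (hPR : ∀ k ∈ K, ∀ l ∈ K, R ≠ k * P * l) :
    ∃ (M : Type) (_ : Group M) (j : G →* M) (t : M), (∀ k ∈ K, t * j k = j k * t) ∧
      W t ((j P)⁻¹ * t * j P) = 1 ∧ W t ((j R)⁻¹ * t * j R) ≠ 1 := by
  classical
  have hKR : ∀ v : G, (∃ k ∈ K, v = k * R) → χ v ≠ 1 := by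
    rintro v ⟨k, hk, rfl⟩
    rw [map_mul, hK k hk, one_mul]
    exact hR
  have hinv : ∀ k ∈ K, ∀ v, H_f K χ R (k * v) = H_f K χ R v := by
    intro k hk v
    have h1 : k * v ∈ K ↔ v ∈ K := K.mul_mem_cancel_left hk
    have h2 : (∃ l ∈ K, k * v = l * R) ↔ ∃ l ∈ K, v = l * R := by
      constructor
      · rintro ⟨l, hl, h⟩
        exact ⟨k⁻¹ * l, K.mul_mem (K.inv_mem hk) hl, by rw [mul_assoc, ← h, inv_mul_cancel_left]⟩
      · rintro ⟨l, hl, rfl⟩
        exact ⟨k * l, K.mul_mem hk hl, by rw [mul_assoc]⟩
    have h3 : χ (k * v) = χ v := by rw [map_mul, hK k hk, one_mul]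
    unfold H_f
    simp only [h1, h2, h3]
  have hW : ∀ v, W (H_f K χ R v) (H_f K χ R (P * v)) = 1 := by
    intro v
    have hPv : χ (P * v) = χ P * χ v := map_mul χ P v
    by_cases hv : v ∈ K
    · have e1 : H_f K χ R v = H_z0 := if_pos hv
      have c1 : χ (P * v) ≠ 1 := by
        rw [hPv, hK v hv, mul_one]
        exact hP
      have c2 : P * v ∉ K := fun h => c1 (hK _ h)
      have c3 : ¬ ∃ k ∈ K, P * v = k * R := by
        rintro ⟨k, hk, h⟩
        refine hPR k⁻¹ (K.inv_mem hk) v hv ?_
        rw [mul_assoc, h, inv_mul_cancel_left]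
      have e2 : H_f K χ R (P * v) = H_y1 := by
        unfold H_f
        rw [if_neg c2, if_neg c3, if_neg c1]
      rw [e1, e2]
      exact H_w1
    · by_cases hv2 : ∃ k ∈ K, v = k * R
      · have e1 : H_f K χ R v = H_z1 := by
          unfold H_f
          rw [if_neg hv, if_pos hv2]
        have c1 : χ (P * v) = 1 := by
          rw [hPv]
          exact H_two hP (hKR v hv2)
        have c3 : ¬ ∃ k ∈ K, P * v = k * R := fun h => hKR _ h c1
        by_cases c2 : P * v ∈ K
        · have e2 : H_f K χ R (P * v) = H_z0 := if_pos c2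
          rw [e1, e2]
          exact H_w3
        · have e2 : H_f K χ R (P * v) = H_y0 := by
            unfold H_f
            rw [if_neg c2, if_neg c3, if_pos c1]
          rw [e1, e2]
          exact H_w2
      · by_cases hv3 : χ v = 1
        · have e1 : H_f K χ R v = H_y0 := by
            unfold H_f
            rw [if_neg hv, if_neg hv2, if_pos hv3]
          have c1 : χ (P * v) ≠ 1 := by
            rw [hPv, hv3, mul_one]
            exact hP
          have c2 : P * v ∉ K := fun h => c1 (hK _ h)
          by_cases c3 : ∃ k ∈ K, P * v = k * R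
          · have e2 : H_f K χ R (P * v) = H_z1 := by
              unfold H_f
              rw [if_neg c2, if_pos c3]
            rw [e1, e2]
            exact H_w5
          · have e2 : H_f K χ R (P * v) = H_y1 := by
              unfold H_f
              rw [if_neg c2, if_neg c3, if_neg c1]
            rw [e1, e2]
            exact H_w4
        · have e1 : H_f K χ R v = H_y1 := by
            unfold H_f
            rw [if_neg hv, if_neg hv2, if_neg hv3]
          have c1 : χ (P * v) = 1 := by
            rw [hPv]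
            exact H_two hP hv3
          have c3 : ¬ ∃ k ∈ K, P * v = k * R := fun h => hKR _ h c1
          by_cases c2 : P * v ∈ K
          · have e2 : H_f K χ R (P * v) = H_z0 := if_pos c2
            rw [e1, e2]
            exact H_w7
          · have e2 : H_f K χ R (P * v) = H_y0 := by
              unfold H_f
              rw [if_neg c2, if_neg c3, if_pos c1]
            rw [e1, e2]
            exact H_w6
  refine ⟨Equiv.Perm (G × Fin 5), inferInstance, H_left G, H_shear G (H_f K χ R), ?_, ?_, ?_⟩
  · intro k hk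
    have h := H_conj (H_f K χ R) k
    have h' : (fun v => H_f K χ R (k * v)) = H_f K χ R := funext (hinv k hk)
    rw [h', mul_assoc, inv_mul_eq_iff_eq_mul] at h
    exact h
  · rw [H_conj, ← H_map]
    have h : W (H_f K χ R) (fun v => H_f K χ R (P * v)) = 1 := by
      funext v
      have h2 := H_map (Pi.evalMonoidHom (fun _ : G => Equiv.Perm (Fin 5)) v) (H_f K χ R)
        (fun v => H_f K χ R (P * v))
      exact h2.trans (hW v)
    rw [h, map_one]
  · rw [H_conj, ← H_map]
    intro h
    have h1 : W (H_f K χ R) (fun v => H_f K χ R (R * v)) 1 = 1 := by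
      ext x
      have h3 := congrArg (fun q : Equiv.Perm (G × Fin 5) => (q (1, x)).2) h
      exact congrArg Fin.val h3
    have h2 := H_map (Pi.evalMonoidHom (fun _ : G => Equiv.Perm (Fin 5)) (1 : G)) (H_f K χ R)
      (fun v => H_f K χ R (R * v))
    have h3 : W (H_f K χ R 1) (H_f K χ R (R * 1)) = 1 := h2.symm.trans h1
    have e1 : H_f K χ R 1 = H_z0 := if_pos K.one_mem
    have e2 : H_f K χ R (R * 1) = H_z1 := by
      rw [mul_one]
      unfold H_f
      rw [if_neg (fun h => hR (hK _ h)), if_pos ⟨1, K.one_mem, (one_mul R).symm⟩]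
    rw [e1, e2] at h3
    exact H_w8 h3

end Pool.Agent.H832.Few
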