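import Pool.Agent.H832.Few.Defs

set_option autoImplicit false

namespace Pool.Agent.H832.Few

theorem J1_central {M : Type} [Group M] {x y : M} (hb : x * y * x = y * x * y) :
    Commute (hh x y) x ∧ Commute (hh x y) y := by
  have hΔ : hh x y = (x * y * x) * (x * y * x) := by
    have : hh x y = (x * y * x) * (y * x * y) := by
      simp only [hh, pow_succ, pow_zero, one_mul, mul_assoc]
    rw [this, ← hb]
  have h1 : (x * y * x) * x = y * (x * y * x) := by
    calc (x * y * x) * x = (y * x * y) * x := by rw [hb]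
      _ = y * (x * y * x) := by simp only [mul_assoc]
  have h2 : (x * y * x) * y = x * (x * y * x) := by
    calc (x * y * x) * y = x * (y * x * y) := by simp only [mul_assoc]
      _ = x * (x * y * x) := by rw [← hb]
  constructor
  · show hh x y * x = x * hh x y
    rw [hΔ, mul_assoc, h1, ← mul_assoc, h2, mul_assoc]
  · show hh x y * y = y * hh x y
    rw [hΔ, mul_assoc, h2, ← mul_assoc, h1, mul_assoc]

theorem J1_cc {M : Type} [Group M] (m : ℕ) {x y g : M} (hx : Commute g x) (hy : Commute g y) :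
    Commute g (cc m x y) := by
  unfold cc
  exact ((hy.pow_right 4).mul_right (hx.pow_right m)).mul_right (hy.pow_right 4).inv_right

theorem J1_ee {M : Type} [Group M] {x y g : M} (hx : Commute g x) (hy : Commute g y) :
    Commute g (ee x y) := by
  unfold ee
  exact (((hy.pow_right 4).pow_right 2).mul_right hx).mul_right
    ((hy.pow_right 4).pow_right 2).inv_right

theorem J1_pos_append {M : Type} [Group M] (a h : M) (u v : List ℤ) :
    pos a h (u ++ v) = pos a h u * pos a h v := by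
  simp only [pos, List.map_append, List.prod_append]

theorem J1_pos_cons {M : Type} [Group M] (a h : M) (k : ℤ) (v : List ℤ) :
    pos a h (k :: v) = a * h ^ k * pos a h v := by
  simp only [pos, List.map_cons, List.prod_cons]

theorem J1_pos_c {M : Type} [Group M] {a h c : M} (hc : Commute h c) (hac : a * c = c * a)
    (ks : List ℤ) : pos a h ks * c = c * pos a h ks := by
  induction ks with
  | nil => simp [pos]
  | cons k ks ih =>
    rw [J1_pos_cons, mul_assoc, ih, ← mul_assoc, mul_assoc a, (hc.zpow_left k).eq, ← mul_assoc,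
      hac, mul_assoc c, mul_assoc c]

theorem J1_pow {M : Type} [Group M] {a d : M} {n : ℕ} (had : a * d = d ^ n * a) (j : ℤ) :
    a * d ^ j = d ^ ((n : ℤ) * j) * a := by
  have h1 : a * d * a⁻¹ = d ^ n := by rw [had, mul_inv_cancel_right]
  have h2 : a * d ^ j * a⁻¹ = d ^ ((n : ℤ) * j) := by
    rw [← conj_zpow, h1, zpow_mul, zpow_natCast]
  rw [← h2, inv_mul_cancel_right]

theorem J1_pow' {M : Type} [Group M] {a e : M} {n : ℕ} (hea : e * a = a * e ^ n) (j : ℤ) :
    e ^ j * a = a * e ^ ((n : ℤ) * j) := by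
  have h1 : a⁻¹ * e * a = e ^ n := by rw [mul_assoc, hea, inv_mul_cancel_left]
  have h2 : a⁻¹ * e ^ j * a = e ^ ((n : ℤ) * j) := by
    have h3 : (a⁻¹ * e * a) ^ j = a⁻¹ * e ^ j * a := by
      have h4 := conj_zpow (a := a⁻¹) (b := e) (i := j)
      rw [inv_inv] at h4
      exact h4
    rw [← h3, h1, zpow_mul, zpow_natCast]
  rw [← h2, mul_assoc a⁻¹, mul_inv_cancel_left]

theorem J1_pos_d {M : Type} [Group M] {a h d : M} {n : ℕ} (hd : Commute h d)
    (had : a * d = d ^ n * a) (ks : List ℤ) :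
    ∀ j : ℤ, ∃ j' : ℤ, pos a h ks * d ^ j = d ^ j' * pos a h ks := by
  induction ks with
  | nil => exact fun j => ⟨j, by simp [pos]⟩
  | cons k ks ih =>
    intro j
    obtain ⟨j1, hj1⟩ := ih j
    refine ⟨(n : ℤ) * j1, ?_⟩
    rw [J1_pos_cons, mul_assoc, hj1, ← mul_assoc, mul_assoc a,
      ((hd.zpow_left k).zpow_right j1).eq, ← mul_assoc, J1_pow had, mul_assoc (d ^ _),
      mul_assoc (d ^ _)]

theorem J1_pos_e {M : Type} [Group M] {a h e : M} {n : ℕ} (he : Commute h e)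
    (hea : e * a = a * e ^ n) (ks : List ℤ) :
    ∀ j : ℤ, ∃ j' : ℤ, e ^ j * pos a h ks = pos a h ks * e ^ j' := by
  induction ks with
  | nil => exact fun j => ⟨j, by simp [pos]⟩
  | cons k ks ih =>
    intro j
    obtain ⟨j1, hj1⟩ := ih ((n : ℤ) * j)
    refine ⟨j1, ?_⟩
    rw [J1_pos_cons, ← mul_assoc, ← mul_assoc, J1_pow' hea, mul_assoc a,
      ← ((he.zpow_left k).zpow_right ((n : ℤ) * j)).eq, mul_assoc (a * h ^ k), ← hj1]
    simp only [mul_assoc]

theorem J1_step {m : ℕ} {T : Fin m → List Bool × List Bool} {w0 : List Bool} {M : Type}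
    [Group M] {a x y t : M} (h : Rel T w0 a x y t) {u v : List Bool} (huv : Step T u v) :
    ∃ X ∈ Subgroup.closure {cc m x y, x}, ∃ Y ∈ Subgroup.closure {cc m x y, ee x y},
      pos a (hh x y) (fl u) = X * pos a (hh x y) (fl v) * Y := by
  obtain ⟨i, x0, y0, rfl, rfl⟩ := huv
  obtain ⟨hcx, hcy⟩ := J1_central h.braid
  have hcc := J1_cc m hcx hcy
  have hce := J1_ee hcx hcy
  have hfl : ∀ p q r : List Bool, fl (p ++ q ++ r) = fl p ++ fl q ++ fl r := by
    intro p q r
    simp only [fl, List.flatMap_append]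
  rw [hfl, hfl, J1_pos_append, J1_pos_append, J1_pos_append, J1_pos_append]
  obtain ⟨j1, hj1⟩ := J1_pos_d hcx h.ad (fl x0) (-(((i : ℕ) + 1 : ℕ) : ℤ))
  obtain ⟨j2, hj2⟩ := J1_pos_d hcx h.ad (fl x0) ((((i : ℕ) + 1 + (m + 1) : ℕ)) : ℤ)
  obtain ⟨k1, hk1⟩ := J1_pos_e hce h.ea (fl y0) ((((i : ℕ) + 1 : ℕ)) : ℤ)
  obtain ⟨k2, hk2⟩ := J1_pos_e hce h.ea (fl y0) (-(((i : ℕ) + 1 : ℕ) : ℤ))
  have hpc := J1_pos_c hcc h.ac (fl x0)
  have hpc' : (cc m x y)⁻¹ * pos a (hh x y) (fl y0) = pos a (hh x y) (fl y0) * (cc m x y)⁻¹ := by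
    have := J1_pos_c hcc h.ac (fl y0)
    rw [inv_mul_eq_iff_eq_mul, ← mul_assoc, ← this, mul_inv_cancel_right]
  have hrule := h.rule i
  have hlhs : pos a (hh x y) (fl (T i).1) = x ^ (-(((i : ℕ) + 1 : ℕ) : ℤ)) * cc m x y *
      x ^ ((((i : ℕ) + 1 + (m + 1) : ℕ)) : ℤ) * pos a (hh x y) (fl (T i).2) *
      ee x y ^ ((((i : ℕ) + 1 : ℕ)) : ℤ) * (cc m x y)⁻¹ * ee x y ^ (-(((i : ℕ) + 1 : ℕ) : ℤ)) := by
    rw [zpow_neg, zpow_neg, zpow_natCast, zpow_natCast, zpow_natCast]
    have e1 : cc m x y * ((cc m x y)⁻¹ *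
      (x ^ ((i : ℕ) + 1) * pos a (hh x y) (fl (T i).1) * ee x y ^ ((i : ℕ) + 1)) * cc m x y) *
        (cc m x y)⁻¹ = x ^ ((i : ℕ) + 1) * pos a (hh x y) (fl (T i).1) * ee x y ^ ((i : ℕ) + 1) := by
      group
    rw [hrule] at e1
    have e2 : (x ^ ((i : ℕ) + 1))⁻¹ * (x ^ ((i : ℕ) + 1) * pos a (hh x y) (fl (T i).1) *
        ee x y ^ ((i : ℕ) + 1)) * (ee x y ^ ((i : ℕ) + 1))⁻¹ = pos a (hh x y) (fl (T i).1) := by
      group
    rw [← e1] at e2
    rw [← e2]
    simp only [mul_assoc]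
  refine ⟨x ^ j1 * cc m x y * x ^ j2, ?_, ee x y ^ k1 * (cc m x y)⁻¹ * ee x y ^ k2, ?_, ?_⟩
  · have hx : x ∈ Subgroup.closure {cc m x y, x} := Subgroup.subset_closure (by simp)
    have hc : cc m x y ∈ Subgroup.closure {cc m x y, x} := Subgroup.subset_closure (by simp)
    exact mul_mem (mul_mem (zpow_mem hx _) hc) (zpow_mem hx _)
  · have he : ee x y ∈ Subgroup.closure {cc m x y, ee x y} := Subgroup.subset_closure (by simp)
    have hc : cc m x y ∈ Subgroup.closure {cc m x y, ee x y} := Subgroup.subset_closure (by simp)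
    exact mul_mem (mul_mem (zpow_mem he _) (inv_mem hc)) (zpow_mem he _)
  · rw [hlhs]
    generalize x ^ (-(((i : ℕ) + 1 : ℕ) : ℤ)) = X1 at *
    generalize x ^ ((((i : ℕ) + 1 + (m + 1) : ℕ)) : ℤ) = X2 at *
    generalize ee x y ^ ((((i : ℕ) + 1 : ℕ)) : ℤ) = E1 at *
    generalize ee x y ^ (-(((i : ℕ) + 1 : ℕ) : ℤ)) = E2 at *
    generalize pos a (hh x y) (fl x0) = A at *
    generalize pos a (hh x y) (fl y0) = B at *
    generalize pos a (hh x y) (fl (T i).2) = C at *
    generalize cc m x y = c at *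
    generalize x ^ j1 = D1 at *
    generalize x ^ j2 = D2 at *
    generalize ee x y ^ k1 = K1 at *
    generalize ee x y ^ k2 = K2 at *
    calc A * (X1 * c * X2 * C * E1 * c⁻¹ * E2) * B
        = (A * X1) * c * X2 * C * E1 * c⁻¹ * (E2 * B) := by simp only [mul_assoc]
      _ = (D1 * A) * c * X2 * C * E1 * c⁻¹ * (B * K2) := by rw [hj1, hk2]
      _ = D1 * (A * c) * X2 * C * E1 * (c⁻¹ * B) * K2 := by simp only [mul_assoc]
      _ = D1 * (c * A) * X2 * C * E1 * (B * c⁻¹) * K2 := by rw [hpc, hpc']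
      _ = D1 * c * (A * X2) * C * (E1 * B) * c⁻¹ * K2 := by simp only [mul_assoc]
      _ = D1 * c * (D2 * A) * C * (B * K1) * c⁻¹ * K2 := by rw [hj2, hk1]
      _ = D1 * c * D2 * (A * C * B) * (K1 * c⁻¹ * K2) := by simp only [mul_assoc]

theorem J1_eqv {m : ℕ} {T : Fin m → List Bool × List Bool} {w0 : List Bool} {M : Type}
    [Group M] {a x y t : M} (h : Rel T w0 a x y t) {u v : List Bool} (huv : ThueEq T u v) :
    ∃ X ∈ Subgroup.closure {cc m x y, x}, ∃ Y ∈ Subgroup.closure {cc m x y, ee x y},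
      pos a (hh x y) (fl u) = X * pos a (hh x y) (fl v) * Y := by
  induction huv with
  | rel u v huv => exact J1_step h huv
  | refl u => exact ⟨1, one_mem _, 1, one_mem _, by rw [one_mul, mul_one]⟩
  | symm u v _ ih =>
    obtain ⟨X, hX, Y, hY, he⟩ := ih
    refine ⟨X⁻¹, inv_mem hX, Y⁻¹, inv_mem hY, ?_⟩
    rw [he]
    group
  | trans u v w _ _ ih1 ih2 =>
    obtain ⟨X, hX, Y, hY, he⟩ := ih1
    obtain ⟨X', hX', Y', hY', he'⟩ := ih2
    refine ⟨X * X', mul_mem hX hX', Y' * Y, mul_mem hY' hY, ?_⟩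
    rw [he, he']
    simp only [mul_assoc]

theorem J1_Ya {M : Type} [Group M] {a c e : M} {n : ℕ} (hac : a * c = c * a)
    (hea : e * a = a * e ^ n) {Y : M} (hY : Y ∈ Subgroup.closure {c, e}) :
    ∃ Y' ∈ Subgroup.closure {c, e}, Y * a = a * Y' := by
  have he : e ∈ Subgroup.closure {c, e} := Subgroup.subset_closure (by simp)
  have hc : c ∈ Subgroup.closure {c, e} := Subgroup.subset_closure (by simp)
  induction hY using Subgroup.closure_induction with
  | mem g hg =>
    rcases hg with rfl | hg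
    · exact ⟨g, hc, hac.symm⟩
    · rw [Set.mem_singleton_iff] at hg
      subst hg
      exact ⟨g ^ n, pow_mem he n, hea⟩
  | one => exact ⟨1, one_mem _, by rw [one_mul, mul_one]⟩
  | mul g g' _ _ ih ih' =>
    obtain ⟨Y1, h1, e1⟩ := ih
    obtain ⟨Y2, h2, e2⟩ := ih'
    exact ⟨Y1 * Y2, mul_mem h1 h2, by rw [mul_assoc, e2, ← mul_assoc, e1, mul_assoc]⟩
  | inv g _ ih =>
    obtain ⟨Y1, h1, e1⟩ := ih
    refine ⟨Y1⁻¹, inv_mem h1, ?_⟩
    rw [inv_mul_eq_iff_eq_mul, ← mul_assoc, e1, mul_inv_cancel_right]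

theorem J1_W {M : Type} [Group M] (g p q : M) :
    W (g⁻¹ * p * g) (g⁻¹ * q * g) = g⁻¹ * W p q * g := by
  have h1 : ∀ r : M, g⁻¹ * r * g = MulAut.conj g⁻¹ r := by
    intro r
    rw [MulAut.conj_apply, inv_inv]
  rw [h1, h1, h1]
  simp only [W, map_mul, map_inv]

theorem complete {m : ℕ} {T : Fin m → List Bool × List Bool} {w0 : List Bool} {M : Type}
    [Group M] {a x y t : M} (h : Rel T w0 a x y t) {r : List Bool} (hr : ThueEq T r w0) :
    W t ((pp r a x y)⁻¹ * t * pp r a x y) = 1 := by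
  obtain ⟨X, hX, Y, hY, he⟩ := J1_eqv h hr
  obtain ⟨Y', hY', heY⟩ := J1_Ya h.ac h.ea hY
  have hpp : pp r a x y = X * pp w0 a x y * Y' := by
    unfold pp
    rw [he, mul_assoc, heY]
    simp only [mul_assoc]
  have htx : Commute t x := h.tx
  have hty : Commute t y := h.ty
  have htX : t * X = X * t := by
    have h1 : Subgroup.closure {cc m x y, x} ≤ Subgroup.centralizer {t} := by
      rw [Subgroup.closure_le]
      intro g hg
      rcases hg with rfl | hg
      · exact Subgroup.mem_centralizer_singleton_iff.2 (J1_cc m htx hty).eq.symm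
      · rw [Set.mem_singleton_iff] at hg
        subst hg
        exact Subgroup.mem_centralizer_singleton_iff.2 htx.eq.symm
    exact (Subgroup.mem_centralizer_singleton_iff.1 (h1 hX)).symm
  have htY : t * Y' = Y' * t := by
    have h1 : Subgroup.closure {cc m x y, ee x y} ≤ Subgroup.centralizer {t} := by
      rw [Subgroup.closure_le]
      intro g hg
      rcases hg with rfl | hg
      · exact Subgroup.mem_centralizer_singleton_iff.2 (J1_cc m htx hty).eq.symm
      · rw [Set.mem_singleton_iff] at hg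
        subst hg
        exact Subgroup.mem_centralizer_singleton_iff.2 (J1_ee htx hty).eq.symm
    exact (Subgroup.mem_centralizer_singleton_iff.1 (h1 hY')).symm
  have h1 : (pp r a x y)⁻¹ * t * pp r a x y =
      Y'⁻¹ * ((pp w0 a x y)⁻¹ * t * pp w0 a x y) * Y' := by
    rw [hpp]
    have h2 : X⁻¹ * t * X = t := by rw [mul_assoc, htX, inv_mul_cancel_left]
    calc (X * pp w0 a x y * Y')⁻¹ * t * (X * pp w0 a x y * Y')
        = Y'⁻¹ * ((pp w0 a x y)⁻¹ * (X⁻¹ * t * X) * pp w0 a x y) * Y' := by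
          simp only [mul_inv_rev, mul_assoc]
      _ = _ := by rw [h2]
  have h3 : t = Y'⁻¹ * t * Y' := by rw [mul_assoc, htY, inv_mul_cancel_left]
  rw [h1]
  have h4 := J1_W Y' t ((pp w0 a x y)⁻¹ * t * pp w0 a x y)
  rw [← h3, h.test] at h4
  rw [h4]
  group

end Pool.Agent.H832.Few
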