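import Pool.Agent.H832.Few.Defs

set_option autoImplicit false

namespace Pool.Agent.H832.Few

theorem J2_pos_one {M : Type} [Group M] (h : M) : ∀ ks : List ℤ, pos 1 h ks = h ^ ks.sum
  | [] => by simp [pos]
  | k :: ks => by
    have h1 : pos 1 h (k :: ks) = (1 * h ^ k) * pos 1 h ks := by
      unfold pos
      rw [List.map_cons, List.prod_cons]
    rw [h1, J2_pos_one h ks, one_mul, List.sum_cons, zpow_add]

theorem J2_blk_sum (b : Bool) : (blk b).sum = 0 := by
  cases b <;> rfl

theorem J2_fl_sum : ∀ w : List Bool, (fl w).sum = 0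
  | [] => rfl
  | b :: w => by
    have h1 : fl (b :: w) = blk b ++ fl w := rfl
    rw [h1, List.sum_append, J2_blk_sum, J2_fl_sum w, add_zero]

theorem J2_W {M : Type} [Group M] (t : M) : W t t = t := by
  unfold W
  group

theorem collapse {m : ℕ} (hm : 1 ≤ m) {T : Fin m → List Bool × List Bool} {w0 : List Bool}
    {M : Type} [Group M] {a x y t : M} (h : Rel T w0 a x y t) (ha : a = 1) :
    x = 1 ∧ y = 1 ∧ t = 1 := by
  subst ha
  have hxm : x ^ m = 1 := by
    have h1 := h.ad
    rw [one_mul, mul_one, pow_succ] at h1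
    exact (mul_eq_right.1 h1.symm)
  have hcc : cc m x y = 1 := by
    unfold cc
    rw [hxm, mul_one, mul_inv_cancel]
  have hx : x = 1 := by
    have h1 := h.rule ⟨0, hm⟩
    rw [hcc, J2_pos_one, J2_pos_one, J2_fl_sum, J2_fl_sum, zpow_zero, inv_one, one_mul, mul_one,
      mul_one, mul_one] at h1
    have h2 := mul_right_cancel h1
    simp only [zero_add, pow_one] at h2
    have h3 : x ^ (1 + (m + 1)) = x * x := by
      rw [show 1 + (m + 1) = m + 2 by omega, pow_add, hxm, one_mul, pow_two]
    rw [h3] at h2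
    exact (mul_eq_left.1 h2.symm)
  subst hx
  have hy : y = 1 := by
    have h1 := h.braid
    rw [one_mul, mul_one] at h1
    exact (mul_eq_left.1 h1.symm)
  subst hy
  refine ⟨rfl, rfl, ?_⟩
  have h1 := h.test
  have h2 : pp w0 (1 : M) 1 1 = 1 := by
    unfold pp
    rw [J2_pos_one, J2_fl_sum, zpow_zero, mul_one]
  rw [h2, inv_one, one_mul, mul_one, J2_W] at h1
  exact h1

end Pool.Agent.H832.Few
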