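import Pool.Agent.H832.Few.Defs

set_option autoImplicit false

namespace Pool.Agent.H832.Few

/-- the positive entry of a block -/
def L_k (b : Bool) : ℤ := if b then 2 else 1

theorem L_blk (b : Bool) : blk b = [L_k b, 0, - L_k b, 0] := by
  cases b <;> rfl

theorem L_kpos (b : Bool) : 0 < L_k b := by
  cases b <;> decide

theorem L_kinj {b b' : Bool} (h : L_k b = L_k b') : b = b' := by
  revert h
  cases b <;> cases b' <;> decide

theorem L_fl_cons (b : Bool) (r : List Bool) :
    fl (b :: r) = L_k b :: 0 :: - L_k b :: 0 :: fl r := by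
  unfold fl
  rw [List.flatMap_cons, L_blk]
  rfl

theorem L_fl_nil : fl [] = [] := rfl

theorem L_fl_app (r s : List Bool) : fl (r ++ s) = fl r ++ fl s := by
  unfold fl
  rw [List.flatMap_append]

theorem L_end (e : List Bool) (he : e ≠ []) : (fl e).dropLast ++ [0] = fl e := by
  induction e with
  | nil => exact absurd rfl he
  | cons b e ih =>
    rw [L_fl_cons]
    by_cases h : e = []
    · subst h
      rfl
    · have h1 := ih h
      have h2 : fl e ≠ [] := by
        intro h3
        rw [h3] at h1
        simp at h1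
      rw [List.dropLast_cons_of_ne_nil (by simp), List.dropLast_cons_of_ne_nil (by simp),
        List.dropLast_cons_of_ne_nil (by simp), List.dropLast_cons_of_ne_nil h2]
      rw [List.cons_append, List.cons_append, List.cons_append, List.cons_append, h1]

/-- the first entries -/
theorem L_first (e : List Bool) (he : e ≠ []) : ∃ (b : Bool) (rest : List ℤ),
    (fl e).dropLast = L_k b :: 0 :: - L_k b :: rest := by
  cases e with
  | nil => exact absurd rfl he
  | cons b e =>
    refine ⟨b, (0 :: fl e).dropLast, ?_⟩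
    rw [L_fl_cons, List.dropLast_cons_of_ne_nil (by simp), List.dropLast_cons_of_ne_nil (by simp),
        List.dropLast_cons_of_ne_nil (by simp)]

theorem L_head (e : List Bool) : e ≠ [] → ∀ (r : List Bool) (j y : ℤ) (ys : List ℤ),
    fl r ++ [j] = (fl e).dropLast ++ y :: ys →
    ∃ r'', r = e ++ r'' ∧ y = 0 ∧ ys = fl r'' ++ [j] := by
  induction e with
  | nil => intro h; exact absurd rfl h
  | cons b e ih =>
    intro _ r j y ys h
    by_cases he : e = []
    · subst he
      have h1 : (fl [b]).dropLast = [L_k b, 0, - L_k b] := by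
        rw [L_fl_cons]
        rfl
      rw [h1] at h
      cases r with
      | nil =>
        rw [L_fl_nil] at h
        simp at h
      | cons b' r =>
        rw [L_fl_cons] at h
        simp only [List.cons_append, List.cons.injEq, List.nil_append, true_and] at h
        obtain ⟨h2, _, h4, h5⟩ := h
        refine ⟨r, ?_, h4.symm, h5.symm⟩
        rw [L_kinj h2]
        rfl
    · have h1 := L_end e he
      have h2 : fl e ≠ [] := by
        intro h3
        rw [h3] at h1
        simp at h1
      have h3 : (fl (b :: e)).dropLast = L_k b :: 0 :: - L_k b :: 0 :: (fl e).dropLast := by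
        rw [L_fl_cons, List.dropLast_cons_of_ne_nil (by simp),
          List.dropLast_cons_of_ne_nil (by simp),
          List.dropLast_cons_of_ne_nil (by simp), List.dropLast_cons_of_ne_nil h2]
      rw [h3] at h
      cases r with
      | nil =>
        rw [L_fl_nil] at h
        simp at h
      | cons b' r =>
        rw [L_fl_cons] at h
        simp only [List.cons_append, List.cons.injEq, true_and] at h
        obtain ⟨h4, _, h6⟩ := h
        obtain ⟨r'', h7, h8, h9⟩ := ih he r j y ys h6
        refine ⟨r'', ?_, h8, h9⟩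
        rw [L_kinj h4, h7]
        rfl

theorem L_split (e : List Bool) (he : e ≠ []) (r : List Bool) : ∀ (j y : ℤ) (xs ys : List ℤ),
    fl r ++ [j] = xs ++ (fl e).dropLast ++ y :: ys →
    ∃ x1 r'', r = x1 ++ e ++ r'' ∧ xs = fl x1 ∧ y = 0 ∧ ys = fl r'' ++ [j] := by
  induction r with
  | nil =>
    intro j y xs ys h
    obtain ⟨b, rest, h1⟩ := L_first e he
    rw [h1] at h
    have h2 := congrArg List.length h
    simp only [L_fl_nil, List.nil_append, List.length_cons, List.length_nil, List.length_append]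
      at h2
    omega
  | cons b r ih =>
    intro j y xs ys h
    obtain ⟨b1, rest, h1⟩ := L_first e he
    have hb1 := L_kpos b1
    have hb := L_kpos b
    match xs, h with
    | [], h =>
      rw [List.nil_append] at h
      obtain ⟨r'', h2, h3, h4⟩ := L_head e he (b :: r) j y ys h
      exact ⟨[], r'', by rw [List.nil_append]; exact h2, rfl, h3, h4⟩
    | [x0], h =>
      exfalso
      rw [L_fl_cons, h1] at h
      simp only [List.cons_append, List.cons.injEq, List.nil_append] at h
      obtain ⟨_, h3, _⟩ := h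
      omega
    | [x0, x1], h =>
      exfalso
      rw [L_fl_cons, h1] at h
      simp only [List.cons_append, List.cons.injEq, List.nil_append] at h
      obtain ⟨_, _, h3, _⟩ := h
      omega
    | [x0, x1, x2], h =>
      exfalso
      rw [L_fl_cons, h1] at h
      simp only [List.cons_append, List.cons.injEq, List.nil_append] at h
      obtain ⟨_, _, _, h3, _⟩ := h
      omega
    | x0 :: x1 :: x2 :: x3 :: xs', h =>
      rw [L_fl_cons] at h
      simp only [List.cons_append, List.cons.injEq] at h
      obtain ⟨e0, e1, e2, e3, h5⟩ := h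
      obtain ⟨z1, r'', h6, h7, h8, h9⟩ := ih j y xs' ys h5
      refine ⟨b :: z1, r'', ?_, ?_, h8, h9⟩
      · rw [h6]
        rfl
      · rw [L_fl_cons, ← e0, ← e1, ← e2, ← e3, ← h7]

theorem L_join (e x1 r : List Bool) (he : e ≠ []) (j : ℤ) :
    fl x1 ++ (fl e).dropLast ++ 0 :: (fl r ++ [j]) = fl (x1 ++ e ++ r) ++ [j] := by
  have h := L_end e he
  rw [L_fl_app, L_fl_app]
  calc fl x1 ++ (fl e).dropLast ++ 0 :: (fl r ++ [j])
      = fl x1 ++ ((fl e).dropLast ++ [0]) ++ (fl r ++ [j]) := by
        simp only [List.append_assoc, List.cons_append, List.nil_append]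
    _ = fl x1 ++ fl e ++ fl r ++ [j] := by
        rw [h, List.append_assoc, List.append_assoc]
        simp only [List.append_assoc]

theorem L_inj (r : List Bool) : ∀ s : List Bool, fl r = fl s → r = s := by
  induction r with
  | nil =>
    intro s h
    cases s with
    | nil => rfl
    | cons b s =>
      rw [L_fl_cons, L_fl_nil] at h
      exact absurd h (by simp)
  | cons b r ih =>
    intro s h
    cases s with
    | nil =>
      rw [L_fl_cons, L_fl_nil] at h
      exact absurd h (by simp)
    | cons b' s =>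
      rw [L_fl_cons, L_fl_cons] at h
      simp only [List.cons.injEq, true_and] at h
      rw [L_kinj h.1, ih s h.2.2]

theorem L_eqv {m : ℕ} (T : Fin m → List Bool × List Bool)
    (hT : ∀ i, (T i).1 ≠ [] ∧ (T i).2 ≠ []) (u v : List ℤ)
    (h : Relation.EqvGen (fun u v : List ℤ => ∃ (i : Fin m) (xs : List ℤ) (y : ℤ) (ys : List ℤ),
      u = xs ++ (fl (T i).1).dropLast ++ y :: ys ∧ v = xs ++ (fl (T i).2).dropLast ++ y :: ys)
      u v) : (∀ r j, u = fl r ++ [j] → ∃ r', v = fl r' ++ [j] ∧ ThueEq T r r') ∧
      (∀ r j, v = fl r ++ [j] → ∃ r', u = fl r' ++ [j] ∧ ThueEq T r r') := by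
  induction h with
  | rel u v h =>
    obtain ⟨i, xs, y, ys, h1, h2⟩ := h
    constructor
    · intro r j hr
      rw [hr] at h1
      obtain ⟨x1, r'', e1, e2, e3, e4⟩ := L_split _ (hT i).1 r j y xs ys h1
      refine ⟨x1 ++ (T i).2 ++ r'', ?_, ?_⟩
      · rw [h2, e2, e3, e4]
        exact L_join _ _ _ (hT i).2 j
      · exact Relation.EqvGen.rel _ _ ⟨i, x1, r'', e1, rfl⟩
    · intro r j hr
      rw [hr] at h2
      obtain ⟨x1, r'', e1, e2, e3, e4⟩ := L_split _ (hT i).2 r j y xs ys h2
      refine ⟨x1 ++ (T i).1 ++ r'', ?_, ?_⟩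
      · rw [h1, e2, e3, e4]
        exact L_join _ _ _ (hT i).1 j
      · exact Relation.EqvGen.symm _ _ (Relation.EqvGen.rel _ _ ⟨i, x1, r'', rfl, e1⟩)
  | refl u =>
    constructor
    · intro r j hr
      exact ⟨r, hr, Relation.EqvGen.refl _⟩
    · intro r j hr
      exact ⟨r, hr, Relation.EqvGen.refl _⟩
  | symm u v _ ih => exact ⟨ih.2, ih.1⟩
  | trans u v w _ _ ih1 ih2 =>
    constructor
    · intro r j hr
      obtain ⟨r1, h1, h2⟩ := ih1.1 r j hr
      obtain ⟨r2, h3, h4⟩ := ih2.1 r1 j h1
      exact ⟨r2, h3, Relation.EqvGen.trans _ _ _ h2 h4⟩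
    · intro r j hr
      obtain ⟨r1, h1, h2⟩ := ih2.2 r j hr
      obtain ⟨r2, h3, h4⟩ := ih1.2 r1 j h1
      exact ⟨r2, h3, Relation.EqvGen.trans _ _ _ h2 h4⟩

theorem parse {m : ℕ} (T : Fin m → List Bool × List Bool)
    (hT : ∀ i, (T i).1 ≠ [] ∧ (T i).2 ≠ []) (r w : List Bool) (j j' : ℤ)
    (h : Relation.EqvGen (fun u v : List ℤ => ∃ (i : Fin m) (xs : List ℤ) (y : ℤ) (ys : List ℤ),
      u = xs ++ (fl (T i).1).dropLast ++ y :: ys ∧ v = xs ++ (fl (T i).2).dropLast ++ y :: ys)
      (fl r ++ [j]) (fl w ++ [j'])) : j = j' ∧ ThueEq T r w := by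
  obtain ⟨r', h1, h2⟩ := (L_eqv T hT _ _ h).1 r j rfl
  obtain ⟨h3, h4⟩ := List.append_inj' h1 rfl
  have h5 := L_inj w r' h3
  simp only [List.cons.injEq, and_true] at h4
  exact ⟨h4.symm, h5 ▸ h2⟩

end Pool.Agent.H832.Few
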