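import Pool.Agent.H832.Few.Defs
import Pool.Agent.H832.Few.A
import Pool.Agent.H832.Few.C5
import Pool.Agent.H832.Few.D1
import Pool.Agent.H832.Few.D2
import Pool.Agent.H832.Few.E
import Pool.Agent.H832.Few.G
import Pool.Agent.H832.Few.H
import Pool.Agent.H832.Few.L

set_option autoImplicit false

noncomputable section

namespace Pool.Agent.H832.Few

/-! ### The families of the construction -/

theorem M1_not_dvd {m : ℕ} (i : Fin m) : ¬ ((m + 1 : ℕ) : ℤ) ∣ ((i : ℕ) : ℤ) + 1 := by
  intro h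
  have h1 := Int.le_of_dvd (by positivity) h
  have h2 := i.2
  push_cast at h1
  omega

theorem M1_not_dvd_sub {m : ℕ} (i j : Fin m) (hij : i ≠ j) :
    ¬ ((m + 1 : ℕ) : ℤ) ∣ ((i : ℕ) : ℤ) + 1 - (((j : ℕ) : ℤ) + 1) := by
  intro h
  have h2 := i.2
  have h3 := j.2
  have h4 : (i : ℕ) ≠ (j : ℕ) := fun e => hij (Fin.ext e)
  rcases lt_or_gt_of_ne h4 with h5 | h5
  · have h6 : ((m + 1 : ℕ) : ℤ) ∣ ((j : ℕ) : ℤ) - ((i : ℕ) : ℤ) := by
      have := (dvd_neg (α := ℤ)).2 h
      have e : -(((i : ℕ) : ℤ) + 1 - (((j : ℕ) : ℤ) + 1)) = ((j : ℕ) : ℤ) - ((i : ℕ) : ℤ) := by ring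
      rwa [e] at this
    have h7 := Int.le_of_dvd (by omega) h6
    push_cast at h7
    omega
  · have h6 : ((m + 1 : ℕ) : ℤ) ∣ ((i : ℕ) : ℤ) - ((j : ℕ) : ℤ) := by
      have e : ((i : ℕ) : ℤ) + 1 - (((j : ℕ) : ℤ) + 1) = ((i : ℕ) : ℤ) - ((j : ℕ) : ℤ) := by ring
      rwa [e] at h
    have h7 := Int.le_of_dvd (by omega) h6
    push_cast at h7
    omega

/-- The family of the left hand sides. -/
def F1 {m : ℕ} (T : Fin m → List Bool × List Bool) : Fam m (m + 1) where
  α i := ((i : ℕ) : ℤ) + 1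
  β i := ((i : ℕ) : ℤ) + 1
  f i := (fl (T i).1).dropLast
  hα := M1_not_dvd
  hβ := M1_not_dvd
  hαα := M1_not_dvd_sub
  hββ := M1_not_dvd_sub

/-- The family of the right hand sides. -/
def F2 {m : ℕ} (T : Fin m → List Bool × List Bool) : Fam m (m + 1) where
  α i := ((i : ℕ) : ℤ) + 1 + ((m + 1 : ℕ) : ℤ)
  β i := ((i : ℕ) : ℤ) + 1
  f i := (fl (T i).2).dropLast
  hα i h := M1_not_dvd i (dvd_add_self_right.1 h)
  hβ := M1_not_dvd
  hαα i j hij h := by
    apply M1_not_dvd_sub i j hij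
    have e : ((i : ℕ) : ℤ) + 1 + ((m + 1 : ℕ) : ℤ) - (((j : ℕ) : ℤ) + 1 + ((m + 1 : ℕ) : ℤ)) =
      ((i : ℕ) : ℤ) + 1 - (((j : ℕ) : ℤ) + 1) := by ring
    rwa [e] at h
  hββ := M1_not_dvd_sub

theorem M1_h1 (m : ℕ) : Function.Injective (fA (m + 1)) := by
  intro a b h
  apply powHom_injective 1 (m + 1) one_pos (Nat.succ_pos m)
  simpa [fA] using h

theorem M1_h2 (m : ℕ) : Function.Injective (fB (m + 1)) := by
  intro a b h
  apply powHom_injective (m + 1) 1 (Nat.succ_pos m) one_pos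
  simpa [fB] using h

/-! ### Facts on codes -/

theorem fl_append (u v : List Bool) : fl (u ++ v) = fl u ++ fl v := by
  simp [fl]

theorem fl_ne_nil {w : List Bool} (hw : w ≠ []) : fl w ≠ [] := by
  cases w with
  | nil => exact absurd rfl hw
  | cons b w => cases b <;> simp [fl, blk]

theorem fl_length (w : List Bool) : (fl w).length = 4 * w.length := by
  induction w with
  | nil => rfl
  | cons b w ih =>
    have : fl (b :: w) = blk b ++ fl w := by simp [fl]
    rw [this, List.length_append, ih, List.length_cons]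
    have : (blk b).length = 4 := by cases b <;> rfl
    omega

theorem fl_getLast (w : List Bool) (hw : fl w ≠ []) : (fl w).getLast hw = 0 := by
  induction w using List.reverseRecOn with
  | nil => exact absurd rfl hw
  | append_singleton w b ih =>
    have e : fl (w ++ [b]) = fl w ++ blk b := by simp [fl]
    have hb : blk b ≠ [] := by cases b <;> simp [blk]
    have : (fl (w ++ [b])).getLast hw = (fl w ++ blk b).getLast (by simp [hb]) := by
      congr 1
    rw [this, List.getLast_append_of_ne_nil _ hb]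
    cases b <;> rfl

theorem pos_append {M : Type} [Group M] (a h : M) (u v : List ℤ) :
    pos a h (u ++ v) = pos a h u * pos a h v := by
  simp [pos]

theorem pos_single {M : Type} [Group M] (a h : M) (k : ℤ) : pos a h [k] = a * h ^ k := by
  simp [pos]

theorem pos_dropLast {M : Type} [Group M] (a h : M) {w : List Bool} (hw : w ≠ []) :
    pos a h (fl w).dropLast * a = pos a h (fl w) := by
  have h1 := List.dropLast_append_getLast (fl_ne_nil hw)
  rw [fl_getLast] at h1
  conv_rhs => rw [← h1, pos_append, pos_single, zpow_zero, mul_one]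

theorem map_pos {M N : Type} [Group M] [Group N] (f : M →* N) (a h : M) (ks : List ℤ) :
    f (pos a h ks) = pos (f a) (f h) ks := by
  simp only [pos, map_list_prod, List.map_map]
  congr 1
  apply List.map_congr_left
  intro k _
  simp

/-! ### Relations in the second HNN extension -/

section

variable {m p : ℕ} (h1 : Function.Injective (fA p)) (h2 : Function.Injective (fB p))
  (F F' : Fam m p) (h3 : Function.Injective (iota h1 h2 F'))
  (h4 : Function.Injective (iota h1 h2 F))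

theorem t_fA (w : D) : ga h1 h2 * gof h1 h2 (fA p w) = gof h1 h2 (fB p w) * ga h1 h2 := by
  have := HNNExtension.t_mul_of (φ := rangeEquiv (fA p) (fB p) h1 h2) ⟨fA p w, w, rfl⟩
  rw [rangeEquiv_apply] at this
  exact this

theorem c_iota (w : FreeGroup (Option (Option (Fin m)))) :
    gc h1 h2 F F' h3 h4 * g2of h1 h2 F F' h3 h4 (iota h1 h2 F' w) =
      g2of h1 h2 F F' h3 h4 (iota h1 h2 F w) * gc h1 h2 F F' h3 h4 := by
  have := HNNExtension.t_mul_of (φ := rangeEquiv (iota h1 h2 F') (iota h1 h2 F) h3 h4)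
    ⟨iota h1 h2 F' w, w, rfl⟩
  rw [rangeEquiv_apply] at this
  exact this

theorem c_gens (o : Option (Option (Fin m))) :
    gc h1 h2 F F' h3 h4 * g2of h1 h2 F F' h3 h4 (gens h1 h2 F' o) =
      g2of h1 h2 F F' h3 h4 (gens h1 h2 F o) * gc h1 h2 F F' h3 h4 := by
  have := c_iota h1 h2 F F' h3 h4 (FreeGroup.of o)
  simpa [iota] using this

theorem gof_comm (z : D) (k : ℤ) :
    gof h1 h2 (z, 1) * gof h1 h2 (hk k) = gof h1 h2 (hk k) * gof h1 h2 (z, 1) := by
  rw [← map_mul, ← map_mul]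
  simp

theorem gh_comm_cde (o : Option (Fin 2)) :
    gh h1 h2 F F' h3 h4 * cde h1 h2 F F' h3 h4 o = cde h1 h2 F F' h3 h4 o * gh h1 h2 F F' h3 h4 := by
  cases o with
  | none =>
    have := c_gens h1 h2 F F' h3 h4 none
    exact this.symm
  | some i =>
    show g2of h1 h2 F F' h3 h4 _ * g2of h1 h2 F F' h3 h4 _ =
      g2of h1 h2 F F' h3 h4 _ * g2of h1 h2 F F' h3 h4 _
    have := congrArg (g2of h1 h2 F F' h3 h4) (gof_comm h1 h2 (FreeGroup.of i) 1).symm
    rw [map_mul, map_mul] at this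
    exact this

theorem gh_comm (w : FreeGroup (Option (Fin 2))) :
    Commute (gh h1 h2 F F' h3 h4) (cdeHom h1 h2 F F' h3 h4 w) := by
  induction w using FreeGroup.induction_on with
  | C1 => simp
  | of o =>
    have := gh_comm_cde h1 h2 F F' h3 h4 o
    rw [cdeHom, FreeGroup.lift_apply_of]
    exact this
  | inv_of o ih => rw [map_inv]; exact ih.inv_right
  | mul u v hu hv => rw [map_mul]; exact hu.mul_right hv

/-- The homomorphism from `⟨c, d, e⟩ × ⟨h⟩`. -/
def jG : FreeGroup (Option (Fin 2)) × Multiplicative ℤ →* G2 h1 h2 F F' h3 h4 :=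
  (cdeHom h1 h2 F F' h3 h4).noncommCoprod (zpowersHom _ (gh h1 h2 F F' h3 h4)) (by
    intro w k
    rw [zpowersHom_apply]
    exact (gh_comm h1 h2 F F' h3 h4 w).symm.zpow_right _)

theorem jG_apply (w : FreeGroup (Option (Fin 2))) (k : ℤ) :
    jG h1 h2 F F' h3 h4 (w, Multiplicative.ofAdd k) =
      cdeHom h1 h2 F F' h3 h4 w * gh h1 h2 F F' h3 h4 ^ k := by
  simp [jG, MonoidHom.noncommCoprod_apply, zpowersHom_apply]

theorem jG_injective (hp : 2 ≤ p) : Function.Injective (jG h1 h2 F F' h3 h4) := by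
  rw [injective_iff_map_eq_one]
  rintro ⟨w, k⟩ h
  have h5 := cdeHom_injective h1 h2 F F' h3 h4 hp w (Multiplicative.toAdd k) (by
    rw [← jG_apply]; exact h)
  ext
  · exact h5.1
  · exact h5.2

end

section

variable {K : Type} [Group K] (m : ℕ) (x y : K) (hb : x * y * x = y * x * y)

include hb

theorem hh_comm_x : Commute (hh x y) x := by
  have e1 : x * y * x * (x * y * x) = hh x y := by
    calc x * y * x * (x * y * x) = x * y * x * (y * x * y) := by rw [hb]
      _ = hh x y := by simp only [hh, pow_succ, pow_zero, one_mul]; group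
  have e2 : (x * y * x) * x = y * (x * y * x) := by
    calc (x * y * x) * x = y * x * y * x := by rw [hb]
      _ = y * (x * y * x) := by group
  have e3 : (x * y * x) * y = x * (x * y * x) := by
    calc (x * y * x) * y = x * (y * x * y) := by group
      _ = x * (x * y * x) := by rw [hb]
  show hh x y * x = x * hh x y
  rw [← e1]
  calc x * y * x * (x * y * x) * x = x * y * x * ((x * y * x) * x) := by group
    _ = (x * y * x) * y * (x * y * x) := by rw [e2]; group
    _ = x * (x * y * x * (x * y * x)) := by rw [e3]; group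

theorem hh_comm_y : Commute (hh x y) y := by
  have e1 : x * y * x * (x * y * x) = hh x y := by
    calc x * y * x * (x * y * x) = x * y * x * (y * x * y) := by rw [hb]
      _ = hh x y := by simp only [hh, pow_succ, pow_zero, one_mul]; group
  have e2 : (x * y * x) * x = y * (x * y * x) := by
    calc (x * y * x) * x = y * x * y * x := by rw [hb]
      _ = y * (x * y * x) := by group
  have e3 : (x * y * x) * y = x * (x * y * x) := by
    calc (x * y * x) * y = x * (y * x * y) := by group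
      _ = x * (x * y * x) := by rw [hb]
  show hh x y * y = y * hh x y
  rw [← e1]
  calc x * y * x * (x * y * x) * y = x * y * x * ((x * y * x) * y) := by group
    _ = (x * y * x) * x * (x * y * x) := by rw [e3]; group
    _ = y * (x * y * x * (x * y * x)) := by rw [e2]; group

theorem hh_comm_kgen (o : Option (Fin 2)) : Commute (hh x y) (kgen m x y o) := by
  have hx := hh_comm_x x y hb
  have hy := hh_comm_y x y hb
  cases o with
  | none =>
    show Commute _ (cc m x y)
    exact ((hy.pow_right 4).mul_right (hx.pow_right m)).mul_right (hy.pow_right 4).inv_right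
  | some i =>
    by_cases hi : i = 0
    · simpa [kgen, hi] using hx
    · simp only [kgen, hi, if_false]
      exact ((((hy.pow_right 4).pow_right 2)).mul_right hx).mul_right
        ((hy.pow_right 4).pow_right 2).inv_right

theorem hh_comm_lift (w : FreeGroup (Option (Fin 2))) :
    Commute (hh x y) (FreeGroup.lift (kgen m x y) w) := by
  induction w using FreeGroup.induction_on with
  | C1 => simp
  | of o =>
    rw [FreeGroup.lift_apply_of]
    exact hh_comm_kgen m x y hb o
  | inv_of o ih => rw [map_inv]; exact ih.inv_right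
  | mul u v hu hv => rw [map_mul]; exact hu.mul_right hv

/-- The homomorphism into `K`. -/
def jK : FreeGroup (Option (Fin 2)) × Multiplicative ℤ →* K :=
  (FreeGroup.lift (kgen m x y)).noncommCoprod (zpowersHom _ (hh x y)) (by
    intro w k
    rw [zpowersHom_apply]
    exact (hh_comm_lift m x y hb w).symm.zpow_right _)

theorem jK_apply (w : FreeGroup (Option (Fin 2))) (k : ℤ) :
    jK m x y hb (w, Multiplicative.ofAdd k) =
      FreeGroup.lift (kgen m x y) w * hh x y ^ k := by
  simp [jK, MonoidHom.noncommCoprod_apply, zpowersHom_apply]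

theorem jK_injective (hf : ∀ (w : FreeGroup (Option (Fin 2))) (k : ℤ),
      FreeGroup.lift (kgen m x y) w * hh x y ^ k = 1 → w = 1 ∧ k = 0) :
    Function.Injective (jK m x y hb) := by
  rw [injective_iff_map_eq_one]
  rintro ⟨w, k⟩ h
  have h5 := hf w (Multiplicative.toAdd k) (by
    rw [← jK_apply m x y hb]; exact h)
  ext
  · exact h5.1
  · exact h5.2

end


/-! ### The homomorphism to the group of order two -/

section

variable {m p : ℕ} (h1 : Function.Injective (fA p)) (h2 : Function.Injective (fB p))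

/-- `a ↦ 1`, base group `↦ 0`. -/
def chi1 : G1 h1 h2 →* Multiplicative (ZMod 2) :=
  HNNExtension.lift 1 (Multiplicative.ofAdd 1) (by intro a; simp)

theorem chi1_a : chi1 h1 h2 (ga h1 h2) = Multiplicative.ofAdd 1 := by
  simp [chi1, ga]

theorem chi1_of (b : B0) : chi1 h1 h2 (gof h1 h2 b) = 1 := by
  simp [chi1, gof]

theorem chi1_pos (ks : List ℤ) : chi1 h1 h2 (pos (ga h1 h2) (gof h1 h2 (hk 1)) ks) =
    Multiplicative.ofAdd ((ks.length : ℕ) : ZMod 2) := by
  induction ks with
  | nil => simp [pos]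
  | cons k ks ih =>
    have e : pos (ga h1 h2) (gof h1 h2 (hk 1)) (k :: ks) =
      ga h1 h2 * gof h1 h2 (hk 1) ^ k * pos (ga h1 h2) (gof h1 h2 (hk 1)) ks := by simp [pos]
    rw [e, map_mul, map_mul, map_zpow, chi1_a, chi1_of, one_zpow, mul_one, ih, ← ofAdd_add]
    congr 1
    push_cast [List.length_cons]
    ring

variable (F F' : Fam m p) (h3 : Function.Injective (iota h1 h2 F'))
  (h4 : Function.Injective (iota h1 h2 F))

theorem chi1_gam (i : Fin m) : chi1 h1 h2 (gens h1 h2 F (some (some i))) =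
    Multiplicative.ofAdd (((F.f i).length + 1 : ℕ) : ZMod 2) := by
  show chi1 h1 h2 (_ ^ _ * _ * _ * _ ^ _) = _
  rw [map_mul, map_mul, map_mul, map_zpow, map_zpow, chi1_of, chi1_of, chi1_pos, chi1_a,
    one_zpow, one_zpow, one_mul, mul_one, ← ofAdd_add]
  congr 1
  push_cast
  ring

variable (hF : ∀ i, (((F.f i).length + 1 : ℕ) : ZMod 2) = (((F'.f i).length + 1 : ℕ) : ZMod 2))

include hF in
theorem chi1_iota (w : FreeGroup (Option (Option (Fin m)))) :
    chi1 h1 h2 (iota h1 h2 F w) = chi1 h1 h2 (iota h1 h2 F' w) := by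
  have : (chi1 h1 h2).comp (iota h1 h2 F) = (chi1 h1 h2).comp (iota h1 h2 F') := by
    apply FreeGroup.ext_hom
    intro o
    simp only [MonoidHom.comp_apply, iota, FreeGroup.lift_apply_of]
    match o with
    | none => rfl
    | some none => rfl
    | some (some i) => rw [chi1_gam, chi1_gam, hF i]
  exact DFunLike.congr_fun this w

/-- The homomorphism on the second HNN extension. -/
def chi2 : G2 h1 h2 F F' h3 h4 →* Multiplicative (ZMod 2) :=
  HNNExtension.lift (chi1 h1 h2) 1 (by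
    rintro ⟨_, w, rfl⟩
    rw [rangeEquiv_apply, one_mul, mul_one]
    exact (chi1_iota h1 h2 F F' hF w).symm)

theorem chi2_of (g : G1 h1 h2) : chi2 h1 h2 F F' h3 h4 hF (g2of h1 h2 F F' h3 h4 g) =
    chi1 h1 h2 g := by
  simp [chi2, g2of]

theorem chi2_c : chi2 h1 h2 F F' h3 h4 hF (gc h1 h2 F F' h3 h4) = 1 := by
  simp [chi2, gc]

theorem chi2_cde (w : FreeGroup (Option (Fin 2))) :
    chi2 h1 h2 F F' h3 h4 hF (cdeHom h1 h2 F F' h3 h4 w) = 1 := by
  have : (chi2 h1 h2 F F' h3 h4 hF).comp (cdeHom h1 h2 F F' h3 h4) = 1 := by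
    apply FreeGroup.ext_hom
    intro o
    simp only [MonoidHom.comp_apply, cdeHom, FreeGroup.lift_apply_of, MonoidHom.one_apply]
    cases o with
    | none => exact chi2_c h1 h2 F F' h3 h4 hF
    | some i =>
      show chi2 h1 h2 F F' h3 h4 hF (g2of h1 h2 F F' h3 h4 _) = 1
      rw [chi2_of, chi1_of]
  exact DFunLike.congr_fun this w

end

theorem fl_dropLast_length {w : List Bool} (hw : w ≠ []) :
    (((fl w).dropLast.length + 1 : ℕ) : ZMod 2) = 0 := by
  have h1 : (fl w).dropLast.length + 1 = 4 * w.length := by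
    rw [List.length_dropLast, fl_length]
    have := List.length_pos_iff.2 hw
    omega
  rw [h1]
  push_cast
  have : (4 : ZMod 2) = 0 := by decide
  rw [this, zero_mul]

theorem pp_length (w : List Bool) : (((fl w ++ [0]).length : ℕ) : ZMod 2) = 1 := by
  rw [List.length_append, fl_length]
  push_cast
  have : (4 : ZMod 2) = 0 := by decide
  rw [this, zero_mul]
  simp

/-! ### The model -/

theorem model {m : ℕ} (hm : 1 ≤ m) (T : Fin m → List Bool × List Bool)
    (hT : ∀ i, (T i).1 ≠ [] ∧ (T i).2 ≠ []) (w0 r : List Bool) (hr : ¬ ThueEq T r w0) :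
    ∃ (M : Type) (_ : Group M) (a x y t : M), Rel T w0 a x y t ∧
      W t ((pp r a x y)⁻¹ * t * pp r a x y) ≠ 1 := by
  obtain ⟨K, _, x, y, hb, hf⟩ := exists_K m hm
  have hp : 2 ≤ m + 1 := by omega
  have h1 := M1_h1 m
  have h2 := M1_h2 m
  have h3 := iota_injective h1 h2 (F2 T)
  have h4 := iota_injective h1 h2 (F1 T)
  have hj := jG_injective h1 h2 (F1 T) (F2 T) h3 h4 hp
  have hjK := jK_injective m x y hb hf
  obtain ⟨M, _, i2, iK, hcomp, hmid, huniv⟩ := exists_amalgam _ _ hj hjK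
  have hcomp' : ∀ (w : FreeGroup (Option (Fin 2))) (k : ℤ), i2 (cdeHom h1 h2 (F1 T) (F2 T) h3 h4 w *
      gh h1 h2 (F1 T) (F2 T) h3 h4 ^ k) = iK (FreeGroup.lift (kgen m x y) w * hh x y ^ k) := by
    intro w k
    have := DFunLike.congr_fun hcomp (w, Multiplicative.ofAdd k)
    rw [MonoidHom.comp_apply, MonoidHom.comp_apply, jG_apply, jK_apply] at this
    exact this
  have hcde : ∀ o, i2 (cde h1 h2 (F1 T) (F2 T) h3 h4 o) = iK (kgen m x y o) := by
    intro o
    have := hcomp' (FreeGroup.of o) 0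
    rw [zpow_zero, mul_one, zpow_zero, mul_one, cdeHom, FreeGroup.lift_apply_of,
      FreeGroup.lift_apply_of] at this
    exact this
  have hgh : i2 (gh h1 h2 (F1 T) (F2 T) h3 h4) = iK (hh x y) := by
    have := hcomp' 1 1
    rw [map_one, one_mul, zpow_one, map_one, one_mul, zpow_one] at this
    exact this
  set ofF : G1 h1 h2 →* M := i2.comp (g2of h1 h2 (F1 T) (F2 T) h3 h4) with hofF
  set a : M := ofF (ga h1 h2) with ha
  have hx : ofF (gof h1 h2 (dd, 1)) = iK x := by
    have := hcde (some 0)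
    simpa [cde, kgen, hofF] using this
  have he : ofF (gof h1 h2 (de, 1)) = iK (ee x y) := by
    have := hcde (some 1)
    simpa [cde, kgen, hofF] using this
  have hc : i2 (gc h1 h2 (F1 T) (F2 T) h3 h4) = iK (cc m x y) := by
    have := hcde none
    simpa [cde, kgen] using this
  have hh' : ofF (gof h1 h2 (hk 1)) = iK (hh x y) := hgh
  have hhM : hh (iK x) (iK y) = iK (hh x y) := by simp [hh]
  have heM : ee (iK x) (iK y) = iK (ee x y) := by simp [ee]
  have hcM : cc m (iK x) (iK y) = iK (cc m x y) := by simp [cc]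
  -- the relations apart from the last three
  have rbraid : iK x * iK y * iK x = iK y * iK x * iK y := by
    rw [← map_mul, ← map_mul, hb, map_mul, map_mul]
  have rac : a * cc m (iK x) (iK y) = cc m (iK x) (iK y) * a := by
    have := congrArg i2 (c_gens h1 h2 (F1 T) (F2 T) h3 h4 (some none))
    rw [map_mul, map_mul, hc] at this
    rw [hcM]
    exact this.symm
  have rad : a * iK x = iK x ^ (m + 1) * a := by
    have := congrArg ofF (t_fA h1 h2 dd)
    have e1 : fA (m + 1) dd = (dd, 1) := by simp [fA, powHom, dd]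
    have e2 : fB (m + 1) dd = (dd, 1) ^ (m + 1) := by
      simp only [fB, powHom, dd, MonoidHom.comp_apply, FreeGroup.lift_apply_of, if_true]
      rw [map_pow]; rfl
    rw [e1, e2, map_mul, map_mul, map_pow, map_pow, hx] at this
    exact this
  have rea : ee (iK x) (iK y) * a = a * ee (iK x) (iK y) ^ (m + 1) := by
    have := congrArg ofF (t_fA h1 h2 de)
    have e2 : fA (m + 1) de = (de, 1) ^ (m + 1) := by
      simp only [fA, powHom, de, MonoidHom.comp_apply, FreeGroup.lift_apply_of]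
      rw [if_neg (by decide), map_pow]; rfl
    have e1 : fB (m + 1) de = (de, 1) := by simp [fB, powHom, de]
    rw [e1, e2, map_mul, map_mul, map_pow, map_pow, he] at this
    rw [heM]
    exact this.symm
  have hpos : ∀ ks, ofF (pos (ga h1 h2) (gof h1 h2 (hk 1)) ks) = pos a (iK (hh x y)) ks := by
    intro ks
    rw [map_pos, hh']
  have hgam1 : ∀ i : Fin m, ofF (gens h1 h2 (F1 T) (some (some i))) =
      iK x ^ ((i : ℕ) + 1) * pos a (iK (hh x y)) (fl (T i).1) * iK (ee x y) ^ ((i : ℕ) + 1) := by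
    intro i
    show ofF (_ ^ _ * _ * _ * _ ^ _) = _
    rw [map_mul, map_mul, map_mul, map_zpow, map_zpow, hpos, hx, he]
    have e3 := pos_dropLast a (iK (hh x y)) (hT i).1
    have e4 : (F1 T).f i = (fl (T i).1).dropLast := rfl
    have e5 : (F1 T).α i = (((i : ℕ) + 1 : ℕ) : ℤ) := by push_cast; rfl
    have e6 : (F1 T).β i = (((i : ℕ) + 1 : ℕ) : ℤ) := by push_cast; rfl
    rw [e4, e5, e6, zpow_natCast, zpow_natCast, ← e3]
    simp only [mul_assoc]
    rfl
  have hgam2 : ∀ i : Fin m, ofF (gens h1 h2 (F2 T) (some (some i))) =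
      iK x ^ ((i : ℕ) + 1 + (m + 1)) * pos a (iK (hh x y)) (fl (T i).2) *
        iK (ee x y) ^ ((i : ℕ) + 1) := by
    intro i
    show ofF (_ ^ _ * _ * _ * _ ^ _) = _
    rw [map_mul, map_mul, map_mul, map_zpow, map_zpow, hpos, hx, he]
    have e3 := pos_dropLast a (iK (hh x y)) (hT i).2
    have e4 : (F2 T).f i = (fl (T i).2).dropLast := rfl
    have e5 : (F2 T).α i = (((i : ℕ) + 1 + (m + 1) : ℕ) : ℤ) := by push_cast; rfl
    have e6 : (F2 T).β i = (((i : ℕ) + 1 : ℕ) : ℤ) := by push_cast; rfl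
    rw [e4, e5, e6, zpow_natCast, zpow_natCast, ← e3]
    simp only [mul_assoc]
    rfl
  have rrule : ∀ i : Fin m, (cc m (iK x) (iK y))⁻¹ *
      (iK x ^ ((i : ℕ) + 1) * pos a (hh (iK x) (iK y)) (fl (T i).1) *
        ee (iK x) (iK y) ^ ((i : ℕ) + 1)) * cc m (iK x) (iK y) =
      iK x ^ ((i : ℕ) + 1 + (m + 1)) * pos a (hh (iK x) (iK y)) (fl (T i).2) *
        ee (iK x) (iK y) ^ ((i : ℕ) + 1) := by
    intro i
    have := congrArg i2 (c_gens h1 h2 (F1 T) (F2 T) h3 h4 (some (some i)))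
    rw [map_mul, map_mul, hc] at this
    have h5 : iK (cc m x y) * ofF (gens h1 h2 (F2 T) (some (some i))) =
      ofF (gens h1 h2 (F1 T) (some (some i))) * iK (cc m x y) := this
    rw [hgam1, hgam2] at h5
    rw [hhM, heM, hcM, mul_assoc, ← h5, inv_mul_cancel_left]
  -- the elements P and R
  have hpw : ∀ w, i2 (pw h1 h2 (F1 T) (F2 T) h3 h4 0 (fl w ++ [0])) = pp w a (iK x) (iK y) := by
    intro w
    show ofF _ = _
    rw [map_mul, map_zpow, zpow_zero, one_mul, hpos, pos_append, pos_single, zpow_zero, mul_one,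
      pp, hhM]
  have hF : ∀ i, ((((F1 T).f i).length + 1 : ℕ) : ZMod 2) =
      ((((F2 T).f i).length + 1 : ℕ) : ZMod 2) := by
    intro i
    show (((fl (T i).1).dropLast.length + 1 : ℕ) : ZMod 2) =
      (((fl (T i).2).dropLast.length + 1 : ℕ) : ZMod 2)
    rw [fl_dropLast_length (hT i).1, fl_dropLast_length (hT i).2]
  obtain ⟨χ, hχ2, hχK⟩ := huniv (Multiplicative (ZMod 2)) (chi2 h1 h2 (F1 T) (F2 T) h3 h4 hF) 1
    (by
      ext1 ⟨w, k⟩
      have : jG h1 h2 (F1 T) (F2 T) h3 h4 (w, k) = cdeHom h1 h2 (F1 T) (F2 T) h3 h4 w *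
        gh h1 h2 (F1 T) (F2 T) h3 h4 ^ (Multiplicative.toAdd k) :=
        jG_apply h1 h2 (F1 T) (F2 T) h3 h4 w (Multiplicative.toAdd k)
      rw [MonoidHom.comp_apply, this, map_mul, map_zpow, chi2_cde, chi2_of, chi1_of]
      simp)
  have hχpw : ∀ w, χ (pp w a (iK x) (iK y)) = Multiplicative.ofAdd 1 := by
    intro w
    rw [← hpw, ← MonoidHom.comp_apply, hχ2]
    show chi2 h1 h2 (F1 T) (F2 T) h3 h4 hF (g2of h1 h2 (F1 T) (F2 T) h3 h4 _) = _
    rw [chi2_of, map_mul, map_zpow, chi1_of, one_zpow, one_mul, chi1_pos, pp_length]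
  have hne : (Multiplicative.ofAdd (1 : ZMod 2)) ≠ 1 := by decide
  have hnm : ∀ w, pw h1 h2 (F1 T) (F2 T) h3 h4 0 (fl w ++ [0]) ∉
      (jG h1 h2 (F1 T) (F2 T) h3 h4).range := by
    rintro w ⟨⟨v, k⟩, hv⟩
    apply pw_not_mem h1 h2 (F1 T) (F2 T) h3 h4 hp 0 (fl w ++ [0]) (by simp) v
      (Multiplicative.toAdd k)
    rw [← jG_apply]
    exact hv.symm
  have hPR : ∀ k ∈ iK.range, ∀ l ∈ iK.range,
      pp r a (iK x) (iK y) ≠ k * pp w0 a (iK x) (iK y) * l := by
    rintro _ ⟨k, rfl⟩ _ ⟨l, rfl⟩ e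
    rw [← hpw, ← hpw] at e
    obtain ⟨⟨u, i⟩, ⟨v, j⟩, -, -, e5⟩ := hmid _ _ k l (hnm w0) (hnm r) e
    have e6 : pw h1 h2 (F1 T) (F2 T) h3 h4 0 (fl r ++ [0]) =
        cdeHom h1 h2 (F1 T) (F2 T) h3 h4 u *
        pw h1 h2 (F1 T) (F2 T) h3 h4 (Multiplicative.toAdd i) (fl w0 ++ [Multiplicative.toAdd j]) *
        cdeHom h1 h2 (F1 T) (F2 T) h3 h4 v := by
      rw [e5]
      have e7 : jG h1 h2 (F1 T) (F2 T) h3 h4 (u, i) = cdeHom h1 h2 (F1 T) (F2 T) h3 h4 u *
        gh h1 h2 (F1 T) (F2 T) h3 h4 ^ (Multiplicative.toAdd i) :=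
        jG_apply h1 h2 (F1 T) (F2 T) h3 h4 u (Multiplicative.toAdd i)
      have e8 : jG h1 h2 (F1 T) (F2 T) h3 h4 (v, j) = cdeHom h1 h2 (F1 T) (F2 T) h3 h4 v *
        gh h1 h2 (F1 T) (F2 T) h3 h4 ^ (Multiplicative.toAdd j) :=
        jG_apply h1 h2 (F1 T) (F2 T) h3 h4 v (Multiplicative.toAdd j)
      have e9 : Commute (gh h1 h2 (F1 T) (F2 T) h3 h4 ^ (Multiplicative.toAdd j))
        (cdeHom h1 h2 (F1 T) (F2 T) h3 h4 v) := (gh_comm h1 h2 (F1 T) (F2 T) h3 h4 v).zpow_left _
      rw [e7, e8, ← e9.eq]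
      have e10 : pw h1 h2 (F1 T) (F2 T) h3 h4 (Multiplicative.toAdd i)
          (fl w0 ++ [Multiplicative.toAdd j]) = gh h1 h2 (F1 T) (F2 T) h3 h4 ^
          (Multiplicative.toAdd i) * pw h1 h2 (F1 T) (F2 T) h3 h4 0 (fl w0 ++ [0]) *
          gh h1 h2 (F1 T) (F2 T) h3 h4 ^ (Multiplicative.toAdd j) := by
        simp only [pw, pos_append, pos_single, zpow_zero, mul_one, one_mul, map_mul, map_zpow,
          mul_assoc]
      rw [e10]
      simp only [mul_assoc]
    obtain ⟨-, e11⟩ := sound h1 h2 (F1 T) (F2 T) h3 h4 hp u v _ _ _ _ e6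
    exact hr (parse T hT r w0 0 _ e11).2
  obtain ⟨N, _, J, t, ht, hP, hR⟩ := exists_wreath iK.range χ
    (by
      rintro _ ⟨k, rfl⟩
      rw [← MonoidHom.comp_apply, hχK]
      rfl)
    (pp w0 a (iK x) (iK y)) (pp r a (iK x) (iK y)) (by rw [hχpw]; exact hne)
    (by rw [hχpw]; exact hne) hPR
  have hJh : hh (J (iK x)) (J (iK y)) = J (hh (iK x) (iK y)) := by simp [hh]
  have hJe : ee (J (iK x)) (J (iK y)) = J (ee (iK x) (iK y)) := by simp [ee]
  have hJc : cc m (J (iK x)) (J (iK y)) = J (cc m (iK x) (iK y)) := by simp [cc]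
  have hJp : ∀ w, pp w (J a) (J (iK x)) (J (iK y)) = J (pp w a (iK x) (iK y)) := by
    intro w
    rw [pp, pp, map_mul, map_pos, hJh]
  refine ⟨N, inferInstance, J a, J (iK x), J (iK y), t, ?_, ?_⟩
  · refine ⟨?_, ?_, ?_, ?_, ?_, ?_, ?_, ?_⟩
    · rw [← map_mul, ← map_mul, rbraid, map_mul, map_mul]
    · rw [hJc, ← map_mul, rac, map_mul]
    · rw [← map_mul, rad, map_mul, map_pow]
    · rw [hJe, ← map_mul, rea, map_mul, map_pow]
    · intro i
      have := congrArg J (rrule i)
      simp only [map_mul, map_inv, map_pow, map_pos] at this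
      rw [hJc, hJe, hJh]
      exact this
    · exact ht _ ⟨x, rfl⟩
    · exact ht _ ⟨y, rfl⟩
    · rw [hJp]; exact hP
  · rw [hJp]; exact hR

end Pool.Agent.H832.Few
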