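import Pool.Agent.H832.Few.Defs
import Pool.Agent.H832.Few.M1
import Pool.Agent.H832.Few.J1
import Pool.Agent.H832.Few.J2

set_option autoImplicit false

noncomputable section

namespace Pool.Agent.H832.Few

/-- The `m + 7` relators, evaluated at elements `a, x, y, t` of a group. -/
def relA {m : ℕ} (T : Fin m → List Bool × List Bool) (w0 : List Bool) {M : Type} [Group M]
    (a x y t : M) : Fin (m + 7) → M :=
  Fin.append
    (fun i : Fin m => (cc m x y)⁻¹ *
      (x ^ ((i : ℕ) + 1) * pos a (hh x y) (fl (T i).1) * ee x y ^ ((i : ℕ) + 1)) * cc m x y *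
      (x ^ ((i : ℕ) + 1 + (m + 1)) * pos a (hh x y) (fl (T i).2) * ee x y ^ ((i : ℕ) + 1))⁻¹)
    ![x * y * x * (y * x * y)⁻¹,
      a * cc m x y * (cc m x y * a)⁻¹,
      a * x * (x ^ (m + 1) * a)⁻¹,
      ee x y * a * (a * ee x y ^ (m + 1))⁻¹,
      t * x * (x * t)⁻¹,
      t * y * (y * t)⁻¹,
      W t ((pp w0 a x y)⁻¹ * t * pp w0 a x y)]

/-- The word which tests whether `r` is equivalent to `w0`. -/
def tw {M : Type} [Group M] (r : List Bool) (a x y t : M) : M :=
  W t ((pp r a x y)⁻¹ * t * pp r a x y)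

/-- The relators of the presentation with the generators `a, x, y, t` (numbered `0, 1, 2, 3`). -/
def relsA {m : ℕ} (T : Fin m → List Bool × List Bool) (w0 : List Bool) :
    Fin (m + 7) → FreeGroup (Fin 4) :=
  relA T w0 (FreeGroup.of 0) (FreeGroup.of 1) (FreeGroup.of 2) (FreeGroup.of 3)

/-- The `m + 12` relators, evaluated at elements of a group. -/
def relB {m : ℕ} (T : Fin m → List Bool × List Bool) (w0 r : List Bool) {M : Type} [Group M]
    (a x y t s u v z : M) : Fin (m + 12) → M :=
  Fin.append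
    (fun i : Fin m => (cc m x y)⁻¹ *
      (x ^ ((i : ℕ) + 1) * pos a (hh x y) (fl (T i).1) * ee x y ^ ((i : ℕ) + 1)) * cc m x y *
      (x ^ ((i : ℕ) + 1 + (m + 1)) * pos a (hh x y) (fl (T i).2) * ee x y ^ ((i : ℕ) + 1))⁻¹)
    ![x * y * x * (y * x * y)⁻¹,
      a * cc m x y * (cc m x y * a)⁻¹,
      a * x * (x ^ (m + 1) * a)⁻¹,
      ee x y * a * (a * ee x y ^ (m + 1))⁻¹,
      t * x * (x * t)⁻¹,
      t * y * (y * t)⁻¹,
      W t ((pp w0 a x y)⁻¹ * t * pp w0 a x y),
      u * v * u * (v * u * v)⁻¹,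
      u * s * u * (s * u * s)⁻¹,
      s ^ 4 * (a * v ^ 4)⁻¹,
      z ^ 4 * u⁻¹,
      (tw r a x y t * v ^ 4 * (tw r a x y t)⁻¹ * (v ^ 4)⁻¹) * z *
        (tw r a x y t * v ^ 4 * (tw r a x y t)⁻¹ * (v ^ 4)⁻¹) *
        (z * (tw r a x y t * v ^ 4 * (tw r a x y t)⁻¹ * (v ^ 4)⁻¹) * z)⁻¹]

/-- The relators of the presentation with the generators `a, x, y, t, s, u, v, z` (numbered from
`0` to `7`). -/
def relsB {m : ℕ} (T : Fin m → List Bool × List Bool) (w0 r : List Bool) :
    Fin (m + 12) → FreeGroup (Fin 8) :=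
  relB T w0 r (FreeGroup.of 0) (FreeGroup.of 1) (FreeGroup.of 2) (FreeGroup.of 3)
    (FreeGroup.of 4) (FreeGroup.of 5) (FreeGroup.of 6) (FreeGroup.of 7)

theorem P1_W {M N : Type} [Group M] [Group N] (f : M →* N) (x y : M) :
    f (W x y) = W (f x) (f y) := by
  simp only [W, map_mul, map_inv]

theorem P1_hh {M N : Type} [Group M] [Group N] (f : M →* N) (x y : M) :
    f (hh x y) = hh (f x) (f y) := by
  simp only [hh, map_mul, map_pow]

theorem P1_cc {M N : Type} [Group M] [Group N] (f : M →* N) (m : ℕ) (x y : M) :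
    f (cc m x y) = cc m (f x) (f y) := by
  simp only [cc, map_mul, map_pow, map_inv]

theorem P1_ee {M N : Type} [Group M] [Group N] (f : M →* N) (x y : M) :
    f (ee x y) = ee (f x) (f y) := by
  simp only [ee, map_mul, map_pow, map_inv]

theorem P1_pp {M N : Type} [Group M] [Group N] (f : M →* N) (w : List Bool) (a x y : M) :
    f (pp w a x y) = pp w (f a) (f x) (f y) := by
  simp only [pp, map_mul, map_pos, P1_hh]

theorem P1_tw {M N : Type} [Group M] [Group N] (f : M →* N) (r : List Bool) (a x y t : M) :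
    f (tw r a x y t) = tw r (f a) (f x) (f y) (f t) := by
  simp only [tw, P1_W, map_mul, map_inv, P1_pp]

theorem P1_relA {m : ℕ} (T : Fin m → List Bool × List Bool) (w0 : List Bool) {M N : Type}
    [Group M] [Group N] (f : M →* N) (a x y t : M) (k : Fin (m + 7)) :
    f (relA T w0 a x y t k) = relA T w0 (f a) (f x) (f y) (f t) k := by
  unfold relA
  refine Fin.addCases (fun i => ?_) (fun j => ?_) k
  · rw [Fin.append_left, Fin.append_left]
    simp only [map_mul, map_pow, map_inv, map_pos, P1_hh, P1_cc, P1_ee]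
  · rw [Fin.append_right, Fin.append_right]
    fin_cases j
    · change f (x * y * x * (y * x * y)⁻¹) = f x * f y * f x * (f y * f x * f y)⁻¹
      simp only [map_mul, map_inv]
    · change f (a * cc m x y * (cc m x y * a)⁻¹) =
        f a * cc m (f x) (f y) * (cc m (f x) (f y) * f a)⁻¹
      simp only [map_mul, map_inv, P1_cc]
    · change f (a * x * (x ^ (m + 1) * a)⁻¹) = f a * f x * (f x ^ (m + 1) * f a)⁻¹
      simp only [map_mul, map_inv, map_pow]
    · change f (ee x y * a * (a * ee x y ^ (m + 1))⁻¹) =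
        ee (f x) (f y) * f a * (f a * ee (f x) (f y) ^ (m + 1))⁻¹
      simp only [map_mul, map_inv, map_pow, P1_ee]
    · change f (t * x * (x * t)⁻¹) = f t * f x * (f x * f t)⁻¹
      simp only [map_mul, map_inv]
    · change f (t * y * (y * t)⁻¹) = f t * f y * (f y * f t)⁻¹
      simp only [map_mul, map_inv]
    · change f (W t ((pp w0 a x y)⁻¹ * t * pp w0 a x y)) =
        W (f t) ((pp w0 (f a) (f x) (f y))⁻¹ * f t * pp w0 (f a) (f x) (f y))
      simp only [P1_W, map_mul, map_inv, P1_pp]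

theorem rel_of_relA {m : ℕ} (T : Fin m → List Bool × List Bool) (w0 : List Bool) {M : Type}
    [Group M] (a x y t : M) (h : ∀ k, relA T w0 a x y t k = 1) : Rel T w0 a x y t := by
  unfold relA at h
  have h1 := fun i : Fin m => h (Fin.castAdd 7 i)
  have h2 := fun j : Fin 7 => h (Fin.natAdd m j)
  simp only [Fin.append_left] at h1
  simp only [Fin.append_right] at h2
  exact ⟨mul_inv_eq_one.1 (h2 0), mul_inv_eq_one.1 (h2 1), mul_inv_eq_one.1 (h2 2),
    mul_inv_eq_one.1 (h2 3), fun i => mul_inv_eq_one.1 (h1 i), mul_inv_eq_one.1 (h2 4),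
    mul_inv_eq_one.1 (h2 5), h2 6⟩

theorem relA_of_rel {m : ℕ} (T : Fin m → List Bool × List Bool) (w0 : List Bool) {M : Type}
    [Group M] (a x y t : M) (h : Rel T w0 a x y t) : ∀ k, relA T w0 a x y t k = 1 := by
  intro k
  unfold relA
  refine Fin.addCases (fun i => ?_) (fun j => ?_) k
  · rw [Fin.append_left]
    exact mul_inv_eq_one.2 (h.rule i)
  · rw [Fin.append_right]
    fin_cases j
    · exact mul_inv_eq_one.2 h.braid
    · exact mul_inv_eq_one.2 h.ac
    · exact mul_inv_eq_one.2 h.ad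
    · exact mul_inv_eq_one.2 h.ea
    · exact mul_inv_eq_one.2 h.tx
    · exact mul_inv_eq_one.2 h.ty
    · exact h.test

/-- The word problem for the group with `4` generators and `m + 7` relators. -/
theorem wp_iff {m : ℕ} (hm : 1 ≤ m) (T : Fin m → List Bool × List Bool)
    (hT : ∀ i, (T i).1 ≠ [] ∧ (T i).2 ≠ []) (w0 r : List Bool) :
    tw r (FreeGroup.of 0) (FreeGroup.of 1) (FreeGroup.of 2) (FreeGroup.of (3 : Fin 4)) ∈
      Subgroup.normalClosure (Set.range (relsA T w0)) ↔ ThueEq T r w0 := by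
  constructor
  · intro h
    by_contra hr
    obtain ⟨M, _, a, x, y, t, hrel, hne⟩ := model hm T hT w0 r hr
    have e0 : FreeGroup.lift ![a, x, y, t] (FreeGroup.of 0) = a := FreeGroup.lift_apply_of
    have e1 : FreeGroup.lift ![a, x, y, t] (FreeGroup.of 1) = x := FreeGroup.lift_apply_of
    have e2 : FreeGroup.lift ![a, x, y, t] (FreeGroup.of 2) = y := FreeGroup.lift_apply_of
    have e3 : FreeGroup.lift ![a, x, y, t] (FreeGroup.of 3) = t := FreeGroup.lift_apply_of
    have h1 : Subgroup.normalClosure (Set.range (relsA T w0)) ≤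
        (FreeGroup.lift ![a, x, y, t]).ker := by
      apply Subgroup.normalClosure_le_normal
      rintro _ ⟨k, rfl⟩
      rw [SetLike.mem_coe, MonoidHom.mem_ker]
      unfold relsA
      rw [P1_relA, e0, e1, e2, e3]
      exact relA_of_rel T w0 a x y t hrel k
    have h2 := h1 h
    rw [MonoidHom.mem_ker, P1_tw, e0, e1, e2, e3] at h2
    exact hne h2
  · intro hr
    have h1 : Rel T w0
        (QuotientGroup.mk' (Subgroup.normalClosure (Set.range (relsA T w0))) (FreeGroup.of 0))
        (QuotientGroup.mk' (Subgroup.normalClosure (Set.range (relsA T w0))) (FreeGroup.of 1))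
        (QuotientGroup.mk' (Subgroup.normalClosure (Set.range (relsA T w0))) (FreeGroup.of 2))
        (QuotientGroup.mk' (Subgroup.normalClosure (Set.range (relsA T w0)))
          (FreeGroup.of 3)) := by
      apply rel_of_relA
      intro k
      rw [← P1_relA]
      exact (QuotientGroup.eq_one_iff _).2 (Subgroup.subset_normalClosure ⟨k, rfl⟩)
    have h2 := complete h1 hr
    have h3 : QuotientGroup.mk' (Subgroup.normalClosure (Set.range (relsA T w0)))
        (tw r (FreeGroup.of 0) (FreeGroup.of 1) (FreeGroup.of 2) (FreeGroup.of (3 : Fin 4))) =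
        1 := by
      rw [P1_tw]
      exact h2
    exact (QuotientGroup.eq_one_iff _).1 h3

end Pool.Agent.H832.Few
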