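import Pool.Agent.H832.Few.P1

set_option autoImplicit false

noncomputable section

namespace Pool.Agent.H832.Few

/-- the words are given by a primitive recursive function -/
def P3_Rep {n : ℕ} (F : List Bool → FreeGroup (Fin n)) : Prop :=
  ∃ f : List Bool → List (Fin n × Bool), Primrec f ∧ ∀ r, FreeGroup.mk (f r) = F r

theorem P3_const {n : ℕ} (g : FreeGroup (Fin n)) : P3_Rep fun _ => g :=
  ⟨fun _ => g.toWord, Primrec.const _, fun _ => FreeGroup.mk_toWord⟩

theorem P3_mul {n : ℕ} {F G : List Bool → FreeGroup (Fin n)} (hF : P3_Rep F) (hG : P3_Rep G) :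
    P3_Rep fun r => F r * G r := by
  obtain ⟨f, hf, hf'⟩ := hF
  obtain ⟨g, hg, hg'⟩ := hG
  refine ⟨fun r => f r ++ g r, Primrec.list_append.comp hf hg, fun r => ?_⟩
  rw [← FreeGroup.mul_mk, hf', hg']

theorem P3_inv {n : ℕ} {F : List Bool → FreeGroup (Fin n)} (hF : P3_Rep F) :
    P3_Rep fun r => (F r)⁻¹ := by
  obtain ⟨f, hf, hf'⟩ := hF
  refine ⟨fun r => ((f r).map fun g => (g.1, !g.2)).reverse, ?_, fun r => ?_⟩
  · refine Primrec.list_reverse.comp (Primrec.list_map hf ?_)
    exact (Primrec.pair (Primrec.fst.comp Primrec.snd)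
      (Primrec.not.comp (Primrec.snd.comp Primrec.snd))).to₂
  · change FreeGroup.mk (FreeGroup.invRev (f r)) = (F r)⁻¹
    rw [← hf', FreeGroup.inv_mk]

theorem P3_pos {n : ℕ} (a h : FreeGroup (Fin n)) : P3_Rep fun r => pos a h (fl r) := by
  let A : Bool → List (Fin n × Bool) := fun b => (pos a h (blk b)).toWord
  refine ⟨fun r => r.flatMap A, ?_, fun r => ?_⟩
  · exact Primrec.list_flatMap Primrec.id ((Primrec.dom_bool A).comp Primrec.snd).to₂
  · induction r with
    | nil => rfl
    | cons b r ih =>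
      have h1 : pos a h (fl (b :: r)) = pos a h (blk b) * pos a h (fl r) := by
        unfold pos fl
        rw [List.flatMap_cons, List.map_append, List.prod_append]
      have ih' : FreeGroup.mk (r.flatMap A) = pos a h (fl r) := ih
      change FreeGroup.mk ((b :: r).flatMap A) = pos a h (fl (b :: r))
      have h2 : FreeGroup.mk (A b) = pos a h (blk b) := FreeGroup.mk_toWord
      rw [h1, List.flatMap_cons, ← FreeGroup.mul_mk, ih', h2]

theorem P3_W {n : ℕ} {F G : List Bool → FreeGroup (Fin n)} (hF : P3_Rep F) (hG : P3_Rep G) :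
    P3_Rep fun r => W (F r) (G r) := by
  have hF' := P3_inv hF
  have hG' := P3_inv hG
  unfold W
  exact P3_mul (P3_mul (P3_mul (P3_mul (P3_mul (P3_mul (P3_mul (P3_mul (P3_mul (P3_mul (P3_mul
    (P3_mul (P3_mul (P3_mul hF hF) hG) hF') hG) hF') hF') hG) hG) hG) hF') hF') hG) hF') hG'

theorem P3_tw {n : ℕ} (a x y t : FreeGroup (Fin n)) : P3_Rep fun r => tw r a x y t := by
  have h1 : P3_Rep fun r => pp r a x y := P3_mul (P3_pos a (hh x y)) (P3_const a)
  exact P3_W (P3_const t) (P3_mul (P3_mul (P3_inv h1) (P3_const t)) h1)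

/-- A computable word for the test element, in the free group on `n` letters. -/
theorem exists_twList {n : ℕ} (a x y t : Fin n) : ∃ f : List Bool → List (Fin n × Bool),
    Computable f ∧ ∀ r, FreeGroup.mk (f r) =
      tw r (FreeGroup.of a) (FreeGroup.of x) (FreeGroup.of y) (FreeGroup.of t) := by
  obtain ⟨f, hf, hf'⟩ := P3_tw (FreeGroup.of a) (FreeGroup.of x) (FreeGroup.of y) (FreeGroup.of t)
  exact ⟨f, hf.to_comp, hf'⟩

theorem P3_vec {α : Type} (P : (List Bool → α) → Prop) (c0 c1 c2 c3 c4 c5 c6 c7 c8 c9 c10 : α)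
    (L : List Bool → α) (hc : ∀ c, P fun _ => c) (hL : P L) (j : Fin 12) :
    P fun r => ![c0, c1, c2, c3, c4, c5, c6, c7, c8, c9, c10, L r] j := by
  fin_cases j
  · exact hc _
  · exact hc _
  · exact hc _
  · exact hc _
  · exact hc _
  · exact hc _
  · exact hc _
  · exact hc _
  · exact hc _
  · exact hc _
  · exact hc _
  · exact hL

theorem P3_last {n : ℕ} (a x y t v z : FreeGroup (Fin n)) : P3_Rep fun r =>
      (tw r a x y t * v ^ 4 * (tw r a x y t)⁻¹ * (v ^ 4)⁻¹) * z *
        (tw r a x y t * v ^ 4 * (tw r a x y t)⁻¹ * (v ^ 4)⁻¹) *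
        (z * (tw r a x y t * v ^ 4 * (tw r a x y t)⁻¹ * (v ^ 4)⁻¹) * z)⁻¹ := by
  have h := P3_tw a x y t
  have h1 := P3_mul (P3_mul (P3_mul h (P3_const (v ^ 4))) (P3_inv h)) (P3_const ((v ^ 4)⁻¹))
  exact P3_mul (P3_mul (P3_mul h1 (P3_const z)) h1)
    (P3_inv (P3_mul (P3_mul (P3_const z) h1) (P3_const z)))

theorem P3_relB {n m : ℕ} (T : Fin m → List Bool × List Bool) (w0 : List Bool)
    (a x y t s u v z : FreeGroup (Fin n)) (k : Fin (m + 12)) :
    P3_Rep fun r => relB T w0 r a x y t s u v z k := by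
  induction k using Fin.addCases with
  | left i =>
    unfold relB
    simp only [Fin.append_left]
    exact P3_const _
  | right j =>
    unfold relB
    simp only [Fin.append_right]
    exact P3_vec P3_Rep _ _ _ _ _ _ _ _ _ _ _ _ P3_const (P3_last a x y t v z) j

theorem P3_rel {m : ℕ} (T : Fin m → List Bool × List Bool) (w0 : List Bool) (k : Fin (m + 12)) :
    P3_Rep fun r => relsB T w0 r k := P3_relB T w0 _ _ _ _ _ _ _ _ k

/-- Computable relators. -/
theorem exists_relsB {m : ℕ} (T : Fin m → List Bool × List Bool) (w0 : List Bool) :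
    ∃ f : List Bool → Fin (m + 12) → List (Fin 8 × Bool), Computable f ∧
      ∀ r k, FreeGroup.mk (f r k) = relsB T w0 r k := by
  choose f hf hf' using P3_rel T w0
  refine ⟨fun r k => f k r, ?_, fun r k => hf' k r⟩
  refine Primrec.to_comp ?_
  rw [Primrec.fin_curry]
  exact Primrec₂.swap (Primrec.fin_curry₁.2 hf)

end Pool.Agent.H832.Few
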