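import Pool.Agent.H832.Few.P3

set_option autoImplicit false

/-!
# The same group with `3` generators and `m + 6` relators

With `z = x y x t` one has `y = z x z⁻¹` and `t = (x y x)⁻¹ z`, and the relation `t x = x t`
follows from the braid relation.
-/

noncomputable section

namespace Pool.Agent.H832.Few

/-- The element `y` in terms of `x` and `z`. -/
def yz {M : Type} [Group M] (x z : M) : M := z * x * z⁻¹

/-- The element `t` in terms of `x` and `z`. -/
def tz {M : Type} [Group M] (x z : M) : M := (x * yz x z * x)⁻¹ * z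

theorem T1_yz_map {M N : Type} [Group M] [Group N] (f : M →* N) (x z : M) :
    f (yz x z) = yz (f x) (f z) := by
  simp only [yz, map_mul, map_inv]

theorem T1_tz_map {M N : Type} [Group M] [Group N] (f : M →* N) (x z : M) :
    f (tz x z) = tz (f x) (f z) := by
  simp only [tz, map_mul, map_inv, T1_yz_map]

theorem T1_delta {M : Type} [Group M] {x y : M} (hb : x * y * x = y * x * y) :
    x * y * x * x = y * (x * y * x) := by
  calc x * y * x * x = y * x * y * x := by rw [hb]
    _ = y * (x * y * x) := by simp only [mul_assoc]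

/-- The relation `t x = x t` is a consequence of the braid relation. -/
theorem T1_tx {M : Type} [Group M] {x z : M}
    (hb : x * yz x z * x = yz x z * x * yz x z) : tz x z * x = x * tz x z := by
  have h1 := T1_delta hb
  have h2 : z * x = yz x z * z := by simp [yz]
  have h3 : (x * yz x z * x) * (tz x z * x) = (x * yz x z * x) * (x * tz x z) := by
    calc (x * yz x z * x) * (tz x z * x) = z * x := by simp only [tz]; group
      _ = yz x z * z := h2
      _ = yz x z * ((x * yz x z * x) * tz x z) := by
          congr 1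
          simp only [tz]
          rw [mul_inv_cancel_left]
      _ = (yz x z * (x * yz x z * x)) * tz x z := by rw [← mul_assoc]
      _ = (x * yz x z * x * x) * tz x z := by rw [h1]
      _ = (x * yz x z * x) * (x * tz x z) := by simp only [mul_assoc]
  exact mul_left_cancel h3

/-- The elements `y` and `t` are recovered from `x` and `z = x y x t`. -/
theorem T1_recover {M : Type} [Group M] {x y t : M} (hb : x * y * x = y * x * y)
    (htx : t * x = x * t) : yz x (x * y * x * t) = y ∧ tz x (x * y * x * t) = t := by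
  have h1 : yz x (x * y * x * t) = y := by
    unfold yz
    rw [mul_inv_eq_iff_eq_mul]
    calc x * y * x * t * x = x * y * x * (t * x) := by simp only [mul_assoc]
      _ = x * y * x * (x * t) := by rw [htx]
      _ = (x * y * x * x) * t := by simp only [mul_assoc]
      _ = y * (x * y * x) * t := by rw [T1_delta hb]
      _ = y * (x * y * x * t) := by simp only [mul_assoc]
  refine ⟨h1, ?_⟩
  unfold tz
  rw [h1, inv_mul_cancel_left]

/-- The relators of the presentation with the generators `a, x, z` (numbered `0, 1, 2`). -/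
def relsT {m : ℕ} (T : Fin m → List Bool × List Bool) (w0 : List Bool) :
    Fin (m + 6) → FreeGroup (Fin 3) := fun k =>
  relA T w0 (FreeGroup.of 0) (FreeGroup.of 1) (yz (FreeGroup.of 1) (FreeGroup.of 2))
    (tz (FreeGroup.of 1) (FreeGroup.of 2)) ((Fin.natAdd m (4 : Fin 7)).succAbove k)

theorem T1_all {m : ℕ} (T : Fin m → List Bool × List Bool) (w0 : List Bool) {M : Type} [Group M]
    (a x z : M) (h : ∀ k : Fin (m + 6),
      relA T w0 a x (yz x z) (tz x z) ((Fin.natAdd m (4 : Fin 7)).succAbove k) = 1) :
    ∀ k, relA T w0 a x (yz x z) (tz x z) k = 1 := by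
  have hne : ∀ k : Fin (m + 7), k ≠ Fin.natAdd m (4 : Fin 7) →
      relA T w0 a x (yz x z) (tz x z) k = 1 := by
    intro k hk
    obtain ⟨j, rfl⟩ := Fin.exists_succAbove_eq hk
    exact h j
  intro k
  by_cases hk : k = Fin.natAdd m (4 : Fin 7)
  · subst hk
    have h0 : relA T w0 a x (yz x z) (tz x z) (Fin.natAdd m (0 : Fin 7)) = 1 := by
      apply hne
      intro h1
      have h2 := congrArg Fin.val h1
      simp at h2
    unfold relA at h0 ⊢
    rw [Fin.append_right] at h0 ⊢
    exact mul_inv_eq_one.2 (T1_tx (mul_inv_eq_one.1 h0))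
  · exact hne k hk

/-- The word problem for the group with `3` generators and `m + 6` relators. -/
theorem wp3_iff {m : ℕ} (hm : 1 ≤ m) (T : Fin m → List Bool × List Bool)
    (hT : ∀ i, (T i).1 ≠ [] ∧ (T i).2 ≠ []) (w0 r : List Bool) :
    tw r (FreeGroup.of 0) (FreeGroup.of 1) (yz (FreeGroup.of 1) (FreeGroup.of 2))
      (tz (FreeGroup.of 1) (FreeGroup.of (2 : Fin 3))) ∈
      Subgroup.normalClosure (Set.range (relsT T w0)) ↔ ThueEq T r w0 := by
  constructor
  · intro h
    by_contra hr
    obtain ⟨M, _, a, x, y, t, hrel, hne⟩ := model hm T hT w0 r hr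
    obtain ⟨hy, ht⟩ := T1_recover hrel.braid hrel.tx
    have e0 : FreeGroup.lift ![a, x, x * y * x * t] (FreeGroup.of 0) = a :=
      FreeGroup.lift_apply_of
    have e1 : FreeGroup.lift ![a, x, x * y * x * t] (FreeGroup.of 1) = x :=
      FreeGroup.lift_apply_of
    have e2 : FreeGroup.lift ![a, x, x * y * x * t] (FreeGroup.of 2) = x * y * x * t :=
      FreeGroup.lift_apply_of
    have h1 : Subgroup.normalClosure (Set.range (relsT T w0)) ≤
        (FreeGroup.lift ![a, x, x * y * x * t]).ker := by
      apply Subgroup.normalClosure_le_normal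
      rintro _ ⟨k, rfl⟩
      rw [SetLike.mem_coe, MonoidHom.mem_ker]
      unfold relsT
      rw [P1_relA, T1_yz_map, T1_tz_map, e0, e1, e2, hy, ht]
      exact relA_of_rel T w0 a x y t hrel _
    have h2 := h1 h
    rw [MonoidHom.mem_ker, P1_tw, T1_yz_map, T1_tz_map, e0, e1, e2, hy, ht] at h2
    exact hne h2
  · intro hr
    let N := Subgroup.normalClosure (Set.range (relsT T w0))
    let φ : FreeGroup (Fin 3) →* FreeGroup (Fin 3) ⧸ N := QuotientGroup.mk' N
    have hA : ∀ k : Fin (m + 6), relA T w0 (φ (FreeGroup.of 0)) (φ (FreeGroup.of 1))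
        (yz (φ (FreeGroup.of 1)) (φ (FreeGroup.of 2)))
        (tz (φ (FreeGroup.of 1)) (φ (FreeGroup.of 2)))
        ((Fin.natAdd m (4 : Fin 7)).succAbove k) = 1 := by
      intro k
      rw [← T1_yz_map, ← T1_tz_map, ← P1_relA]
      exact (QuotientGroup.eq_one_iff _).2 (Subgroup.subset_normalClosure ⟨k, rfl⟩)
    have h2 := complete (rel_of_relA T w0 _ _ _ _ (T1_all T w0 _ _ _ hA)) hr
    have h3 : φ (tw r (FreeGroup.of 0) (FreeGroup.of 1) (yz (FreeGroup.of 1) (FreeGroup.of 2))
        (tz (FreeGroup.of 1) (FreeGroup.of (2 : Fin 3)))) = 1 := by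
      rw [P1_tw, T1_yz_map, T1_tz_map]
      exact h2
    exact (QuotientGroup.eq_one_iff _).1 h3

/-- Computable test words. -/
theorem exists_twList3 : ∃ f : List Bool → List (Fin 3 × Bool),
    Computable f ∧ ∀ r, FreeGroup.mk (f r) =
      tw r (FreeGroup.of 0) (FreeGroup.of 1) (yz (FreeGroup.of 1) (FreeGroup.of 2))
        (tz (FreeGroup.of 1) (FreeGroup.of (2 : Fin 3))) := by
  obtain ⟨f, hf, hf'⟩ := P3_tw (FreeGroup.of (0 : Fin 3)) (FreeGroup.of 1)
    (yz (FreeGroup.of 1) (FreeGroup.of 2)) (tz (FreeGroup.of 1) (FreeGroup.of 2))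
  exact ⟨f, hf.to_comp, hf'⟩

end Pool.Agent.H832.Few
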