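import Mathlib

set_option autoImplicit false

/-!
# Thue systems over a two-letter alphabet
-/

namespace Pool.Agent.H832.Few

/-- One application of a relation of the Thue system `T`. -/
def Step {m : ℕ} (T : Fin m → List Bool × List Bool) (u v : List Bool) : Prop :=
  ∃ (i : Fin m) (x y : List Bool), u = x ++ (T i).1 ++ y ∧ v = x ++ (T i).2 ++ y

/-- Equality in the monoid with the two generators `false, true` and the relations `T`. -/
def ThueEq {m : ℕ} (T : Fin m → List Bool × List Bool) : List Bool → List Bool → Prop :=
  Relation.EqvGen (Step T)

end Pool.Agent.H832.Few
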